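import Pool.Agent.H66.RZ.Defs

/-!
Module AndCnt (about 130 lines).  Positives lost by an AND gate.

`b = |B|`.  PROOF.  If `x` is in the set on the left choose `X ∈ 𝒳`, `Y ∈ 𝒴` contained in `x` with
`U = X.1 ∪ Y.1`, `s = |U|`, `l < s ≤ 2 l`.  So the set is contained in the union over `s`, over `U`
with `|U| = s` (`C(b,s)` sets), over the pairs `(S, S')` with `S ∪ S' = U` (`3^s` pairs: every
element of `U` is in `S` only, in `S'` only, or in both) of
`Q(S, S') = {x : ∃ X ∈ 𝒳, ∃ Y ∈ 𝒴, X.1 = S, Y.1 = S', x contains X and Y}`.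
For fixed `S, S'`: `|Q(S,S')| ≤ ∑_{X ∈ 𝒳, X.1 = S} ∑_{Y ∈ 𝒴, Y.1 = S', Y.2 = X.2 on S ∩ S'}
#{x : x contains X and Y}`; the number of `X` is at most `κ^|S|` (`Reduced` with `T = ∅`), for given
`X` the number of `Y` is at most `κ^(|S'| - |S ∩ S'|)` (`Reduced` with `T = S ∩ S'`, `z = X.2`), and
every pair contributes `m^(b - s)` placements (`x` is determined on `U`; `0` or `m^(b-s)`).  Total
`κ^(|S| + |S'| - |S ∩ S'|) m^(b-s) = κ^s m^(b-s)`.
Helper facts: `card_ext`: `#{x : ∀ i ∈ U, x i = c i} = m^(b - |U|)` (`Fintype.card_piFinset`);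
the number of pairs `(S, S')` with `S ∪ S' = U` is `3^|U|` (or at most `3^|U|`; induction on `U`, or
the injection to `U → Fin 3`).
-/

namespace Pool.H66.RZ

open Finset
open scoped Classical

private lemma card_ext {B : Type} [Fintype B] [DecidableEq B] {m : ℕ} (U : Finset B)
    (c : B → Fin m) :
    (univ.filter (fun x : B → Fin m => ∀ i ∈ U, x i = c i)).card =
      m ^ (Fintype.card B - U.card) := by
  have h1 : (univ.filter (fun x : B → Fin m => ∀ i ∈ U, x i = c i)) =
      Fintype.piFinset (fun i => if i ∈ U then ({c i} : Finset (Fin m)) else univ) := by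
    ext x
    simp only [mem_filter, mem_univ, true_and, Fintype.mem_piFinset]
    constructor
    · intro h i
      by_cases hi : i ∈ U
      · simp [hi, h i hi]
      · simp [hi]
    · intro h i hi
      have := h i
      simpa [hi] using this
  rw [h1, Fintype.card_piFinset]
  have h2 : ∀ i : B, (if i ∈ U then ({c i} : Finset (Fin m)) else univ).card =
      if i ∈ U then 1 else m := by
    intro i
    by_cases hi : i ∈ U
    · simp [hi]
    · simp [hi]
  rw [Finset.prod_congr rfl (fun i _ => h2 i)]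
  rw [Finset.prod_ite]
  simp only [prod_const_one, one_mul, prod_const]
  congr 1
  have h3 : (univ.filter (fun i => i ∉ U)) = univ \ U := by
    ext i
    simp
  rw [h3, Finset.card_sdiff_of_subset (Finset.subset_univ U), Finset.card_univ]

private lemma card_pairs {B : Type} [DecidableEq B] (U : Finset B) :
    ((U.powerset ×ˢ U.powerset).filter (fun P => P.1 ∪ P.2 = U)).card ≤ 3 ^ U.card := by
  have h1 : ((U.powerset ×ˢ U.powerset).filter (fun P => P.1 ∪ P.2 = U)) ⊆
      U.powerset.biUnion (fun S => S.powerset.image (fun T => (S, (U \ S) ∪ T))) := by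
    intro P hP
    simp only [mem_filter, mem_product, mem_powerset] at hP
    obtain ⟨⟨hS, hS'⟩, hU⟩ := hP
    simp only [mem_biUnion, mem_image, mem_powerset]
    refine ⟨P.1, hS, P.1 ∩ P.2, Finset.inter_subset_left, ?_⟩
    refine Prod.ext rfl ?_
    simp only
    ext i
    simp only [mem_union, mem_sdiff, mem_inter]
    constructor
    · rintro (⟨hi, hn⟩ | ⟨_, hi⟩)
      · rw [← hU] at hi
        rcases Finset.mem_union.1 hi with h | h
        · exact absurd h hn
        · exact h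
      · exact hi
    · intro hi
      by_cases h : i ∈ P.1
      · exact Or.inr ⟨h, hi⟩
      · exact Or.inl ⟨hS' hi, h⟩
  refine (Finset.card_le_card h1).trans ?_
  refine Finset.card_biUnion_le.trans ?_
  have h2 : ∀ S ∈ U.powerset, (S.powerset.image (fun T => (S, (U \ S) ∪ T))).card ≤
      2 ^ S.card * 1 ^ (U.card - S.card) := by
    intro S _
    refine Finset.card_image_le.trans ?_
    rw [Finset.card_powerset, one_pow, mul_one]
  refine (Finset.sum_le_sum h2).trans ?_
  rw [Finset.sum_pow_mul_eq_add_pow]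

private lemma card_Q {B : Type} [Fintype B] [DecidableEq B] {m κ : ℕ}
    (a₀ : Fin m) (𝒳 𝒴 : Finset (Term B m)) (hX2 : Reduced κ 𝒳) (hY2 : Reduced κ 𝒴)
    (S S' : Finset B) :
    (univ.filter (fun x : B → Fin m => ∃ X ∈ 𝒳, ∃ Y ∈ 𝒴, X.1 = S ∧ Y.1 = S' ∧
      accP X x ∧ accP Y x)).card ≤
      κ ^ (S ∪ S').card * m ^ (Fintype.card B - (S ∪ S').card) := by
  have hsub : (univ.filter (fun x : B → Fin m => ∃ X ∈ 𝒳, ∃ Y ∈ 𝒴, X.1 = S ∧ Y.1 = S' ∧
      accP X x ∧ accP Y x)) ⊆
      (𝒳.filter (fun X => X.1 = S ∧ ∀ i ∈ (∅ : Finset B), X.2 i = (fun _ => a₀) i)).biUnion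
        (fun X => (𝒴.filter (fun Y => Y.1 = S' ∧ ∀ i ∈ S ∩ S', Y.2 i = X.2 i)).biUnion
          (fun Y => univ.filter (fun x : B → Fin m =>
            ∀ i ∈ S ∪ S', x i = if i ∈ S then X.2 i else Y.2 i))) := by
    intro x hx
    simp only [mem_filter, mem_univ, true_and] at hx
    obtain ⟨X, hX, Y, hY, hXS, hYS, haX, haY⟩ := hx
    subst hXS
    subst hYS
    simp only [mem_biUnion, mem_filter, mem_univ, true_and]
    refine ⟨X, ⟨hX, rfl, ?_⟩, Y, ⟨hY, rfl, ?_⟩, ?_⟩
    · intro i hi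
      simp at hi
    · intro i hi
      rw [← haX i (Finset.mem_inter.1 hi).1, ← haY i (Finset.mem_inter.1 hi).2]
    · intro i hi
      by_cases h : i ∈ X.1
      · rw [if_pos h]
        exact haX i h
      · rw [if_neg h]
        rcases Finset.mem_union.1 hi with h' | h'
        · exact absurd h' h
        · exact haY i h'
  refine (Finset.card_le_card hsub).trans ?_
  have hin : ∀ X ∈ (𝒳.filter (fun X => X.1 = S ∧ ∀ i ∈ (∅ : Finset B), X.2 i = (fun _ => a₀) i)),
      ((𝒴.filter (fun Y => Y.1 = S' ∧ ∀ i ∈ S ∩ S', Y.2 i = X.2 i)).biUnion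
          (fun Y => univ.filter (fun x : B → Fin m =>
            ∀ i ∈ S ∪ S', x i = if i ∈ S then X.2 i else Y.2 i))).card ≤
        κ ^ (S'.card - (S ∩ S').card) * m ^ (Fintype.card B - (S ∪ S').card) := by
    intro X _
    refine (Finset.card_biUnion_le_card_mul _ _ (m ^ (Fintype.card B - (S ∪ S').card)) ?_).trans ?_
    · intro Y _
      exact (card_ext (S ∪ S') (fun i => if i ∈ S then X.2 i else Y.2 i)).le
    · refine Nat.mul_le_mul_right _ ?_
      have h0 := hY2 S' (S ∩ S') Finset.inter_subset_right X.2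
      refine le_trans (le_of_eq ?_) h0
      congr 1
      ext Y
      simp only [mem_filter]
  refine (Finset.card_biUnion_le_card_mul _ _ _ hin).trans ?_
  have h1 : (𝒳.filter (fun X => X.1 = S ∧ ∀ i ∈ (∅ : Finset B), X.2 i = (fun _ => a₀) i)).card ≤
      κ ^ S.card := by
    have h0 := hX2 S ∅ (Finset.empty_subset S) (fun _ => a₀)
    rw [Finset.card_empty, Nat.sub_zero] at h0
    refine le_trans (le_of_eq ?_) h0
    congr 1
    ext Y
    simp only [mem_filter]
  refine (Nat.mul_le_mul_right _ h1).trans ?_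
  rw [← mul_assoc, ← pow_add]
  have h2 : S.card + (S'.card - (S ∩ S').card) = (S ∪ S').card := by
    have h3 := Finset.card_union_add_card_inter S S'
    have h4 : (S ∩ S').card ≤ S'.card := Finset.card_le_card Finset.inter_subset_right
    omega
  rw [h2]

theorem and_loss {B : Type} [Fintype B] [DecidableEq B] {m l κ : ℕ} (hm : 0 < m)
    (a₀ : Fin m) (𝒳 𝒴 : Finset (Term B m)) (hX : Valid a₀ l 𝒳) (hY : Valid a₀ l 𝒴)
    (hX2 : Reduced κ 𝒳) (hY2 : Reduced κ 𝒴) :
    ((univ.filter (fun x : B → Fin m => ∃ X ∈ 𝒳, ∃ Y ∈ 𝒴, accP X x ∧ accP Y x ∧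
      l < (X.1 ∪ Y.1).card)).card : ℝ) ≤
        (m : ℝ) ^ Fintype.card B * ∑ s ∈ Finset.Icc (l + 1) (2 * l),
          (3 : ℝ) ^ s * ((Fintype.card B).choose s : ℝ) * ((κ : ℝ) / m) ^ s := by
  have hsub : (univ.filter (fun x : B → Fin m => ∃ X ∈ 𝒳, ∃ Y ∈ 𝒴, accP X x ∧ accP Y x ∧
      l < (X.1 ∪ Y.1).card)) ⊆
      (Finset.Icc (l + 1) (2 * l)).biUnion (fun s =>
        (Finset.powersetCard s (univ : Finset B)).biUnion (fun U =>
          ((U.powerset ×ˢ U.powerset).filter (fun P => P.1 ∪ P.2 = U)).biUnion (fun P =>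
            univ.filter (fun x : B → Fin m => ∃ X ∈ 𝒳, ∃ Y ∈ 𝒴, X.1 = P.1 ∧ Y.1 = P.2 ∧
              accP X x ∧ accP Y x)))) := by
    intro x hx
    simp only [mem_filter, mem_univ, true_and] at hx
    obtain ⟨X, hXm, Y, hYm, haX, haY, hl⟩ := hx
    rw [Finset.mem_biUnion]
    refine ⟨(X.1 ∪ Y.1).card, ?_, ?_⟩
    · rw [Finset.mem_Icc]
      refine ⟨hl, ?_⟩
      have h1 := (hX X hXm).1
      have h2 := (hY Y hYm).1
      have h3 := Finset.card_union_le X.1 Y.1
      omega
    rw [Finset.mem_biUnion]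
    refine ⟨X.1 ∪ Y.1, ?_, ?_⟩
    · rw [Finset.mem_powersetCard]
      exact ⟨Finset.subset_univ _, rfl⟩
    rw [Finset.mem_biUnion]
    refine ⟨(X.1, Y.1), ?_, ?_⟩
    · simp only [mem_filter, mem_product, mem_powerset]
      exact ⟨⟨Finset.subset_union_left, Finset.subset_union_right⟩, trivial⟩
    · simp only [mem_filter, mem_univ, true_and]
      exact ⟨X, hXm, Y, hYm, rfl, rfl, haX, haY⟩
  have hcard := Finset.card_le_card hsub
  have hbound : ((Finset.Icc (l + 1) (2 * l)).biUnion (fun s =>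
        (Finset.powersetCard s (univ : Finset B)).biUnion (fun U =>
          ((U.powerset ×ˢ U.powerset).filter (fun P => P.1 ∪ P.2 = U)).biUnion (fun P =>
            univ.filter (fun x : B → Fin m => ∃ X ∈ 𝒳, ∃ Y ∈ 𝒴, X.1 = P.1 ∧ Y.1 = P.2 ∧
              accP X x ∧ accP Y x))))).card ≤
      ∑ s ∈ Finset.Icc (l + 1) (2 * l),
        (Fintype.card B).choose s * (3 ^ s * (κ ^ s * m ^ (Fintype.card B - s))) := by
    refine Finset.card_biUnion_le.trans ?_
    refine Finset.sum_le_sum ?_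
    intro s _
    have hU : ∀ U ∈ Finset.powersetCard s (univ : Finset B),
        (((U.powerset ×ˢ U.powerset).filter (fun P => P.1 ∪ P.2 = U)).biUnion (fun P =>
            univ.filter (fun x : B → Fin m => ∃ X ∈ 𝒳, ∃ Y ∈ 𝒴, X.1 = P.1 ∧ Y.1 = P.2 ∧
              accP X x ∧ accP Y x))).card ≤ 3 ^ s * (κ ^ s * m ^ (Fintype.card B - s)) := by
      intro U hU
      have hUs : U.card = s := (Finset.mem_powersetCard.1 hU).2
      refine (Finset.card_biUnion_le_card_mul _ _ (κ ^ s * m ^ (Fintype.card B - s)) ?_).trans ?_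
      · intro P hP
        have hPU : P.1 ∪ P.2 = U := (Finset.mem_filter.1 hP).2
        have := card_Q a₀ 𝒳 𝒴 hX2 hY2 P.1 P.2
        rw [hPU, hUs] at this
        exact this
      · refine Nat.mul_le_mul_right _ ?_
        rw [← hUs]
        exact card_pairs U
    refine (Finset.card_biUnion_le_card_mul _ _ _ hU).trans ?_
    rw [Finset.card_powersetCard, Finset.card_univ]
  have hreal : ((univ.filter (fun x : B → Fin m => ∃ X ∈ 𝒳, ∃ Y ∈ 𝒴, accP X x ∧ accP Y x ∧
      l < (X.1 ∪ Y.1).card)).card : ℝ) ≤ ((∑ s ∈ Finset.Icc (l + 1) (2 * l),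
        (Fintype.card B).choose s * (3 ^ s * (κ ^ s * m ^ (Fintype.card B - s))) : ℕ) : ℝ) := by
    exact_mod_cast hcard.trans hbound
  refine hreal.trans ?_
  rw [Finset.mul_sum]
  push_cast
  refine Finset.sum_le_sum ?_
  intro s _
  have hm0 : (m : ℝ) ≠ 0 := by
    have : (0 : ℝ) < m := by exact_mod_cast hm
    exact this.ne'
  by_cases hs : s ≤ Fintype.card B
  · have hpow : (m : ℝ) ^ Fintype.card B = (m : ℝ) ^ (Fintype.card B - s) * (m : ℝ) ^ s := by
      rw [← pow_add, Nat.sub_add_cancel hs]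
    rw [hpow, div_pow]
    have hms : (m : ℝ) ^ s ≠ 0 := pow_ne_zero _ hm0
    apply le_of_eq
    field_simp
  · rw [Nat.choose_eq_zero_of_lt (not_le.1 hs)]
    simp

end Pool.H66.RZ
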