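import Pool.Agent.H66.RZ.Defs

/-!
Module Circ (about 90 lines).  The abstract form of Razborov's approximation method.

PROOF.  Induction over the list of gates (`run` is defined by recursion over the list with an
accumulator `vals`).  Invariant for a list `vals x` of gate values of length `j` (for positives `x`
and negatives `y`): there are a list `as : List A` of approximators of length `j`, a set
`BP : Finset P` of at most `j * α` bad positives, a set `BN : Finset Y` of at most `j * β` bad
negatives such that for every gate index `i < j`: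
for `x ∉ BP`: value of gate `i` on `px x` is `true` implies `pos as[i] x`;
for `y ∉ BN`: `neg as[i] y` implies that the value of gate `i` on `ny y` is `true`.
Every wire has an approximator: constants by `hbot`, `htop`, inputs by `hin`, gates from the list,
nonexistent gates (value `false`) by `hbot`.  One more gate adds by `hand` / `hor` one approximator
and at most `α`, `β` bad inputs.  At the end take the approximator `a` of the output wire.  All
`x ∉ BP` are accepted by `pos a`, because the output is `true`; if no `x` at all is accepted then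
`P = BP`, so `card P ≤ size * α`.  Otherwise `hfin` gives `θ ≤ #{y | neg a y}`, and for `y ∉ BN` we
have `¬ neg a y` because the output is `false`; hence `θ ≤ card BN ≤ size * β`.
It is convenient to prove first a lemma about `run x gs vals` for arbitrary accumulators.
-/

namespace Pool.H66.RZ

open Finset
open scoped Classical

/-- The wires are approximated outside of the sets of bad inputs. -/
private def Appr {ι P Y A : Type} (px : P → ι → Bool) (ny : Y → ι → Bool) (pos : A → P → Prop)
    (neg : A → Y → Prop) (vp : P → List Bool) (vn : Y → List Bool) (BP : Finset P)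
    (BN : Finset Y) (w : Wire ι) : Prop :=
  ∃ a, (∀ x, x ∉ BP → w.val (px x) (vp x) = true → pos a x) ∧
    (∀ y, y ∉ BN → neg a y → w.val (ny y) (vn y) = true)

private theorem run_approx {ι P Y A : Type} [Fintype P] [Fintype Y]
    (px : P → ι → Bool) (ny : Y → ι → Bool) (pos : A → P → Prop) (neg : A → Y → Prop)
    (α β : ℝ)
    (hbot : ∃ a, (∀ x, ¬ pos a x) ∧ ∀ y, ¬ neg a y)
    (htop : ∃ a, (∀ x, pos a x) ∧ ∀ y, neg a y)
    (hin : ∀ i, ∃ a, (∀ x, px x i = true → pos a x) ∧ (∀ y, neg a y → ny y i = true))
    (hand : ∀ a b, ∃ c,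
      (((univ.filter (fun x => (pos a x ∧ pos b x) ∧ ¬ pos c x)).card : ℕ) : ℝ) ≤ α ∧
      (((univ.filter (fun y => neg c y ∧ ¬ (neg a y ∧ neg b y))).card : ℕ) : ℝ) ≤ β)
    (hor : ∀ a b, ∃ c,
      (((univ.filter (fun x => (pos a x ∨ pos b x) ∧ ¬ pos c x)).card : ℕ) : ℝ) ≤ α ∧
      (((univ.filter (fun y => neg c y ∧ ¬ (neg a y ∨ neg b y))).card : ℕ) : ℝ) ≤ β)
    (gs : List (Gate ι)) : ∀ (n : ℕ) (vp : P → List Bool) (vn : Y → List Bool) (BP : Finset P)
      (BN : Finset Y), (∀ x, (vp x).length = n) → (∀ y, (vn y).length = n) →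
      (∀ w, Appr px ny pos neg vp vn BP BN w) →
      ∃ (BP' : Finset P) (BN' : Finset Y), ((BP'.card : ℕ) : ℝ) ≤ BP.card + gs.length * α ∧
        ((BN'.card : ℕ) : ℝ) ≤ BN.card + gs.length * β ∧
        ∀ w, Appr px ny pos neg (fun x => run (px x) gs (vp x)) (fun y => run (ny y) gs (vn y))
          BP' BN' w := by
  induction gs with
  | nil =>
    intro n vp vn BP BN _ _ h
    exact ⟨BP, BN, by simp, by simp, h⟩
  | cons g gs ih =>
    intro n vp vn BP BN hvp hvn h
    obtain ⟨a, ha1, ha2⟩ := h g.left
    obtain ⟨b, hb1, hb2⟩ := h g.right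
    -- the approximator of the new gate
    have hc : ∃ c, ∃ (B1 : Finset P) (B2 : Finset Y), ((B1.card : ℕ) : ℝ) ≤ α ∧
        ((B2.card : ℕ) : ℝ) ≤ β ∧
        (∀ x, x ∉ BP ∪ B1 → g.val (px x) (vp x) = true → pos c x) ∧
        (∀ y, y ∉ BN ∪ B2 → neg c y → g.val (ny y) (vn y) = true) := by
      cases hg : g.conj
      · obtain ⟨c, hc1, hc2⟩ := hor a b
        refine ⟨c, _, _, hc1, hc2, ?_, ?_⟩
        · intro x hx hv
          rw [mem_union, not_or] at hx
          by_contra hn
          refine hx.2 (mem_filter.2 ⟨mem_univ _, ?_, hn⟩)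
          rw [Gate.val, hg] at hv
          simp only [Bool.false_eq_true, if_false, Bool.or_eq_true] at hv
          exact hv.imp (ha1 x hx.1) (hb1 x hx.1)
        · intro y hy hv
          rw [mem_union, not_or] at hy
          rw [Gate.val, hg]
          simp only [Bool.false_eq_true, if_false, Bool.or_eq_true]
          by_contra hn
          refine hy.2 (mem_filter.2 ⟨mem_univ _, hv, ?_⟩)
          exact fun h' => hn (h'.imp (ha2 y hy.1) (hb2 y hy.1))
      · obtain ⟨c, hc1, hc2⟩ := hand a b
        refine ⟨c, _, _, hc1, hc2, ?_, ?_⟩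
        · intro x hx hv
          rw [mem_union, not_or] at hx
          by_contra hn
          refine hx.2 (mem_filter.2 ⟨mem_univ _, ?_, hn⟩)
          rw [Gate.val, hg] at hv
          simp only [if_true, Bool.and_eq_true] at hv
          exact hv.imp (ha1 x hx.1) (hb1 x hx.1)
        · intro y hy hv
          rw [mem_union, not_or] at hy
          rw [Gate.val, hg]
          simp only [if_true, Bool.and_eq_true]
          by_contra hn
          refine hy.2 (mem_filter.2 ⟨mem_univ _, hv, ?_⟩)
          exact fun h' => hn (h'.imp (ha2 y hy.1) (hb2 y hy.1))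
    obtain ⟨c, B1, B2, hB1, hB2, hc1, hc2⟩ := hc
    obtain ⟨BP', BN', h1, h2, h3⟩ := ih (n + 1) (fun x => vp x ++ [g.val (px x) (vp x)])
      (fun y => vn y ++ [g.val (ny y) (vn y)]) (BP ∪ B1) (BN ∪ B2)
      (fun x => by simp [hvp x]) (fun y => by simp [hvn y]) (by
        intro w
        cases w with
        | const v =>
          cases v
          · obtain ⟨a', h1, h2⟩ := hbot
            exact ⟨a', fun x _ hx => by simp [Wire.val] at hx, fun y _ hy => absurd hy (h2 y)⟩
          · obtain ⟨a', h1, h2⟩ := htop
            exact ⟨a', fun x _ _ => h1 x, fun y _ _ => rfl⟩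
        | input i =>
          obtain ⟨a', h1, h2⟩ := hin i
          exact ⟨a', fun x _ hx => h1 x hx, fun y _ hy => h2 y hy⟩
        | gate j =>
          rcases lt_trichotomy j n with hj | hj | hj
          · obtain ⟨a', h1, h2⟩ := h (.gate j)
            refine ⟨a', fun x hx hv => h1 x (fun h' => hx (mem_union_left _ h')) ?_,
              fun y hy hv => ?_⟩
            · have h5 : j < (vp x).length := by rw [hvp x]; exact hj
              simp only [Wire.val] at hv ⊢
              rwa [List.getD_append _ _ _ _ h5] at hv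
            · have h5 : j < (vn y).length := by rw [hvn y]; exact hj
              have h6 := h2 y (fun h' => hy (mem_union_left _ h')) hv
              simp only [Wire.val] at h6 ⊢
              rwa [List.getD_append _ _ _ _ h5]
          · refine ⟨c, fun x hx hv => hc1 x hx ?_, fun y hy hv => ?_⟩
            · have h5 : (vp x).length ≤ j := by rw [hvp x]; exact hj.ge
              simpa [Wire.val, List.getD_append_right _ _ _ _ h5, hvp x, hj] using hv
            · have h5 : (vn y).length ≤ j := by rw [hvn y]; exact hj.ge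
              simpa [Wire.val, List.getD_append_right _ _ _ _ h5, hvn y, hj] using hc2 y hy hv
          · obtain ⟨a', h1, h2⟩ := hbot
            refine ⟨a', fun x _ hx => ?_, fun y _ hy => absurd hy (h2 y)⟩
            exfalso
            have h5 : (vp x ++ [g.val (px x) (vp x)]).length ≤ j := by
              simp only [List.length_append, hvp x, List.length_singleton]; omega
            simp only [Wire.val] at hx
            rw [List.getD_eq_default _ _ h5] at hx
            exact Bool.false_ne_true hx)
    refine ⟨BP', BN', h1.trans ?_, h2.trans ?_, h3⟩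
    · have h4 : (((BP ∪ B1).card : ℕ) : ℝ) ≤ BP.card + B1.card := by
        exact_mod_cast card_union_le BP B1
      rw [List.length_cons, Nat.cast_add, Nat.cast_one, add_mul]
      linarith
    · have h4 : (((BN ∪ B2).card : ℕ) : ℝ) ≤ BN.card + B2.card := by
        exact_mod_cast card_union_le BN B2
      rw [List.length_cons, Nat.cast_add, Nat.cast_one, add_mul]
      linarith

theorem approx_bound {ι P Y A : Type} [Fintype P] [Fintype Y]
    (px : P → ι → Bool) (ny : Y → ι → Bool) (pos : A → P → Prop) (neg : A → Y → Prop)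
    (α β θ : ℝ) (hα : 0 ≤ α) (hβ : 0 ≤ β)
    (hbot : ∃ a, (∀ x, ¬ pos a x) ∧ ∀ y, ¬ neg a y)
    (htop : ∃ a, (∀ x, pos a x) ∧ ∀ y, neg a y)
    (hin : ∀ i, ∃ a, (∀ x, px x i = true → pos a x) ∧ (∀ y, neg a y → ny y i = true))
    (hand : ∀ a b, ∃ c,
      (((univ.filter (fun x => (pos a x ∧ pos b x) ∧ ¬ pos c x)).card : ℕ) : ℝ) ≤ α ∧
      (((univ.filter (fun y => neg c y ∧ ¬ (neg a y ∧ neg b y))).card : ℕ) : ℝ) ≤ β)
    (hor : ∀ a b, ∃ c,
      (((univ.filter (fun x => (pos a x ∨ pos b x) ∧ ¬ pos c x)).card : ℕ) : ℝ) ≤ α ∧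
      (((univ.filter (fun y => neg c y ∧ ¬ (neg a y ∨ neg b y))).card : ℕ) : ℝ) ≤ β)
    (hfin : ∀ a, (∀ x, ¬ pos a x) ∨ θ ≤ ((univ.filter (fun y => neg a y)).card : ℝ))
    (C : MonotoneCircuit ι) (hP : ∀ x, C.eval (px x) = true) (hN : ∀ y, C.eval (ny y) = false) :
    (Fintype.card P : ℝ) ≤ C.size * α ∨ θ ≤ C.size * β := by
  obtain ⟨BP, BN, h1, h2, h3⟩ := run_approx px ny pos neg α β hbot htop hin hand hor C.gates 0
    (fun _ => []) (fun _ => []) ∅ ∅ (fun _ => rfl) (fun _ => rfl) (by
      intro w
      cases w with
      | const v =>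
        cases v
        · obtain ⟨a', h1, h2⟩ := hbot
          exact ⟨a', fun x _ hx => by simp [Wire.val] at hx, fun y _ hy => absurd hy (h2 y)⟩
        · obtain ⟨a', h1, h2⟩ := htop
          exact ⟨a', fun x _ _ => h1 x, fun y _ _ => rfl⟩
      | input i =>
        obtain ⟨a', h1, h2⟩ := hin i
        exact ⟨a', fun x _ hx => h1 x hx, fun y _ hy => h2 y hy⟩
      | gate j =>
        obtain ⟨a', h1, h2⟩ := hbot
        exact ⟨a', fun x _ hx => by simp [Wire.val] at hx, fun y _ hy => absurd hy (h2 y)⟩)
  obtain ⟨a, ha1, ha2⟩ := h3 C.out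
  simp only [card_empty, Nat.cast_zero, zero_add] at h1 h2
  rcases hfin a with h4 | h4
  · left
    have h5 : (Fintype.card P : ℝ) ≤ BP.card := by
      rw [← card_univ]
      exact_mod_cast card_le_card (fun x _ => by
        by_contra hx
        exact h4 x (ha1 x hx (hP x)))
    exact h5.trans h1
  · right
    refine h4.trans (le_trans ?_ h2)
    exact_mod_cast card_le_card (fun y hy => by
      by_contra hy'
      have h5 := ha2 y hy' (mem_filter.1 hy).2
      exact Bool.false_ne_true ((hN y).symm.trans h5))

end Pool.H66.RZ
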