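import Pool.Agent.H66.RZ.Defs

/-!
Module Cnt (about 60 lines).  Uniform labellings and random subsets.

PROOF.  Partition the labellings `y` by the set `G = {e | y e = u e}`.  The number of `y` with this
set equal to `G` is `(q-1)^(|E|-|G|)` where `q = |Λ|` (`y e = u e` on `G`, one of the `q - 1` other
labels outside of `G`: `Fintype.piFinset` with `{u e}` for `e ∈ G` and `univ.erase (u e)` otherwise,
`Fintype.card_piFinset`, `Finset.prod_ite`).  And
`q^|E| (1/q)^|G| (1-1/q)^(|E|-|G|) = (q-1)^(|E|-|G|)`.
-/

namespace Pool.H66.RZ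

open Finset
open scoped Classical

private theorem card_fibre {E Λ : Type} [Fintype E] [DecidableEq E] [Fintype Λ] [DecidableEq Λ]
    (u : E → Λ) (G : Finset E) :
    (univ.filter (fun y : E → Λ => univ.filter (fun e => y e = u e) = G)).card =
      (Fintype.card Λ - 1) ^ (Fintype.card E - G.card) := by
  have h1 : univ.filter (fun y : E → Λ => univ.filter (fun e => y e = u e) = G) =
      Fintype.piFinset (fun e => if e ∈ G then {u e} else univ.erase (u e)) := by
    ext y
    rw [mem_filter, Fintype.mem_piFinset]
    constructor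
    · rintro ⟨-, h⟩ e
      by_cases he : e ∈ G
      · rw [if_pos he, mem_singleton]
        rw [← h, mem_filter] at he
        exact he.2
      · rw [if_neg he, mem_erase]
        rw [← h, mem_filter, not_and] at he
        exact ⟨he (mem_univ _), mem_univ _⟩
    · intro h
      refine ⟨mem_univ _, ?_⟩
      ext e
      rw [mem_filter]
      have he := h e
      constructor
      · rintro ⟨-, h2⟩
        by_contra h3
        rw [if_neg h3, mem_erase] at he
        exact he.1 h2
      · intro h2
        rw [if_pos h2, mem_singleton] at he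
        exact ⟨mem_univ _, he⟩
  rw [h1, Fintype.card_piFinset]
  have h2 : ∀ e : E, (if e ∈ G then ({u e} : Finset Λ) else univ.erase (u e)).card =
      if e ∈ G then 1 else Fintype.card Λ - 1 := by
    intro e
    split_ifs with he
    · exact card_singleton _
    · rw [card_erase_of_mem (mem_univ _), card_univ]
  rw [prod_congr rfl (fun e _ => h2 e), prod_ite, prod_const_one, one_mul, prod_const]
  congr 1
  have h3 : univ.filter (fun e => e ∉ G) = Gᶜ := by
    ext e
    simp
  rw [h3, card_compl]

theorem card_event {E Λ : Type} [Fintype E] [DecidableEq E] [Fintype Λ] [DecidableEq Λ]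
    [Nonempty Λ] (u : E → Λ) (A : Finset E → Prop) :
    ((univ.filter (fun y : E → Λ => A (univ.filter (fun e => y e = u e)))).card : ℝ) =
      pr (1 / (Fintype.card Λ : ℝ)) A * (Fintype.card Λ : ℝ) ^ Fintype.card E := by
  have hq : 0 < Fintype.card Λ := Fintype.card_pos
  have hq' : (Fintype.card Λ : ℝ) ≠ 0 := Nat.cast_ne_zero.2 hq.ne'
  rw [card_eq_sum_card_fiberwise (f := fun y : E → Λ => univ.filter (fun e => y e = u e))
    (t := (univ : Finset (Finset E))) (fun _ _ => mem_coe.2 (mem_univ _))]
  rw [Nat.cast_sum, pr, sum_mul]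
  refine sum_congr rfl fun G _ => ?_
  rw [filter_filter]
  by_cases hG : A G
  · rw [if_pos hG]
    have h1 : univ.filter (fun y : E → Λ => A (univ.filter (fun e => y e = u e)) ∧
        univ.filter (fun e => y e = u e) = G) =
        univ.filter (fun y : E → Λ => univ.filter (fun e => y e = u e) = G) := by
      apply filter_congr
      intro y _
      constructor
      · exact fun h => h.2
      · intro h
        exact ⟨by rw [h]; exact hG, h⟩
    rw [h1, card_fibre, Nat.cast_pow, Nat.cast_sub hq, Nat.cast_one]
    have h2 : G.card ≤ Fintype.card E := card_le_univ G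
    have h3 : (Fintype.card Λ : ℝ) ^ Fintype.card E =
        (Fintype.card Λ : ℝ) ^ G.card * (Fintype.card Λ : ℝ) ^ (Fintype.card E - G.card) := by
      rw [← pow_add, Nat.add_sub_cancel' h2]
    rw [h3]
    have h4 : (1 / (Fintype.card Λ : ℝ)) ^ G.card *
        (1 - 1 / (Fintype.card Λ : ℝ)) ^ (Fintype.card E - G.card) *
        ((Fintype.card Λ : ℝ) ^ G.card * (Fintype.card Λ : ℝ) ^ (Fintype.card E - G.card)) =
        (1 / (Fintype.card Λ : ℝ) * (Fintype.card Λ : ℝ)) ^ G.card *
        ((1 - 1 / (Fintype.card Λ : ℝ)) * (Fintype.card Λ : ℝ)) ^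
          (Fintype.card E - G.card) := by
      rw [mul_pow, mul_pow]
      ring
    rw [h4, one_div, inv_mul_cancel₀ hq', one_pow, one_mul, sub_mul, inv_mul_cancel₀ hq', one_mul]
  · rw [if_neg hG, zero_mul]
    rw [Nat.cast_eq_zero, card_eq_zero, filter_eq_empty_iff]
    rintro y - ⟨h1, h2⟩
    rw [h2] at h1
    exact hG h1

end Pool.H66.RZ
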