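import Pool.Agent.H66.RZ.Defs

/-!
Module Core (about 60 lines).  A family of functions on the block set `S` with too large a link has a
core with a spread link.

PROOF.  Consider the subsets `Z ⊆ S` for which there is `z` with
`κ^(|S| - |Z|) < #{a ∈ 𝒜 : a = z on Z}`; there is one by `hA`.  Take one of maximal cardinality
(`Finset.exists_max_image` or `exists_maximal`), with its `z`, and put `L = {a ∈ 𝒜 : a = z on Z}`.
`Z ≠ S`: if `Z = S` then all `a ∈ L` agree on `S` (with `z`) and outside of `S` (with `a₀`), so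
`|L| ≤ 1 = κ^0`, a contradiction.  For nonempty `T ⊆ S \ Z` and any `b`, the set
`{a ∈ L : a = b on T}` is contained in `{a ∈ 𝒜 : a = z' on Z ∪ T}` with `z' = b` on `T`, `z` elsewhere;
by maximality its cardinality is at most `κ^(|S| - |Z| - |T|)`, and times `κ^|T|` this is
`κ^(|S|-|Z|) < |L|`.  For `T = ∅` the claim is `|L| * 1 ≤ |L|`.  `2 ≤ |L|` since
`|L| > κ^(..) ≥ 1`.
-/

namespace Pool.H66.RZ

open Finset
open scoped Classical

theorem exists_core {B : Type} [Fintype B] [DecidableEq B] {m : ℕ} (κ : ℕ) (hκ : 1 ≤ κ)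
    (a₀ : Fin m) (S : Finset B) (𝒜 : Finset (B → Fin m)) (hS : ∀ a ∈ 𝒜, ∀ i, i ∉ S → a i = a₀)
    (hA : ∃ T ⊆ S, ∃ z : B → Fin m,
      κ ^ (S.card - T.card) < (𝒜.filter (fun a => ∀ i ∈ T, a i = z i)).card) :
    ∃ Z : Finset B, Z ⊆ S ∧ Z ≠ S ∧ ∃ z : B → Fin m,
      2 ≤ (𝒜.filter (fun a => ∀ i ∈ Z, a i = z i)).card ∧
      ∀ T : Finset B, T ⊆ S \ Z → ∀ b : B → Fin m,
        ((𝒜.filter (fun a => ∀ i ∈ Z, a i = z i)).filter (fun a => ∀ i ∈ T, a i = b i)).card *
          κ ^ T.card ≤ (𝒜.filter (fun a => ∀ i ∈ Z, a i = z i)).card := by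
  classical
  have hne : (S.powerset.filter (fun Z => ∃ z : B → Fin m,
      κ ^ (S.card - Z.card) < (𝒜.filter (fun a => ∀ i ∈ Z, a i = z i)).card)).Nonempty := by
    obtain ⟨T, hT, z, hz⟩ := hA
    exact ⟨T, mem_filter.2 ⟨mem_powerset.2 hT, z, hz⟩⟩
  obtain ⟨Z, hZ, hmax⟩ := exists_max_image _ Finset.card hne
  rw [mem_filter, mem_powerset] at hZ
  obtain ⟨hZS, z, hz⟩ := hZ
  have hpow : 1 ≤ κ ^ (S.card - Z.card) := Nat.one_le_pow _ _ hκ
  refine ⟨Z, hZS, ?_, z, by omega, ?_⟩
  · rintro rfl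
    have h1 : (𝒜.filter (fun a => ∀ i ∈ Z, a i = z i)).card ≤ 1 := by
      rw [card_le_one]
      intro a ha b hb
      rw [mem_filter] at ha hb
      funext i
      by_cases hi : i ∈ Z
      · rw [ha.2 i hi, hb.2 i hi]
      · rw [hS a ha.1 i hi, hS b hb.1 i hi]
    omega
  · intro T hT b
    by_cases hT0 : T = ∅
    · subst hT0
      rw [card_empty, pow_zero, mul_one]
      exact card_le_card (filter_subset _ _)
    · have hdisj : Disjoint Z T := by
        rw [disjoint_right]
        intro x hx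
        exact (mem_sdiff.1 (hT hx)).2
      have hcard : (Z ∪ T).card = Z.card + T.card := card_union_of_disjoint hdisj
      have hZT : Z ∪ T ⊆ S := union_subset hZS fun x hx => (mem_sdiff.1 (hT hx)).1
      have hTpos : 0 < T.card := card_pos.2 (nonempty_iff_ne_empty.2 hT0)
      have h3 : (𝒜.filter (fun a => ∀ i ∈ Z ∪ T, a i = if i ∈ T then b i else z i)).card ≤
          κ ^ (S.card - (Z ∪ T).card) := by
        by_contra hcon
        have h5 := hmax (Z ∪ T) (mem_filter.2 ⟨mem_powerset.2 hZT,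
          fun i => if i ∈ T then b i else z i, not_le.1 hcon⟩)
        omega
      have h4 : ((𝒜.filter (fun a => ∀ i ∈ Z, a i = z i)).filter
          (fun a => ∀ i ∈ T, a i = b i)).card ≤ κ ^ (S.card - (Z ∪ T).card) := by
        refine (card_le_card ?_).trans h3
        intro a ha
        rw [mem_filter, mem_filter] at ha
        rw [mem_filter]
        refine ⟨ha.1.1, fun i hi => ?_⟩
        by_cases hiT : i ∈ T
        · rw [if_pos hiT, ha.2 i hiT]
        · rw [if_neg hiT]
          rcases mem_union.1 hi with h | h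
          · exact ha.1.2 i h
          · exact absurd h hiT
      have hle : (Z ∪ T).card ≤ S.card := card_le_card hZT
      calc _ ≤ κ ^ (S.card - (Z ∪ T).card) * κ ^ T.card := Nat.mul_le_mul_right _ h4
        _ = κ ^ (S.card - Z.card) := by
            rw [← pow_add]
            congr 1
            omega
        _ ≤ _ := hz.le

end Pool.H66.RZ
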