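import Mathlib

/-!
MP_62e2f2_lc: Khot's d-to-1 games against monotone circuits.  Definitions.

* `LabelCover`, `LabelCover.value`: the problem's instances and their value.
* `MonotoneCircuit`: monotone Boolean circuits as straight line programs.
* `LabelCover.enc`: an instance on `N + N` vertices as a Boolean vector, one bit for every possible
  constraint `(v, w, map)`.
* `Separates`: the circuit outputs `false` on satisfiable instances and `true` on instances of value
  less than `ε`.
-/

namespace Pool.H66.RZ

open Finset
open scoped Classical

/-- A d-to-1 Label Cover instance on the bipartite graph with parts `V`, `W` and edge set `E`,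
with left labels `Fin R` and right labels `Fin (d * R)`: the map `π e` of an edge `e` sends right
labels to left labels, and every left label has at most `d` preimages under it. -/
structure LabelCover (V W : Type) (d R : ℕ) where
  E : Finset (V × W)
  π : V × W → Fin (d * R) → Fin R
  dto1 : ∀ e ∈ E, ∀ a : Fin R, (Finset.univ.filter (fun b => π e b = a)).card ≤ d

noncomputable section

/-- The value: the maximum over all labellings of the fraction of satisfied edges. -/
def LabelCover.value {V W : Type} {d R : ℕ} (Φ : LabelCover V W d R) : ℝ :=
  ⨆ fg : (V → Fin R) × (W → Fin (d * R)),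
    ((Φ.E.filter (fun e => Φ.π e (fg.2 e.2) = fg.1 e.1)).card : ℝ) / (Φ.E.card : ℝ)

/-- A pebbling: an assignment of labels to some of the vertices. -/
abbrev Pebbling (V W : Type) (d R : ℕ) : Type := (V → Option (Fin R)) × (W → Option (Fin (d * R)))

/-- The number of labelled vertices of a pebbling. -/
def psize {V W : Type} [Fintype V] [Fintype W] {d R : ℕ} (p : Pebbling V W d R) : ℕ :=
  (Finset.univ.filter (fun v => (p.1 v).isSome)).card +
    (Finset.univ.filter (fun w => (p.2 w).isSome)).card

/-- The pebbling `p'` extends the pebbling `p`. -/
def Extends {V W : Type} {d R : ℕ} (p p' : Pebbling V W d R) : Prop :=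
  (∀ v a, p.1 v = some a → p'.1 v = some a) ∧ (∀ w b, p.2 w = some b → p'.2 w = some b)

/-- The pebbling violates no constraint of `Φ`. -/
def LabelCover.Respects {V W : Type} {d R : ℕ} (Φ : LabelCover V W d R) (p : Pebbling V W d R) :
    Prop :=
  ∀ e ∈ Φ.E, ∀ a b, p.1 e.1 = some a → p.2 e.2 = some b → Φ.π e b = a

/-- `Φ` passes the `k`-consistency test (Duplicator wins the existential `k`-pebble game). -/
def LabelCover.LocallyConsistent {V W : Type} [Fintype V] [Fintype W] {d R : ℕ}
    (Φ : LabelCover V W d R) (k : ℕ) : Prop :=
  ∃ F : Set (Pebbling V W d R), F.Nonempty ∧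
    (∀ p ∈ F, psize p ≤ k ∧ Φ.Respects p) ∧
    (∀ p ∈ F, ∀ p', Extends p' p → p' ∈ F) ∧
    (∀ p ∈ F, psize p < k →
      (∀ v, ∃ p' ∈ F, Extends p p' ∧ (p'.1 v).isSome) ∧
      (∀ w, ∃ p' ∈ F, Extends p p' ∧ (p'.2 w).isSome))

end

/-! ### Monotone circuits -/

/-- A wire of a monotone circuit: a constant, an input variable, or the value of an earlier gate
(gates are numbered from `0`). -/
inductive Wire (ι : Type) : Type where
  | const (b : Bool)
  | input (i : ι)
  | gate (j : ℕ)

/-- A gate: the AND (if `conj = true`) or the OR (if `conj = false`) of two wires. -/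
structure Gate (ι : Type) : Type where
  conj : Bool
  left : Wire ι
  right : Wire ι

/-- A monotone Boolean circuit over the input variables `ι`: a list of gates, each of which may use
the input variables, the constants and the earlier gates, and an output wire. -/
structure MonotoneCircuit (ι : Type) : Type where
  gates : List (Gate ι)
  out : Wire ι

/-- The value of a wire, given the values of the input variables and of the earlier gates
(a reference to a gate which does not exist yet has the value `false`). -/
def Wire.val {ι : Type} (x : ι → Bool) (vals : List Bool) : Wire ι → Bool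
  | .const b => b
  | .input i => x i
  | .gate j => vals.getD j false

/-- The value of a gate. -/
def Gate.val {ι : Type} (x : ι → Bool) (vals : List Bool) (g : Gate ι) : Bool :=
  if g.conj then g.left.val x vals && g.right.val x vals
  else g.left.val x vals || g.right.val x vals

/-- Running a list of gates: `vals` are the values of the gates already evaluated. -/
def run {ι : Type} (x : ι → Bool) : List (Gate ι) → List Bool → List Bool
  | [], vals => vals
  | g :: gs, vals => run x gs (vals ++ [g.val x vals])

/-- The output of a monotone circuit on the input `x`. -/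
def MonotoneCircuit.eval {ι : Type} (C : MonotoneCircuit ι) (x : ι → Bool) : Bool :=
  C.out.val x (run x C.gates [])

/-- The size of a circuit: its number of gates. -/
def MonotoneCircuit.size {ι : Type} (C : MonotoneCircuit ι) : ℕ := C.gates.length

/-! ### The gap problem -/

/-- The input variables for instances with `N` left and `N` right vertices: one Boolean variable for
every possible constraint `(v, w, map)`. -/
abbrev Var (N d R : ℕ) : Type := Fin N × Fin N × (Fin (d * R) → Fin R)

/-- The Boolean vector of an instance: the variable `(v, w, τ)` is true if and only if `(v, w)` is an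
edge of the instance and its map is `τ`. -/
noncomputable def LabelCover.enc {N d R : ℕ} (Φ : LabelCover (Fin N) (Fin N) d R) :
    Var N d R → Bool :=
  fun t => decide ((t.1, t.2.1) ∈ Φ.E ∧ Φ.π (t.1, t.2.1) = t.2.2)

/-- The circuit separates the satisfiable instances (value `1`, output `false`) from the instances
of value less than `ε` (output `true`), for instances with `N` left and `N` right vertices. -/
def Separates {N d R : ℕ} (C : MonotoneCircuit (Var N d R)) (ε : ℝ) : Prop :=
  (∀ Φ : LabelCover (Fin N) (Fin N) d R, Φ.E.Nonempty → Φ.value = 1 → C.eval Φ.enc = false) ∧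
  (∀ Φ : LabelCover (Fin N) (Fin N) d R, Φ.E.Nonempty → Φ.value < ε → C.eval Φ.enc = true)

/-! ### Abstract form of a winning strategy of Duplicator -/

/-- A strategy of Duplicator in the existential `k`-pebble game on the set `B` of vertices with
labels `Fin q`: `ok S f` says that the restriction of the labelling `f` to the set `S` belongs to
the strategy. -/
structure Game (B : Type) [DecidableEq B] (q k : ℕ) where
  ok : Finset B → (B → Fin q) → Prop
  congr : ∀ S f g, (∀ i ∈ S, f i = g i) → ok S f → ok S g
  mono : ∀ S T f, S ⊆ T → ok T f → ok S f
  empty : ∀ f, ok ∅ f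
  ext : ∀ S T f, S ⊆ T → T.card ≤ k → ok S f → ∃ g, (∀ i ∈ S, g i = f i) ∧ ok T g

/-- A term: a set of blocks together with a copy for every block (only the copies of the blocks in
the set matter). -/
abbrev Term (B : Type) (m : ℕ) : Type := Finset B × (B → Fin m)

/-- The placement `x` contains the term `X`. -/
def accP {B : Type} {m : ℕ} (X : Term B m) (x : B → Fin m) : Prop := ∀ i ∈ X.1, x i = X.2 i

/-- The labelling `y` of the copies, restricted to the term `X`, belongs to the strategy. -/
def accN {B : Type} [DecidableEq B] {q k m : ℕ} (H : Game B q k) (X : Term B m)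
    (y : B × Fin m → Fin q) : Prop :=
  H.ok X.1 (fun i => y (i, X.2 i))

/-- A family of normalised terms with at most `l` blocks: outside of its set of blocks the function
of a term has the value `a₀`. -/
def Valid {B : Type} {m : ℕ} (a₀ : Fin m) (l : ℕ) (𝒳 : Finset (Term B m)) : Prop :=
  ∀ X ∈ 𝒳, X.1.card ≤ l ∧ ∀ i, i ∉ X.1 → X.2 i = a₀

/-- For every set `S` of blocks and every partial placement `z` of a subset `T` of `S`, the number of
terms of the family with block set `S` which agree with `z` on `T` is at most `κ^(|S| - |T|)`. -/
def Reduced {B : Type} {m : ℕ} (κ : ℕ) (𝒳 : Finset (Term B m)) : Prop :=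
  ∀ S T : Finset B, T ⊆ S → ∀ z : B → Fin m,
    (𝒳.filter (fun X => X.1 = S ∧ ∀ i ∈ T, X.2 i = z i)).card ≤ κ ^ (S.card - T.card)

/-- Probability of the event `A` for the random subset of `E` containing every element
independently with probability `p`. -/
noncomputable def pr {E : Type} [Fintype E] [DecidableEq E] (p : ℝ) (A : Finset E → Prop) : ℝ :=
  ∑ G : Finset E, if A G then p ^ G.card * (1 - p) ^ (Fintype.card E - G.card) else 0

end Pool.H66.RZ
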