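import Pool.Agent.H66.RZ.Defs

/-!
Module Fam (about 110 lines).  From the `k`-consistency test to an abstract strategy with one label
set `Fin (d * R)` for all vertices.

`B = Fin n ⊕ Fin n` (left vertices `inl`, right vertices `inr`).  A left label is obtained from an
element `b : Fin (d * R)` by `fold b = b mod R` (surjective onto `Fin R`, `0 < d`, `0 < R`).
For a finite set `S` of vertices and `f : B → Fin (d * R)` let `peb S f` be the pebbling with
`(peb S f).1 v = some (fold (f (inl v)))` if `inl v ∈ S`, `none` otherwise, and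
`(peb S f).2 w = some (f (inr w))` if `inr w ∈ S`, `none` otherwise.  Put
`ok S f := peb S f ∈ F` where `F` is the family of the consistency test.
PROOF.  congr: `peb S f = peb S g`.  mono: `Extends (peb S f) (peb T f)` for `S ⊆ T`, closure under
restriction.  empty: `F` is nonempty and the empty pebbling is a restriction of every pebbling.
ext: induction on `|T \ S|`: `psize (peb S f) = |S|`; if `S ≠ T` take `u ∈ T \ S`, extend by the
property of `F` (`|S| < |T| ≤ k`) to a pebbling defined at `u`, restrict it to `insert u S` (closure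
under restriction) and write it as `peb (insert u S) g` with `g = f` on `S` (for `u = inl v` choose
`g u` with `fold (g u) =` the label).
Respecting: if `ok {inl i, inr j} f` and `(i, j) ∈ Φ.E` then `Φ.π (i, j) (f (inr j)) = fold (f (inl i))`.
-/

namespace Pool.H66.RZ

open Finset
open scoped Classical

/-- The left label encoded by an element of `Fin (d * R)`. -/
def fold {d R : ℕ} (hR : 0 < R) (b : Fin (d * R)) : Fin R := ⟨b.val % R, Nat.mod_lt _ hR⟩

private theorem fold_surj {d R : ℕ} (hd : 0 < d) (hR : 0 < R) (a : Fin R) :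
    ∃ b : Fin (d * R), fold hR b = a := by
  have h : a.val < d * R := lt_of_lt_of_le a.isLt (Nat.le_mul_of_pos_left R hd)
  refine ⟨⟨a.val, h⟩, ?_⟩
  unfold fold
  apply Fin.ext
  exact Nat.mod_eq_of_lt a.isLt

/-- the pebbling of a set and a labelling -/
private noncomputable def peb {n d R : ℕ} (hR : 0 < R) (S : Finset (Fin n ⊕ Fin n))
    (f : Fin n ⊕ Fin n → Fin (d * R)) : Pebbling (Fin n) (Fin n) d R :=
  (fun v => if Sum.inl v ∈ S then some (fold hR (f (Sum.inl v))) else none,
    fun w => if Sum.inr w ∈ S then some (f (Sum.inr w)) else none)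

private theorem peb_fst {n d R : ℕ} {hR : 0 < R} {S : Finset (Fin n ⊕ Fin n)}
    {f : Fin n ⊕ Fin n → Fin (d * R)} {v : Fin n} {a : Fin R} :
    (peb hR S f).1 v = some a ↔ Sum.inl v ∈ S ∧ fold hR (f (Sum.inl v)) = a := by
  unfold peb
  simp only
  split_ifs with h
  · rw [Option.some_inj]
    exact ⟨fun h' => ⟨h, h'⟩, fun h' => h'.2⟩
  · exact ⟨fun h' => by simp at h', fun h' => absurd h'.1 h⟩

private theorem peb_snd {n d R : ℕ} {hR : 0 < R} {S : Finset (Fin n ⊕ Fin n)}
    {f : Fin n ⊕ Fin n → Fin (d * R)} {w : Fin n} {b : Fin (d * R)} :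
    (peb hR S f).2 w = some b ↔ Sum.inr w ∈ S ∧ f (Sum.inr w) = b := by
  unfold peb
  simp only
  split_ifs with h
  · rw [Option.some_inj]
    exact ⟨fun h' => ⟨h, h'⟩, fun h' => h'.2⟩
  · exact ⟨fun h' => by simp at h', fun h' => absurd h'.1 h⟩

private theorem psize_peb {n d R : ℕ} (hR : 0 < R) (S : Finset (Fin n ⊕ Fin n))
    (f : Fin n ⊕ Fin n → Fin (d * R)) : psize (peb hR S f) = S.card := by
  have h1 : (Finset.univ.filter (fun v => ((peb hR S f).1 v).isSome)) =
      Finset.univ.filter (fun v : Fin n => (Sum.inl v : Fin n ⊕ Fin n) ∈ S) := by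
    apply Finset.filter_congr
    intro v _
    rw [Option.isSome_iff_exists]
    constructor
    · rintro ⟨a, ha⟩
      exact (peb_fst.1 ha).1
    · intro h
      exact ⟨_, peb_fst.2 ⟨h, rfl⟩⟩
  have h2 : (Finset.univ.filter (fun w => ((peb hR S f).2 w).isSome)) =
      Finset.univ.filter (fun w : Fin n => (Sum.inr w : Fin n ⊕ Fin n) ∈ S) := by
    apply Finset.filter_congr
    intro w _
    rw [Option.isSome_iff_exists]
    constructor
    · rintro ⟨a, ha⟩
      exact (peb_snd.1 ha).1
    · intro h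
      exact ⟨_, peb_snd.2 ⟨h, rfl⟩⟩
  unfold psize
  rw [h1, h2]
  have h3 : S = (Finset.univ.filter (fun v : Fin n => (Sum.inl v : Fin n ⊕ Fin n) ∈ S)).disjSum
      (Finset.univ.filter (fun w : Fin n => (Sum.inr w : Fin n ⊕ Fin n) ∈ S)) := by
    ext x
    rw [Finset.mem_disjSum]
    constructor
    · intro hx
      rcases x with v | w
      · left
        exact ⟨v, by simpa using hx, rfl⟩
      · right
        exact ⟨w, by simpa using hx, rfl⟩
    · rintro (⟨v, hv, rfl⟩ | ⟨w, hw, rfl⟩)
      · simpa using hv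
      · simpa using hw
  conv_rhs => rw [h3]
  rw [Finset.card_disjSum]

theorem exists_game {n d R k : ℕ} (hd : 0 < d) (hR : 0 < R)
    (Φ : LabelCover (Fin n) (Fin n) d R) (hΦ : Φ.LocallyConsistent k) :
    ∃ H : Game (Fin n ⊕ Fin n) (d * R) k, ∀ i j f, (i, j) ∈ Φ.E →
      H.ok {Sum.inl i, Sum.inr j} f → Φ.π (i, j) (f (Sum.inr j)) = fold hR (f (Sum.inl i)) := by
  obtain ⟨F, ⟨p0, hp0⟩, hF1, hF2, hF3⟩ := hΦ
  have hmono : ∀ (S T : Finset (Fin n ⊕ Fin n)) f, S ⊆ T → peb hR T f ∈ F → peb hR S f ∈ F := by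
    intro S T f hST hT
    refine hF2 _ hT _ ⟨?_, ?_⟩
    · intro v a h
      obtain ⟨h1, h2⟩ := peb_fst.1 h
      exact peb_fst.2 ⟨hST h1, h2⟩
    · intro w b h
      obtain ⟨h1, h2⟩ := peb_snd.1 h
      exact peb_snd.2 ⟨hST h1, h2⟩
  have hcongr : ∀ (S : Finset (Fin n ⊕ Fin n)) f g, (∀ i ∈ S, f i = g i) → peb hR S f ∈ F →
      peb hR S g ∈ F := by
    intro S f g hfg hS
    refine hF2 _ hS _ ⟨?_, ?_⟩
    · intro v a h
      obtain ⟨h1, h2⟩ := peb_fst.1 h
      exact peb_fst.2 ⟨h1, by rw [hfg _ h1]; exact h2⟩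
    · intro w b h
      obtain ⟨h1, h2⟩ := peb_snd.1 h
      exact peb_snd.2 ⟨h1, by rw [hfg _ h1]; exact h2⟩
  have hstep : ∀ (S : Finset (Fin n ⊕ Fin n)) (u : Fin n ⊕ Fin n) f, u ∉ S → S.card < k →
      peb hR S f ∈ F → ∃ g, (∀ i ∈ S, g i = f i) ∧ peb hR (insert u S) g ∈ F := by
    intro S u f hu hS hf
    have hps := psize_peb hR S f
    obtain ⟨e1, e2⟩ := hF3 _ hf (by rw [hps]; exact hS)
    rcases u with v | w
    · obtain ⟨p', hp', hext, hsome⟩ := e1 v
      obtain ⟨a, ha⟩ := Option.isSome_iff_exists.1 hsome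
      obtain ⟨b, hb⟩ := fold_surj hd hR a
      refine ⟨Function.update f (Sum.inl v) b, ?_, ?_⟩
      · intro i hi
        rw [Function.update_of_ne]
        rintro rfl
        exact hu hi
      · refine hF2 _ hp' _ ⟨?_, ?_⟩
        · intro v' a' h
          obtain ⟨h1, h2⟩ := peb_fst.1 h
          by_cases hv : v' = v
          · subst hv
            rw [Function.update_self] at h2
            rw [ha, ← h2, hb]
          · have hne : (Sum.inl v' : Fin n ⊕ Fin n) ≠ Sum.inl v := fun h' => hv (Sum.inl.inj h')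
            rw [Function.update_of_ne hne] at h2
            rcases Finset.mem_insert.1 h1 with h3 | h3
            · exact absurd h3 hne
            · exact hext.1 v' a' (peb_fst.2 ⟨h3, h2⟩)
        · intro w' b' h
          obtain ⟨h1, h2⟩ := peb_snd.1 h
          have hne : (Sum.inr w' : Fin n ⊕ Fin n) ≠ Sum.inl v := Sum.inr_ne_inl
          rw [Function.update_of_ne hne] at h2
          rcases Finset.mem_insert.1 h1 with h3 | h3
          · exact absurd h3 hne
          · exact hext.2 w' b' (peb_snd.2 ⟨h3, h2⟩)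
    · obtain ⟨p', hp', hext, hsome⟩ := e2 w
      obtain ⟨b, hb⟩ := Option.isSome_iff_exists.1 hsome
      refine ⟨Function.update f (Sum.inr w) b, ?_, ?_⟩
      · intro i hi
        rw [Function.update_of_ne]
        rintro rfl
        exact hu hi
      · refine hF2 _ hp' _ ⟨?_, ?_⟩
        · intro v' a' h
          obtain ⟨h1, h2⟩ := peb_fst.1 h
          have hne : (Sum.inl v' : Fin n ⊕ Fin n) ≠ Sum.inr w := Sum.inl_ne_inr
          rw [Function.update_of_ne hne] at h2
          rcases Finset.mem_insert.1 h1 with h3 | h3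
          · exact absurd h3 hne
          · exact hext.1 v' a' (peb_fst.2 ⟨h3, h2⟩)
        · intro w' b' h
          obtain ⟨h1, h2⟩ := peb_snd.1 h
          by_cases hv : w' = w
          · subst hv
            rw [Function.update_self] at h2
            rw [hb, h2]
          · have hne : (Sum.inr w' : Fin n ⊕ Fin n) ≠ Sum.inr w := fun h' => hv (Sum.inr.inj h')
            rw [Function.update_of_ne hne] at h2
            rcases Finset.mem_insert.1 h1 with h3 | h3
            · exact absurd h3 hne
            · exact hext.2 w' b' (peb_snd.2 ⟨h3, h2⟩)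
  have hext : ∀ (U S : Finset (Fin n ⊕ Fin n)) f, peb hR S f ∈ F → (S ∪ U).card ≤ k →
      ∃ g, (∀ i ∈ S, g i = f i) ∧ peb hR (S ∪ U) g ∈ F := by
    intro U S f hf
    induction U using Finset.induction_on with
    | empty =>
      intro _
      exact ⟨f, fun _ _ => rfl, by rw [Finset.union_empty]; exact hf⟩
    | insert u U _ ih =>
      intro hc
      have hsub : S ∪ U ⊆ S ∪ insert u U :=
        Finset.union_subset_union_right (Finset.subset_insert u U)
      obtain ⟨g, hg1, hg2⟩ := ih (le_trans (Finset.card_le_card hsub) hc)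
      by_cases hu : u ∈ S ∪ U
      · have : S ∪ insert u U = S ∪ U := by
          rw [Finset.union_insert, Finset.insert_eq_of_mem hu]
        rw [this]
        exact ⟨g, hg1, hg2⟩
      · rw [Finset.union_insert] at hc ⊢
        rw [Finset.card_insert_of_notMem hu] at hc
        obtain ⟨g', h1, h2⟩ := hstep (S ∪ U) u g hu (by omega) hg2
        refine ⟨g', fun i hi => ?_, h2⟩
        rw [h1 i (Finset.mem_union_left _ hi), hg1 i hi]
  refine ⟨Game.mk (fun S f => peb hR S f ∈ F) hcongr hmono ?_ ?_, ?_⟩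
  · intro f
    refine hF2 _ hp0 _ ⟨?_, ?_⟩
    · intro v a h
      exact absurd (peb_fst.1 h).1 (Finset.notMem_empty _)
    · intro w b h
      exact absurd (peb_snd.1 h).1 (Finset.notMem_empty _)
  · intro S T f hST hT hf
    have hu : S ∪ T = T := Finset.union_eq_right.2 hST
    obtain ⟨g, h1, h2⟩ := hext T S f hf (by rw [hu]; exact hT)
    rw [hu] at h2
    exact ⟨g, h1, h2⟩
  · intro i j f hij hok
    refine (hF1 _ hok).2 (i, j) hij (fold hR (f (Sum.inl i))) (f (Sum.inr j)) ?_ ?_
    · exact peb_fst.2 ⟨by simp, rfl⟩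
    · exact peb_snd.2 ⟨by simp, rfl⟩

end Pool.H66.RZ
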