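import Pool.Agent.H66.RZ.Low
import Pool.Agent.H66.RZ.Fam

/-!
Module Inst (about 170 lines).  Planted instances and the lower bound for the gap problem.

`Φ` is an instance on `n + n` vertices with nonempty edge set, value bound (`hval`) and passing the
`k`-consistency test; `τ : Fin n × Fin m → Fin N` is an injection (both sides use the same one).
Positive instance of `x : Fin n ⊕ Fin n → Fin m`: edges `(τ (i, x (inl i)), τ (j, x (inr j)))` for
`(i, j) ∈ Φ.E` with map `Φ.π (i, j)`.
Negative instance of `y : (Fin n ⊕ Fin n) × Fin m → Fin (d * R)`: edges `(τ (i, a), τ (j, c))` for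
`(i, j) ∈ Φ.E`, `a c : Fin m` with `Φ.π (i, j) (y (inr j, c)) = fold (y (inl i, a))`, map `Φ.π (i, j)`.
In both cases the map of a pair `(v, w)` is `Φ.π` of the first coordinates of the `τ`-preimages
(any map if `v` or `w` is not in the range of `τ`).

PROOF.  The positive instance has value less than `ε`: a labelling `(f, g)` of it pulls back to the
labelling `(fun i => f (τ (i, x (inl i))), fun j => g (τ (j, x (inr j))))` of `Φ`, the edge map
`(i, j) ↦ (τ .., τ ..)` is injective and preserves satisfaction, so the fraction of satisfied edges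
is the same, less than `ε` by `hval`; the supremum in `value` is over a finite nonempty type, hence
attained (`exists_eq_ciSup_of_finite`), as in the proof of `result` in
`Pool/Agent/Results/MP_62e2f2_lc/LinearWidthGap.lean`.
The negative instance is satisfied by the labelling `v = τ (i, a) ↦ fold (y (inl i, a))`,
`w = τ (j, c) ↦ y (inr j, c)` (arbitrary outside of the range), so its value is `1` if it has an
edge (`value ≤ 1` always: every fraction is at most `1`).  If it has no edge its encoding is the zero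
vector, which is below the encoding of a satisfiable instance with one edge (take one edge of `Φ`,
`τ` of it, and its map; satisfied by any label of the right vertex and its image); monotone circuits
are monotone (`eval_mono` below), so the output is `false` also in this case.
Then apply `circuit_low` with `B = Fin n ⊕ Fin n`, `q = d * R`, `ι = Var N d R`,
`live (v, w, σ) = some ((inl i, a), (inr j, c))` if there is `(i, j) ∈ Φ.E` and `a`, `c` with
`v = τ (i, a)`, `w = τ (j, c)`, `σ = Φ.π (i, j)` (they are unique), `none` otherwise;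
`ρ (v, w, σ) b b' := σ b' = fold b`.
-/

namespace Pool.H66.RZ

open Finset
open scoped Classical

/-- pointwise comparison of lists of values -/
private def LeL (l l' : List Bool) : Prop :=
  l.length = l'.length ∧ ∀ j, l.getD j false = true → l'.getD j false = true

private theorem wire_mono {ι : Type} {x x' : ι → Bool} (h : ∀ i, x i = true → x' i = true)
    {l l' : List Bool} (hl : LeL l l') (w : Wire ι) : w.val x l = true → w.val x' l' = true := by
  cases w with
  | const b => exact fun hb => hb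
  | input i => exact h i
  | gate j => exact hl.2 j

private theorem gate_mono {ι : Type} {x x' : ι → Bool} (h : ∀ i, x i = true → x' i = true)
    {l l' : List Bool} (hl : LeL l l') (g : Gate ι) : g.val x l = true → g.val x' l' = true := by
  unfold Gate.val
  have h1 := wire_mono h hl g.left
  have h2 := wire_mono h hl g.right
  split_ifs with hc
  · rw [Bool.and_eq_true, Bool.and_eq_true]
    exact fun h3 => ⟨h1 h3.1, h2 h3.2⟩
  · rw [Bool.or_eq_true, Bool.or_eq_true]
    exact fun h3 => h3.imp h1 h2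

private theorem run_mono {ι : Type} {x x' : ι → Bool} (h : ∀ i, x i = true → x' i = true)
    (gs : List (Gate ι)) : ∀ l l' : List Bool, LeL l l' → LeL (run x gs l) (run x' gs l') := by
  induction gs with
  | nil => exact fun l l' hl => hl
  | cons g gs ih =>
    intro l l' hl
    apply ih
    refine ⟨?_, ?_⟩
    · rw [List.length_append, List.length_append, hl.1]
      rfl
    · intro j
      rcases lt_trichotomy j l.length with hj | hj | hj
      · rw [List.getD_append _ _ _ _ hj, List.getD_append _ _ _ _ (hl.1 ▸ hj)]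
        exact hl.2 j
      · subst hj
        rw [List.getD_append_right _ _ _ _ le_rfl, List.getD_append_right _ _ _ _ (le_of_eq hl.1.symm),
          hl.1, Nat.sub_self]
        exact gate_mono h hl g
      · rw [List.getD_eq_default]
        · intro h3
          exact absurd h3 (by simp)
        · rw [List.length_append, List.length_singleton]
          omega

/-- Monotone circuits compute monotone functions. -/
theorem eval_mono {ι : Type} (C : MonotoneCircuit ι) (x x' : ι → Bool)
    (h : ∀ i, x i = true → x' i = true) : C.eval x = true → C.eval x' = true := by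
  unfold MonotoneCircuit.eval
  exact wire_mono h (run_mono h C.gates [] [] ⟨rfl, fun j hj => hj⟩) C.out

/-- planted instance with the edge set `E'` -/
private noncomputable def plant {n N d R m : ℕ} (Φ : LabelCover (Fin n) (Fin n) d R)
    (dec : Fin N → Fin n × Fin m) (E' : Finset (Fin N × Fin N))
    (h : ∀ e ∈ E', ((dec e.1).1, (dec e.2).1) ∈ Φ.E) : LabelCover (Fin N) (Fin N) d R where
  E := E'
  π e := Φ.π ((dec e.1).1, (dec e.2).1)
  dto1 e he a := Φ.dto1 _ (h e he) a

private theorem value_eq_one {N d R : ℕ} (Ψ : LabelCover (Fin N) (Fin N) d R) (hE : Ψ.E.Nonempty)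
    (f : Fin N → Fin R) (g : Fin N → Fin (d * R)) (h : ∀ e ∈ Ψ.E, Ψ.π e (g e.2) = f e.1) :
    Ψ.value = 1 := by
  have hpos : (0 : ℝ) < Ψ.E.card := by exact_mod_cast hE.card_pos
  have hle : ∀ fg : (Fin N → Fin R) × (Fin N → Fin (d * R)),
      ((Ψ.E.filter (fun e => Ψ.π e (fg.2 e.2) = fg.1 e.1)).card : ℝ) / (Ψ.E.card : ℝ) ≤ 1 := by
    intro fg
    rw [div_le_one hpos]
    exact_mod_cast card_filter_le _ _
  have : Nonempty ((Fin N → Fin R) × (Fin N → Fin (d * R))) := ⟨(f, g)⟩
  apply le_antisymm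
  · exact ciSup_le hle
  · unfold LabelCover.value
    refine le_ciSup_of_le ⟨1, ?_⟩ (f, g) ?_
    · rintro _ ⟨fg, rfl⟩
      exact hle fg
    · rw [filter_true_of_mem h, div_self hpos.ne']

theorem inst_low {n N d R k m l t κ : ℕ} (hd : 0 < d) (hR : 0 < R) (hm : 0 < m) (ht : 0 < t)
    (hl : 2 ≤ l) (hlk : l ≤ k) (hκ0 : 0 < κ) (hκ : 4 * l * (d * R) * t ≤ κ)
    (Φ : LabelCover (Fin n) (Fin n) d R) (hE : Φ.E.Nonempty) (ε : ℝ)
    (hval : ∀ (f : Fin n → Fin R) (g : Fin n → Fin (d * R)),
      ((Φ.E.filter (fun e => Φ.π e (g e.2) = f e.1)).card : ℝ) < ε * Φ.E.card)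
    (hΦ : Φ.LocallyConsistent k) (hN : n * m ≤ N)
    (C : MonotoneCircuit (Var N d R)) (hC : Separates C ε) :
    1 ≤ C.size * ∑ s ∈ Finset.Icc (l + 1) (2 * l),
        (3 : ℝ) ^ s * ((n + n).choose s : ℝ) * ((κ : ℝ) / m) ^ s ∨
      (2 : ℝ) ^ t ≤ 2 * C.size * ((((n + n + 1) * κ : ℕ) : ℝ) ^ l) ^ 2 *
        ((d * R : ℕ) : ℝ) ^ (2 * l) := by
  obtain ⟨e₀, he₀⟩ := hE
  have hdR : 0 < d * R := Nat.mul_pos hd hR
  obtain ⟨τ⟩ : Nonempty (Fin n × Fin m ↪ Fin N) := by
    apply Function.Embedding.nonempty_of_card_le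
    rw [Fintype.card_prod, Fintype.card_fin, Fintype.card_fin, Fintype.card_fin]
    exact hN
  have hne0 : Nonempty (Fin n × Fin m) := ⟨(e₀.1, ⟨0, hm⟩)⟩
  obtain ⟨dec, hdec⟩ : ∃ dec : Fin N → Fin n × Fin m, ∀ p, dec (τ p) = p :=
    ⟨Function.invFun τ, Function.leftInverse_invFun τ.injective⟩
  obtain ⟨H, hH⟩ := exists_game hd hR Φ hΦ
  have hNR : Nonempty (Fin R) := ⟨⟨0, hR⟩⟩
  have hNdR : Nonempty (Fin (d * R)) := ⟨⟨0, hdR⟩⟩
  -- positive instances
  let mp : (Fin n ⊕ Fin n → Fin m) → Fin n × Fin n → Fin N × Fin N := fun x e =>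
    (τ (e.1, x (Sum.inl e.1)), τ (e.2, x (Sum.inr e.2)))
  have hmpinj : ∀ x, Function.Injective (mp x) := by
    intro x e e' h
    have h1 : τ (e.1, x (Sum.inl e.1)) = τ (e'.1, x (Sum.inl e'.1)) := congrArg Prod.fst h
    have h2 : τ (e.2, x (Sum.inr e.2)) = τ (e'.2, x (Sum.inr e'.2)) := congrArg Prod.snd h
    have h3 := congrArg Prod.fst (τ.injective h1)
    have h4 := congrArg Prod.fst (τ.injective h2)
    exact Prod.ext h3 h4
  have hdmp : ∀ x e, ((dec (mp x e).1).1, (dec (mp x e).2).1) = e := by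
    intro x e
    change ((dec (τ (e.1, x (Sum.inl e.1)))).1, (dec (τ (e.2, x (Sum.inr e.2)))).1) = e
    rw [hdec, hdec]
  have hPE : ∀ x, ∀ e ∈ Φ.E.image (mp x), ((dec e.1).1, (dec e.2).1) ∈ Φ.E := by
    intro x e he
    obtain ⟨e', he', rfl⟩ := mem_image.1 he
    rw [hdmp]
    exact he'
  let Pos : (Fin n ⊕ Fin n → Fin m) → LabelCover (Fin N) (Fin N) d R := fun x =>
    plant Φ dec (Φ.E.image (mp x)) (hPE x)
  have hPosval : ∀ x, (Pos x).value < ε := by
    intro x
    unfold LabelCover.value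
    obtain ⟨fg, hfg⟩ := exists_eq_ciSup_of_finite
      (f := fun fg : (Fin N → Fin R) × (Fin N → Fin (d * R)) =>
        (((Pos x).E.filter (fun e => (Pos x).π e (fg.2 e.2) = fg.1 e.1)).card : ℝ) /
          ((Pos x).E.card : ℝ))
    rw [← hfg]
    have hcE : (Pos x).E.card = Φ.E.card := card_image_of_injective _ (hmpinj x)
    have hpos : (0 : ℝ) < (Pos x).E.card := by
      rw [hcE]
      exact_mod_cast card_pos.2 ⟨e₀, he₀⟩
    rw [div_lt_iff₀ hpos, hcE]
    refine lt_of_le_of_lt ?_ (hval (fun i => fg.1 (τ (i, x (Sum.inl i))))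
      (fun j => fg.2 (τ (j, x (Sum.inr j)))))
    rw [Nat.cast_le]
    have hsub : (Pos x).E.filter (fun e => (Pos x).π e (fg.2 e.2) = fg.1 e.1) ⊆
        (Φ.E.filter (fun e => Φ.π e (fg.2 (τ (e.2, x (Sum.inr e.2)))) =
          fg.1 (τ (e.1, x (Sum.inl e.1))))).image (mp x) := by
      intro e he
      rw [mem_filter] at he
      obtain ⟨e', he', rfl⟩ := mem_image.1 he.1
      refine mem_image_of_mem _ (mem_filter.2 ⟨he', ?_⟩)
      have h5 : Φ.π ((dec (mp x e').1).1, (dec (mp x e').2).1) (fg.2 (mp x e').2) =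
        fg.1 (mp x e').1 := he.2
      rw [hdmp] at h5
      exact h5
    exact (card_le_card hsub).trans card_image_le
  -- negative instances
  let lab : ((Fin n ⊕ Fin n) × Fin m → Fin (d * R)) → Fin N → Fin R := fun y v =>
    fold hR (y (Sum.inl (dec v).1, (dec v).2))
  let rab : ((Fin n ⊕ Fin n) × Fin m → Fin (d * R)) → Fin N → Fin (d * R) := fun y w =>
    y (Sum.inr (dec w).1, (dec w).2)
  let EN : ((Fin n ⊕ Fin n) × Fin m → Fin (d * R)) → Finset (Fin N × Fin N) := fun y =>
    univ.filter (fun e => (τ (dec e.1) = e.1 ∧ τ (dec e.2) = e.2) ∧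
      ((dec e.1).1, (dec e.2).1) ∈ Φ.E ∧
      Φ.π ((dec e.1).1, (dec e.2).1) (rab y e.2) = lab y e.1)
  have hENmem : ∀ y e, e ∈ EN y ↔ (τ (dec e.1) = e.1 ∧ τ (dec e.2) = e.2) ∧
      ((dec e.1).1, (dec e.2).1) ∈ Φ.E ∧
      Φ.π ((dec e.1).1, (dec e.2).1) (rab y e.2) = lab y e.1 := by
    intro y e
    simp only [EN, mem_filter, mem_univ, true_and]
  have hNE : ∀ y, ∀ e ∈ EN y, ((dec e.1).1, (dec e.2).1) ∈ Φ.E := fun y e he =>
    ((hENmem y e).1 he).2.1
  let Neg : ((Fin n ⊕ Fin n) × Fin m → Fin (d * R)) → LabelCover (Fin N) (Fin N) d R := fun y =>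
    plant Φ dec (EN y) (hNE y)
  have hNegval : ∀ y, (EN y).Nonempty → (Neg y).value = 1 := by
    intro y hy
    refine value_eq_one (Neg y) hy (lab y) (rab y) ?_
    intro e he
    exact ((hENmem y e).1 he).2.2
  have hNegeval : ∀ y, (EN y).Nonempty → C.eval (Neg y).enc = false := fun y hy =>
    hC.1 (Neg y) hy (hNegval y hy)
  -- a satisfiable instance with an edge
  obtain ⟨y₁, hy₁⟩ : ∃ y, (EN y).Nonempty := by
    let b : Fin (d * R) := ⟨0, hdR⟩
    have hlt : (Φ.π e₀ b).val < d * R :=
      lt_of_lt_of_le (Φ.π e₀ b).isLt (Nat.le_mul_of_pos_left R hd)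
    let b' : Fin (d * R) := ⟨(Φ.π e₀ b).val, hlt⟩
    have hb' : fold hR b' = Φ.π e₀ b := by
      apply Fin.ext
      exact Nat.mod_eq_of_lt (Φ.π e₀ b).isLt
    let y : (Fin n ⊕ Fin n) × Fin m → Fin (d * R) := fun p =>
      match p.1 with
      | Sum.inl _ => b'
      | Sum.inr _ => b
    have hy : ∀ p q : Fin n × Fin m, (p.1, q.1) = e₀ → (τ p, τ q) ∈ EN y := by
      intro p q hpq
      refine (hENmem y (τ p, τ q)).2 ?_
      have h1 : dec (τ p) = p := hdec p
      have h2 : dec (τ q) = q := hdec q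
      refine ⟨⟨congrArg τ h1, congrArg τ h2⟩, ?_, ?_⟩
      · change ((dec (τ p)).1, (dec (τ q)).1) ∈ Φ.E
        rw [h1, h2, hpq]
        exact he₀
      · change Φ.π ((dec (τ p)).1, (dec (τ q)).1) b = fold hR b'
        rw [h1, h2, hpq, hb']
    exact ⟨y, _, hy (e₀.1, ⟨0, hm⟩) (e₀.2, ⟨0, hm⟩) rfl⟩
  have hNegall : ∀ y, C.eval (Neg y).enc = false := by
    intro y
    by_cases hy : (EN y).Nonempty
    · exact hNegeval y hy
    · by_contra hcon
      have h1 : C.eval (Neg y).enc = true := by
        cases h2 : C.eval (Neg y).enc with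
        | true => rfl
        | false => exact absurd h2 hcon
      have h3 : C.eval (Neg y₁).enc = true := by
        refine eval_mono C _ _ ?_ h1
        intro i hi
        exfalso
        have h4 : (i.1, i.2.1) ∈ EN y ∧ (Neg y).π (i.1, i.2.1) = i.2.2 := by
          unfold LabelCover.enc at hi
          exact of_decide_eq_true hi
        exact hy ⟨_, h4.1⟩
      rw [hNegeval y₁ hy₁] at h3
      exact absurd h3 (by simp)
  -- the live variables
  let good : Var N d R → Prop := fun i => (τ (dec i.1) = i.1 ∧ τ (dec i.2.1) = i.2.1) ∧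
    ((dec i.1).1, (dec i.2.1).1) ∈ Φ.E ∧ Φ.π ((dec i.1).1, (dec i.2.1).1) = i.2.2
  let live : Var N d R → Option (((Fin n ⊕ Fin n) × Fin m) × ((Fin n ⊕ Fin n) × Fin m)) := fun i =>
    if good i then some ((Sum.inl (dec i.1).1, (dec i.1).2), (Sum.inr (dec i.2.1).1, (dec i.2.1).2))
    else none
  have hlive : ∀ i s u, live i = some (s, u) → good i ∧
      s = (Sum.inl (dec i.1).1, (dec i.1).2) ∧ u = (Sum.inr (dec i.2.1).1, (dec i.2.1).2) := by
    intro i s u h
    by_cases hg : good i
    · have h1 : live i = some ((Sum.inl (dec i.1).1, (dec i.1).2),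
        (Sum.inr (dec i.2.1).1, (dec i.2.1).2)) := if_pos hg
      rw [h1, Option.some.injEq, Prod.mk.injEq] at h
      exact ⟨hg, h.1.symm, h.2.symm⟩
    · have h1 : live i = none := if_neg hg
      rw [h1] at h
      exact absurd h (by simp)
  have key := circuit_low (B := Fin n ⊕ Fin n) (q := d * R) hdR hm ht hl hlk hκ0 hκ H live
    (fun i b b' => i.2.2 b' = fold hR b) (fun x => (Pos x).enc) (fun y => (Neg y).enc)
    ?_ ?_ ?_ ?_ C ?_ ?_
  · rw [Fintype.card_sum, Fintype.card_fin] at key
    exact key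
  · intro x i hi
    have h4 : (i.1, i.2.1) ∈ Φ.E.image (mp x) ∧
        Φ.π ((dec i.1).1, (dec i.2.1).1) = i.2.2 := by
      have hi' := hi
      unfold LabelCover.enc at hi'
      exact of_decide_eq_true hi'
    obtain ⟨h5, h6⟩ := h4
    obtain ⟨e, he, h7⟩ := mem_image.1 h5
    have h8 : i.1 = τ (e.1, x (Sum.inl e.1)) := (congrArg Prod.fst h7).symm
    have h9 : i.2.1 = τ (e.2, x (Sum.inr e.2)) := (congrArg Prod.snd h7).symm
    have hg : good i := by
      refine ⟨⟨?_, ?_⟩, ?_, h6⟩
      · rw [h8, hdec]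
      · rw [h9, hdec]
      · rw [h8, h9, hdec, hdec]
        exact he
    refine ⟨_, _, if_pos hg, ?_, ?_⟩
    · change x (Sum.inl (dec i.1).1) = (dec i.1).2
      rw [h8, hdec]
    · change x (Sum.inr (dec i.2.1).1) = (dec i.2.1).2
      rw [h9, hdec]
  · intro y i s u h hρ
    obtain ⟨hg, rfl, rfl⟩ := hlive i s u h
    have h5 : (i.1, i.2.1) ∈ EN y := by
      refine (hENmem y (i.1, i.2.1)).2 ⟨hg.1, hg.2.1, ?_⟩
      change Φ.π ((dec i.1).1, (dec i.2.1).1) _ = _
      rw [hg.2.2]
      exact hρ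
    change (Neg y).enc i = true
    unfold LabelCover.enc
    exact decide_eq_true ⟨h5, hg.2.2⟩
  · intro i s u f h hok
    obtain ⟨hg, rfl, rfl⟩ := hlive i s u h
    have h5 := hH _ _ f hg.2.1 hok
    rw [hg.2.2] at h5
    exact h5
  · intro i s u h
    obtain ⟨hg, rfl, rfl⟩ := hlive i s u h
    exact Sum.inl_ne_inr
  · intro x
    exact hC.2 (Pos x) (Finset.Nonempty.image ⟨e₀, he₀⟩ _) (hPosval x)
  · exact hNegall

end Pool.H66.RZ
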