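import Pool.Agent.H66.RZ.Pluck
import Pool.Agent.H66.RZ.AndCnt

/-!
Module Ops (about 130 lines).  The approximators of OR and AND.

`M = ((b+1) κ)^l ≥ 1`, `b = |B|`, `δ = q^l 2^-t q^(card (B × Fin m))`; a valid reduced family has at
most `M` terms (`card_reduced`).

OR: pluck `𝒳 ∪ 𝒴` (at most `2 M` terms).  No positive is lost; the negatives gained are gained by
the plucking: error at most `2 M δ`.

AND: for `X ∈ 𝒳`, `Y ∈ 𝒴` let `X ⊔ Y = (X.1 ∪ Y.1, c)` with `c i = X.2 i` for `i ∈ X.1`, `Y.2 i` for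
`i ∈ Y.1 \ X.1`, `a₀` otherwise.  Let `𝒵` be the set of the terms `X ⊔ Y` with `|X.1 ∪ Y.1| ≤ l` and
`X.2 = Y.2` on `X.1 ∩ Y.1`; at most `M²` terms, valid.  Pluck it.
Positives: let `x` contain `X` and `Y`.  Then they are compatible and `x` contains `X ⊔ Y`.  If
`|X.1 ∪ Y.1| ≤ l` then `𝒵`, hence the plucked family, accepts `x`.  Otherwise `x` belongs to the set
of `and_loss`.
Negatives: if `y` is accepted by the term `X ⊔ Y ∈ 𝒵` then `H.mono` and `H.congr` show that it is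
accepted by `X` and by `Y` (on `X.1` the function `c` is `X.2`; on `Y.1` it is `Y.2` by
compatibility).  So only the plucking creates errors: at most `M² δ`.
-/

namespace Pool.H66.RZ

open Finset
open scoped Classical

theorem op_or {B : Type} [Fintype B] [DecidableEq B] {q k m l t κ : ℕ} (hq : 0 < q)
    (ht : 0 < t) (hlk : l ≤ k) (hκ0 : 0 < κ) (hκ : 4 * l * q * t ≤ κ) (H : Game B q k)
    (a₀ : Fin m) (𝒳 𝒴 : Finset (Term B m)) (hX : Valid a₀ l 𝒳) (hY : Valid a₀ l 𝒴)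
    (hX2 : Reduced κ 𝒳) (hY2 : Reduced κ 𝒴) :
    ∃ 𝒵 : Finset (Term B m), Valid a₀ l 𝒵 ∧ Reduced κ 𝒵 ∧
      (∀ x, ((∃ X ∈ 𝒳, accP X x) ∨ ∃ X ∈ 𝒴, accP X x) → ∃ X ∈ 𝒵, accP X x) ∧
      ((univ.filter (fun y : B × Fin m → Fin q => (∃ X ∈ 𝒵, accN H X y) ∧
        ¬ ((∃ X ∈ 𝒳, accN H X y) ∨ ∃ X ∈ 𝒴, accN H X y))).card : ℝ) ≤
          2 * (((Fintype.card B + 1) * κ : ℕ) : ℝ) ^ l *
            ((q : ℝ) ^ l * ((1 / 2) ^ t * (q : ℝ) ^ Fintype.card (B × Fin m))) := by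
  have hW : Valid a₀ l (𝒳 ∪ 𝒴) := by
    intro X h
    rcases mem_union.1 h with h | h
    · exact hX X h
    · exact hY X h
  obtain ⟨𝒵, h1, h2, h3, h4⟩ := pluck hq ht hlk hκ0 hκ H a₀ (𝒳 ∪ 𝒴) hW
  refine ⟨𝒵, h1, h2, ?_, ?_⟩
  · rintro x (⟨X, h, h'⟩ | ⟨X, h, h'⟩)
    · exact h3 x ⟨X, mem_union_left _ h, h'⟩
    · exact h3 x ⟨X, mem_union_right _ h, h'⟩
  · have hcX := card_reduced hκ0 a₀ 𝒳 hX hX2
    have hcY := card_reduced hκ0 a₀ 𝒴 hY hY2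
    have hc : ((𝒳 ∪ 𝒴).card : ℝ) ≤ 2 * (((Fintype.card B + 1) * κ : ℕ) : ℝ) ^ l := by
      have h5 := card_union_le 𝒳 𝒴
      have h6 : (𝒳 ∪ 𝒴).card ≤ 2 * ((Fintype.card B + 1) * κ) ^ l := by omega
      exact_mod_cast h6
    have hδ : (0 : ℝ) ≤ (q : ℝ) ^ l * ((1 / 2) ^ t * (q : ℝ) ^ Fintype.card (B × Fin m)) := by
      positivity
    refine le_trans ?_ (le_trans h4 (mul_le_mul_of_nonneg_right hc hδ))
    rw [Nat.cast_le]
    apply card_le_card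
    intro y hy
    rw [mem_filter] at hy ⊢
    refine ⟨mem_univ _, hy.2.1, ?_⟩
    rintro ⟨X, h5, h6⟩
    apply hy.2.2
    rcases mem_union.1 h5 with h7 | h7
    · exact Or.inl ⟨X, h7, h6⟩
    · exact Or.inr ⟨X, h7, h6⟩

/-- the conjunction of two terms -/
noncomputable def joinT {B : Type} [DecidableEq B] {m : ℕ} (a₀ : Fin m) (X Y : Term B m) :
    Term B m :=
  (X.1 ∪ Y.1, fun i => if i ∈ X.1 then X.2 i else if i ∈ Y.1 then Y.2 i else a₀)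

theorem op_and {B : Type} [Fintype B] [DecidableEq B] {q k m l t κ : ℕ} (hq : 0 < q)
    (hm : 0 < m) (ht : 0 < t) (hlk : l ≤ k) (hκ0 : 0 < κ) (hκ : 4 * l * q * t ≤ κ)
    (H : Game B q k) (a₀ : Fin m) (𝒳 𝒴 : Finset (Term B m)) (hX : Valid a₀ l 𝒳)
    (hY : Valid a₀ l 𝒴) (hX2 : Reduced κ 𝒳) (hY2 : Reduced κ 𝒴) :
    ∃ 𝒵 : Finset (Term B m), Valid a₀ l 𝒵 ∧ Reduced κ 𝒵 ∧
      ((univ.filter (fun x : B → Fin m => ((∃ X ∈ 𝒳, accP X x) ∧ ∃ X ∈ 𝒴, accP X x) ∧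
        ¬ ∃ X ∈ 𝒵, accP X x)).card : ℝ) ≤
          (m : ℝ) ^ Fintype.card B * ∑ s ∈ Finset.Icc (l + 1) (2 * l),
            (3 : ℝ) ^ s * ((Fintype.card B).choose s : ℝ) * ((κ : ℝ) / m) ^ s ∧
      ((univ.filter (fun y : B × Fin m → Fin q => (∃ X ∈ 𝒵, accN H X y) ∧
        ¬ ((∃ X ∈ 𝒳, accN H X y) ∧ ∃ X ∈ 𝒴, accN H X y))).card : ℝ) ≤
          ((((Fintype.card B + 1) * κ : ℕ) : ℝ) ^ l) ^ 2 *
            ((q : ℝ) ^ l * ((1 / 2) ^ t * (q : ℝ) ^ Fintype.card (B × Fin m))) := by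
  set 𝒲 : Finset (Term B m) := ((𝒳 ×ˢ 𝒴).filter (fun p => (p.1.1 ∪ p.2.1).card ≤ l ∧
    ∀ i ∈ p.1.1 ∩ p.2.1, p.1.2 i = p.2.2 i)).image (fun p => joinT a₀ p.1 p.2) with hWdef
  have hWmem : ∀ Z, Z ∈ 𝒲 ↔ ∃ X ∈ 𝒳, ∃ Y ∈ 𝒴, (X.1 ∪ Y.1).card ≤ l ∧
      (∀ i ∈ X.1 ∩ Y.1, X.2 i = Y.2 i) ∧ joinT a₀ X Y = Z := by
    intro Z
    rw [hWdef, mem_image]
    constructor
    · rintro ⟨⟨X, Y⟩, h, h'⟩
      rw [mem_filter, mem_product] at h
      exact ⟨X, h.1.1, Y, h.1.2, h.2.1, h.2.2, h'⟩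
    · rintro ⟨X, h1, Y, h2, h3, h4, h5⟩
      refine ⟨(X, Y), ?_, h5⟩
      rw [mem_filter, mem_product]
      exact ⟨⟨h1, h2⟩, h3, h4⟩
  have hW : Valid a₀ l 𝒲 := by
    intro Z hZ
    obtain ⟨X, h1, Y, h2, h3, h4, rfl⟩ := (hWmem Z).1 hZ
    refine ⟨h3, ?_⟩
    intro i hi
    change i ∉ X.1 ∪ Y.1 at hi
    rw [mem_union, not_or] at hi
    change (if i ∈ X.1 then X.2 i else if i ∈ Y.1 then Y.2 i else a₀) = a₀
    rw [if_neg hi.1, if_neg hi.2]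
  obtain ⟨𝒵, h1, h2, h3, h4⟩ := pluck hq ht hlk hκ0 hκ H a₀ 𝒲 hW
  refine ⟨𝒵, h1, h2, ?_, ?_⟩
  · refine le_trans ?_ (and_loss hm a₀ 𝒳 𝒴 hX hY hX2 hY2)
    rw [Nat.cast_le]
    apply card_le_card
    intro x hx
    rw [mem_filter] at hx ⊢
    obtain ⟨-, ⟨⟨X, h5, h5'⟩, Y, h6, h6'⟩, h7⟩ := hx
    refine ⟨mem_univ _, X, h5, Y, h6, h5', h6', ?_⟩
    by_contra h8
    rw [not_lt] at h8
    apply h7
    apply h3 x
    refine ⟨joinT a₀ X Y, (hWmem _).2 ⟨X, h5, Y, h6, h8, ?_, rfl⟩, ?_⟩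
    · intro i hi
      rw [mem_inter] at hi
      rw [← h5' i hi.1, ← h6' i hi.2]
    · intro i hi
      change i ∈ X.1 ∪ Y.1 at hi
      change x i = (if i ∈ X.1 then X.2 i else if i ∈ Y.1 then Y.2 i else a₀)
      by_cases hiX : i ∈ X.1
      · rw [if_pos hiX]
        exact h5' i hiX
      · rw [if_neg hiX]
        rw [mem_union] at hi
        have hiY : i ∈ Y.1 := by tauto
        rw [if_pos hiY]
        exact h6' i hiY
  · have hcX := card_reduced hκ0 a₀ 𝒳 hX hX2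
    have hcY := card_reduced hκ0 a₀ 𝒴 hY hY2
    have hc : (𝒲.card : ℝ) ≤ ((((Fintype.card B + 1) * κ : ℕ) : ℝ) ^ l) ^ 2 := by
      have h5 : 𝒲.card ≤ 𝒳.card * 𝒴.card := by
        refine le_trans card_image_le (le_trans (card_filter_le _ _) ?_)
        rw [card_product]
      have h6 : 𝒲.card ≤ (((Fintype.card B + 1) * κ) ^ l) ^ 2 := by
        refine le_trans h5 ?_
        rw [pow_two]
        exact Nat.mul_le_mul hcX hcY
      exact_mod_cast h6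
    have hδ : (0 : ℝ) ≤ (q : ℝ) ^ l * ((1 / 2) ^ t * (q : ℝ) ^ Fintype.card (B × Fin m)) := by
      positivity
    refine le_trans ?_ (le_trans h4 (mul_le_mul_of_nonneg_right hc hδ))
    rw [Nat.cast_le]
    apply card_le_card
    intro y hy
    rw [mem_filter] at hy ⊢
    refine ⟨mem_univ _, hy.2.1, ?_⟩
    rintro ⟨Z, h5, h6⟩
    apply hy.2.2
    obtain ⟨X, g1, Y, g2, g3, g4, rfl⟩ := (hWmem Z).1 h5
    have h7 : H.ok (X.1 ∪ Y.1) (fun i => y (i, (joinT a₀ X Y).2 i)) := h6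
    refine ⟨⟨X, g1, ?_⟩, Y, g2, ?_⟩
    · refine H.congr _ _ _ ?_ (H.mono _ _ _ subset_union_left h7)
      intro i hi
      change y (i, (if i ∈ X.1 then X.2 i else if i ∈ Y.1 then Y.2 i else a₀)) = y (i, X.2 i)
      rw [if_pos hi]
    · refine H.congr _ _ _ ?_ (H.mono _ _ _ subset_union_right h7)
      intro i hi
      change y (i, (if i ∈ X.1 then X.2 i else if i ∈ Y.1 then Y.2 i else a₀)) = y (i, Y.2 i)
      by_cases hiX : i ∈ X.1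
      · rw [if_pos hiX, g4 i (mem_inter.2 ⟨hiX, hi⟩)]
      · rw [if_neg hiX, if_pos hi]

end Pool.H66.RZ
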