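import Pool.Agent.H66.RZ.Circ
import Pool.Agent.H66.RZ.Ops

/-!
Module Low (about 140 lines).  The lower bound for an abstract strategy.

`live i = some (s, u)` says that the input variable `i` is the constraint between the copies `s`, `u`
(elements of `B × Fin m`) of two different blocks.

PROOF.  Apply `approx_bound` with `P = (B → Fin m)`, `Y = (B × Fin m → Fin q)`,
`A = {𝒳 : Finset (Term B m) // Valid a₀ l 𝒳 ∧ Reduced κ 𝒳}` (`a₀` any element of `Fin m`),
`pos 𝒳 x = ∃ X ∈ 𝒳, accP X x`, `neg 𝒳 y = ∃ X ∈ 𝒳, accN H X y`,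
`α = m^b Σ` (`Σ` the sum over `s` in the statement), `β = 2 M² δ`, `θ = q^(card (B × Fin m)) / q^l`,
where `M = ((b+1) κ)^l ≥ 1`, `δ = q^l 2^-t q^(card (B × Fin m))`.
bot: the empty family; top: the family `{(∅, fun _ => a₀)}` (`H.empty`; one term, reduced).
input `i`: if `live i = none` the empty family; if `live i = some (s, u)` the single term with the
blocks `{s.1, u.1}` and the copies `s.2`, `u.2` (`a₀` elsewhere; `s.1 ≠ u.1`, `2 ≤ l`): `hpx` gives the
positive part; for the negative part `accN` says `H.ok {s.1, u.1} (fun i => y (i, c i))`, and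
`hH` gives `ρ i (y s) (y u)`, hence `ny y i = true` by `hny`.
and, or: `op_and`, `op_or` (`2 M ≤ 2 M²`, `M² ≤ 2 M²`).
final: a nonempty family contains a term `X` with `|X.1| ≤ l`; by `H.ext` (from `∅`) there is `g` with
`H.ok X.1 g`, and every `y` with `y (i, X.2 i) = g i` for `i ∈ X.1` is accepted (`H.congr`); there are
at least `q^(card (B × Fin m) - |X.1|)` such `y`.
Conclusion: `card P = m^b`, so either `m^b ≤ size * m^b Σ`, that is `1 ≤ size * Σ`, or
`q^(..)/q^l ≤ size * 2 M² q^l 2^-t q^(..)`, that is `2^t ≤ 2 size M² q^(2l)`.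
-/

namespace Pool.H66.RZ

open Finset
open scoped Classical

private lemma reduced_empty' {B : Type} {m κ : ℕ} : Reduced κ (∅ : Finset (Term B m)) := by
  intro S T _ z
  simp

private lemma reduced_single {B : Type} {m κ : ℕ} (hκ0 : 0 < κ) (X : Term B m) :
    Reduced κ ({X} : Finset (Term B m)) := by
  intro S T _ z
  refine le_trans (Finset.card_filter_le _ _) ?_
  rw [Finset.card_singleton]
  exact Nat.one_le_pow _ _ hκ0

private lemma count_fix {B : Type} [Fintype B] [DecidableEq B] {q m : ℕ}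
    (S : Finset B) (c : B → Fin m) (g : B → Fin q) :
    q ^ Fintype.card (B × Fin m) ≤
      (univ.filter (fun y : B × Fin m → Fin q => ∀ i ∈ S, y (i, c i) = g i)).card * q ^ S.card := by
  let good : (B × Fin m → Fin q) → Prop := fun y => ∀ i ∈ S, y (i, c i) = g i
  let φ : (B × Fin m → Fin q) → {y : B × Fin m → Fin q // good y} × (S → Fin q) := fun y =>
    (⟨fun p => if p.1 ∈ S ∧ p.2 = c p.1 then g p.1 else y p, by
      intro i hi
      simp [hi]⟩, fun i => y (i.1, c i.1))
  have hφ : Function.Injective φ := by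
    intro y y' h
    have h1 : (φ y).1.1 = (φ y').1.1 := by rw [h]
    have h2 : (φ y).2 = (φ y').2 := by rw [h]
    funext p
    by_cases hp : p.1 ∈ S ∧ p.2 = c p.1
    · have := congrFun h2 ⟨p.1, hp.1⟩
      have h3 : y (p.1, c p.1) = y' (p.1, c p.1) := this
      rw [← hp.2] at h3
      exact h3
    · have := congrFun h1 p
      simp only [φ, hp, if_false] at this
      exact this
  have hcard := Fintype.card_le_of_injective φ hφ
  rw [Fintype.card_fun (α := B × Fin m), Fintype.card_fin] at hcard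
  have h3 : Fintype.card ({y : B × Fin m → Fin q // good y} × (S → Fin q)) =
      (univ.filter (fun y : B × Fin m → Fin q => ∀ i ∈ S, y (i, c i) = g i)).card *
        q ^ S.card := by
    rw [Fintype.card_prod, Fintype.card_fun, Fintype.card_fin, Fintype.card_coe,
      Fintype.card_subtype]
  rw [h3] at hcard
  exact hcard

theorem circuit_low {B ι : Type} [Fintype B] [DecidableEq B] {q k m l t κ : ℕ} (hq : 0 < q)
    (hm : 0 < m) (ht : 0 < t) (hl : 2 ≤ l) (hlk : l ≤ k) (hκ0 : 0 < κ) (hκ : 4 * l * q * t ≤ κ)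
    (H : Game B q k) (live : ι → Option ((B × Fin m) × (B × Fin m)))
    (ρ : ι → Fin q → Fin q → Prop) (px : (B → Fin m) → ι → Bool)
    (ny : (B × Fin m → Fin q) → ι → Bool)
    (hpx : ∀ x i, px x i = true → ∃ s u, live i = some (s, u) ∧ x s.1 = s.2 ∧ x u.1 = u.2)
    (hny : ∀ y i s u, live i = some (s, u) → ρ i (y s) (y u) → ny y i = true)
    (hH : ∀ i s u f, live i = some (s, u) → H.ok {s.1, u.1} f → ρ i (f s.1) (f u.1))
    (hne : ∀ i s u, live i = some (s, u) → s.1 ≠ u.1)
    (C : MonotoneCircuit ι) (hP : ∀ x, C.eval (px x) = true) (hN : ∀ y, C.eval (ny y) = false) :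
    1 ≤ C.size * ∑ s ∈ Finset.Icc (l + 1) (2 * l),
        (3 : ℝ) ^ s * ((Fintype.card B).choose s : ℝ) * ((κ : ℝ) / m) ^ s ∨
      (2 : ℝ) ^ t ≤ 2 * C.size * ((((Fintype.card B + 1) * κ : ℕ) : ℝ) ^ l) ^ 2 *
        (q : ℝ) ^ (2 * l) := by
  have hq' : (0 : ℝ) < q := by exact_mod_cast hq
  have hm' : (0 : ℝ) < m := by exact_mod_cast hm
  set a₀ : Fin m := ⟨0, hm⟩ with ha₀
  set M : ℝ := (((Fintype.card B + 1) * κ : ℕ) : ℝ) ^ l with hMdef
  have hM1 : 1 ≤ M := by
    have h1 : 1 ≤ (Fintype.card B + 1) * κ := Nat.succ_le_of_lt (by positivity)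
    have h2 : (1 : ℝ) ≤ (((Fintype.card B + 1) * κ : ℕ) : ℝ) := by exact_mod_cast h1
    exact one_le_pow₀ h2
  set Q : ℝ := (q : ℝ) ^ Fintype.card (B × Fin m) with hQdef
  have hQ : 0 < Q := by positivity
  set Sg : ℝ := ∑ s ∈ Finset.Icc (l + 1) (2 * l),
        (3 : ℝ) ^ s * ((Fintype.card B).choose s : ℝ) * ((κ : ℝ) / m) ^ s with hSg
  have hSg0 : 0 ≤ Sg := by
    rw [hSg]
    exact Finset.sum_nonneg (fun s _ => by positivity)
  set δ : ℝ := (q : ℝ) ^ l * ((1 / 2) ^ t * Q) with hδ
  have hδ0 : 0 ≤ δ := by positivity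
  have key := approx_bound (P := B → Fin m) (Y := B × Fin m → Fin q)
    (A := {𝒳 : Finset (Term B m) // Valid a₀ l 𝒳 ∧ Reduced κ 𝒳}) px ny
    (fun 𝒳 x => ∃ X ∈ 𝒳.1, accP X x) (fun 𝒳 y => ∃ X ∈ 𝒳.1, accN H X y)
    ((m : ℝ) ^ Fintype.card B * Sg) (2 * M ^ 2 * δ) (Q / (q : ℝ) ^ l)
    (by positivity) (by positivity)
    ⟨⟨∅, by intro X hX; simp at hX, reduced_empty'⟩, by simp, by simp⟩
    ⟨⟨{((∅ : Finset B), fun _ => a₀)}, by
        intro X hX
        rw [Finset.mem_singleton] at hX
        subst hX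
        simp, reduced_single hκ0 _⟩, by
        intro x
        exact ⟨_, Finset.mem_singleton_self _, by intro i hi; simp at hi⟩, by
        intro y
        exact ⟨_, Finset.mem_singleton_self _, H.empty _⟩⟩
    (by
      intro i
      rcases hlive : live i with _ | ⟨s, u⟩
      · refine ⟨⟨∅, by intro X hX; simp at hX, reduced_empty'⟩, ?_, ?_⟩
        · intro x hx
          obtain ⟨s, u, h, _⟩ := hpx x i hx
          rw [hlive] at h
          simp at h
        · intro y hy
          simp at hy
      · have hsu := hne i s u hlive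
        let c : B → Fin m := fun j => if j = s.1 then s.2 else if j = u.1 then u.2 else a₀
        have hcs : c s.1 = s.2 := by simp [c]
        have hcu : c u.1 = u.2 := by
          simp only [c]
          rw [if_neg (fun h => hsu h.symm)]
          simp
        refine ⟨⟨{(({s.1, u.1} : Finset B), c)}, ?_, reduced_single hκ0 _⟩, ?_, ?_⟩
        · intro X hX
          rw [Finset.mem_singleton] at hX
          subst hX
          refine ⟨?_, ?_⟩
          · exact le_trans (Finset.card_le_two) hl
          · intro j hj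
            simp only [Finset.mem_insert, Finset.mem_singleton, not_or] at hj
            simp only [c]
            rw [if_neg hj.1, if_neg hj.2]
        · intro x hx
          obtain ⟨s', u', h, h1, h2⟩ := hpx x i hx
          rw [hlive] at h
          simp only [Option.some.injEq, Prod.mk.injEq] at h
          obtain ⟨hs, hu⟩ := h
          subst hs
          subst hu
          refine ⟨_, Finset.mem_singleton_self _, ?_⟩
          intro j hj
          simp only [Finset.mem_insert, Finset.mem_singleton] at hj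
          rcases hj with rfl | rfl
          · simp only [hcs, h1]
          · simp only [hcu, h2]
        · rintro y ⟨X, hX, hy⟩
          rw [Finset.mem_singleton] at hX
          subst hX
          have h1 := hH i s u _ hlive hy
          simp only [hcs, hcu] at h1
          exact hny y i s u hlive h1)
    (by
      intro a b
      obtain ⟨𝒵, hZ1, hZ2, hp, hn⟩ := op_and hq hm ht hlk hκ0 hκ H a₀ a.1 b.1 a.2.1 b.2.1 a.2.2 b.2.2
      have : M ^ 2 * δ ≤ 2 * M ^ 2 * δ := by nlinarith [mul_nonneg (sq_nonneg M) hδ0]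
      refine ⟨⟨𝒵, hZ1, hZ2⟩, ?_, ?_⟩
      · refine le_trans (le_of_eq ?_) hp
        congr!
      · refine le_trans (le_of_eq ?_) (le_trans hn this)
        congr!)
    (by
      intro a b
      obtain ⟨𝒵, hZ1, hZ2, hp, hn⟩ := op_or hq ht hlk hκ0 hκ H a₀ a.1 b.1 a.2.1 b.2.1 a.2.2 b.2.2
      refine ⟨⟨𝒵, hZ1, hZ2⟩, ?_, ?_⟩
      · refine le_trans (le_of_eq ?_) (show (0 : ℝ) ≤ (m : ℝ) ^ Fintype.card B * Sg by positivity)
        rw [Nat.cast_eq_zero, Finset.card_eq_zero]
        refine Finset.eq_empty_of_forall_notMem ?_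
        intro x hx
        simp only [Finset.mem_filter] at hx
        exact hx.2.2 (hp x hx.2.1)
      · have h2 : M ≤ M ^ 2 := by nlinarith
        have : 2 * M * δ ≤ 2 * M ^ 2 * δ := by nlinarith [mul_nonneg (sub_nonneg.2 h2) hδ0]
        refine le_trans (le_of_eq ?_) (le_trans hn this)
        congr!)
    (by
      intro a
      by_cases hne' : a.1.Nonempty
      · right
        obtain ⟨X, hX⟩ := hne'
        have hXl : X.1.card ≤ l := (a.2.1 X hX).1
        obtain ⟨g, _, hg⟩ := H.ext ∅ X.1 (fun _ => ⟨0, hq⟩) (Finset.empty_subset _)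
          (le_trans hXl hlk) (H.empty _)
        have h1 := count_fix X.1 X.2 g (q := q)
        have hsub : (univ.filter (fun y : B × Fin m → Fin q => ∀ i ∈ X.1, y (i, X.2 i) = g i)) ⊆
            (univ.filter (fun y : B × Fin m → Fin q => ∃ X ∈ a.1, accN H X y)) := by
          intro y hy
          rw [Finset.mem_filter] at hy ⊢
          refine ⟨hy.1, X, hX, ?_⟩
          exact H.congr X.1 g _ (fun i hi => (hy.2 i hi).symm) hg
        have h2 := Finset.card_le_card hsub
        have h3 : q ^ Fintype.card (B × Fin m) ≤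
            (univ.filter (fun y : B × Fin m → Fin q => ∃ X ∈ a.1, accN H X y)).card * q ^ l :=
          le_trans h1 (Nat.mul_le_mul h2 (Nat.pow_le_pow_right hq hXl))
        have h4 : Q ≤ ((univ.filter (fun y : B × Fin m → Fin q =>
            ∃ X ∈ a.1, accN H X y)).card : ℝ) * (q : ℝ) ^ l := by
          rw [hQdef]
          exact_mod_cast h3
        rw [div_le_iff₀ (by positivity)]
        refine le_trans h4 (le_of_eq ?_)
        congr!
      · left
        intro x hx
        obtain ⟨X, hX, _⟩ := hx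
        exact hne' ⟨X, hX⟩)
    C hP hN
  rcases key with h | h
  · left
    have hcard : (Fintype.card (B → Fin m) : ℝ) = (m : ℝ) ^ Fintype.card B := by
      rw [Fintype.card_fun, Fintype.card_fin]
      push_cast
      rfl
    rw [hcard] at h
    have hpos : (0 : ℝ) < (m : ℝ) ^ Fintype.card B := by positivity
    have h' : (m : ℝ) ^ Fintype.card B * 1 ≤ (m : ℝ) ^ Fintype.card B * (C.size * Sg) := by
      linarith [h, mul_left_comm (C.size : ℝ) ((m : ℝ) ^ Fintype.card B) Sg]
    exact le_of_mul_le_mul_left h' hpos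
  · right
    rw [div_le_iff₀ (by positivity)] at h
    have h2t : (0 : ℝ) < 2 ^ t := by positivity
    have hhalf : ((1 : ℝ) / 2) ^ t * 2 ^ t = 1 := by
      rw [← mul_pow]
      norm_num
    have h5 : Q * 2 ^ t ≤ Q * (2 * C.size * M ^ 2 * (q : ℝ) ^ (2 * l)) := by
      calc Q * 2 ^ t ≤ (C.size * (2 * M ^ 2 * δ) * (q : ℝ) ^ l) * 2 ^ t :=
            mul_le_mul_of_nonneg_right h h2t.le
        _ = Q * (2 * C.size * M ^ 2 * (q : ℝ) ^ (2 * l)) * (((1 : ℝ) / 2) ^ t * 2 ^ t) := by
            rw [hδ, two_mul l, pow_add]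
            ring
        _ = Q * (2 * C.size * M ^ 2 * (q : ℝ) ^ (2 * l)) := by rw [hhalf, mul_one]
    exact le_of_mul_le_mul_left h5 hQ

end Pool.H66.RZ
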