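import Mathlib

/-!
Module Par (about 150 lines, real numbers only).  Choice of the parameters.

Given `q ≥ 2` and `γ ∈ (0, 1]`.  For `N` large let `a` be the floor of the twentieth root of `N` and
put `n = a^6`, `l = ⌊γ n⌋`, `t = a^7`, `κ = 4 l q t`, `m = ⌈72 κ / γ⌉`.  Then
(1) `n m ≤ 292 q a^19 ≤ a^20 ≤ N`.
(2) `C(2n, s) ≤ (2 n)^s / s!` and `s^s / s! ≤ e^s`, `s > l` gives `s > γ n`, and `κ / m ≤ γ / 72`, hence
every term of the sum is at most `(1/4)^s` and the sum over `s > l` is at most `2^(-l)`.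
(3) `2^t = (2^a)^(a^6)` beats `2 exp (N^(1/4)) ((2n+1) κ q)^(2l)`, which is at most
`2 exp (a^6) (a^40)^(a^6)`.
-/

namespace Pool.H66.RZ

open Finset

theorem par_ex (c : ℝ) : ∃ A : ℕ, ∀ a ≥ A, c * (a : ℝ) ^ 40 ≤ (2 : ℝ) ^ a := by
  have h : Filter.Tendsto (fun n : ℕ => ((n : ℝ) ^ 40) * ((1 : ℝ) / 2) ^ n) Filter.atTop (nhds 0) :=
    tendsto_pow_const_mul_const_pow_of_lt_one 40 (by norm_num) (by norm_num)
  have h2 : Filter.Tendsto (fun n : ℕ => c * (((n : ℝ) ^ 40) * ((1 : ℝ) / 2) ^ n)) Filter.atTop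
      (nhds (c * 0)) := h.const_mul c
  rw [mul_zero] at h2
  have h3 := (h2.eventually (gt_mem_nhds (show (0 : ℝ) < 1 by norm_num)))
  rw [Filter.eventually_atTop] at h3
  obtain ⟨A, hA⟩ := h3
  refine ⟨A, fun a ha => ?_⟩
  have h4 := hA a ha
  have h5 : (0 : ℝ) < 2 ^ a := by positivity
  have h6 : ((1 : ℝ) / 2) ^ a = 1 / 2 ^ a := by
    rw [div_pow, one_pow]
  rw [h6] at h4
  have h7 : c * (((a : ℝ) ^ 40) * (1 / 2 ^ a)) = (c * (a : ℝ) ^ 40) / 2 ^ a := by ring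
  rw [h7, div_lt_one h5] at h4
  exact h4.le

theorem par_term (n l κ m : ℕ) (γ : ℝ) (hγ : 0 < γ) (hm : 0 < m) (hl : γ * n < l + 1)
    (hκ : (κ : ℝ) / m ≤ γ / 72) (s : ℕ) (hs : l + 1 ≤ s) :
    (3 : ℝ) ^ s * ((n + n).choose s : ℝ) * ((κ : ℝ) / m) ^ s ≤ (1 / 4) ^ s := by
  have hs' : ((l : ℝ) + 1) ≤ s := by exact_mod_cast hs
  have h1 : ((n + n).choose s : ℝ) ≤ ((n + n : ℕ) : ℝ) ^ s / (s.factorial : ℝ) :=
    Nat.choose_le_pow_div s (n + n)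
  have hsf : (0 : ℝ) < (s.factorial : ℝ) := by exact_mod_cast Nat.factorial_pos s
  have h2 : (s : ℝ) ^ s / (s.factorial : ℝ) ≤ 3 ^ s := by
    calc (s : ℝ) ^ s / (s.factorial : ℝ) ≤ Real.exp s := Real.pow_div_factorial_le_exp s (by positivity) s
      _ = Real.exp 1 ^ s := by rw [← Real.exp_nat_mul, mul_one]
      _ ≤ 3 ^ s := by
        apply pow_le_pow_left₀ (Real.exp_pos 1).le
        have := Real.exp_one_lt_d9
        linarith
  have h3 : ((n + n : ℕ) : ℝ) * γ ≤ 2 * s := by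
    push_cast
    nlinarith
  have hk0 : (0 : ℝ) ≤ (κ : ℝ) / m := by positivity
  calc (3 : ℝ) ^ s * ((n + n).choose s : ℝ) * ((κ : ℝ) / m) ^ s
      ≤ 3 ^ s * (((n + n : ℕ) : ℝ) ^ s / (s.factorial : ℝ)) * (γ / 72) ^ s := by
        apply mul_le_mul
        · exact mul_le_mul_of_nonneg_left h1 (by positivity)
        · exact pow_le_pow_left₀ hk0 hκ s
        · positivity
        · positivity
    _ = (3 / 72 * (((n + n : ℕ) : ℝ) * γ)) ^ s / (s.factorial : ℝ) := by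
        rw [mul_pow, mul_pow, div_pow, div_pow]
        ring
    _ ≤ (3 / 72 * (2 * s)) ^ s / (s.factorial : ℝ) := by
        apply div_le_div_of_nonneg_right _ hsf.le
        apply pow_le_pow_left₀ (by positivity)
        linarith
    _ = (1 / 12) ^ s * ((s : ℝ) ^ s / (s.factorial : ℝ)) := by
        rw [show (3 / 72 * (2 * (s : ℝ))) = (1 / 12) * s by ring, mul_pow]
        ring
    _ ≤ (1 / 12) ^ s * 3 ^ s := mul_le_mul_of_nonneg_left h2 (by positivity)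
    _ = (1 / 4) ^ s := by
        rw [← mul_pow]
        norm_num

theorem par_sum (n l κ m : ℕ) (γ : ℝ) (hγ : 0 < γ) (hm : 0 < m) (hl : γ * n < l + 1)
    (hκ : (κ : ℝ) / m ≤ γ / 72) :
    ∑ s ∈ Finset.Icc (l + 1) (2 * l),
      (3 : ℝ) ^ s * ((n + n).choose s : ℝ) * ((κ : ℝ) / m) ^ s ≤ (1 / 2) ^ l := by
  calc ∑ s ∈ Finset.Icc (l + 1) (2 * l),
      (3 : ℝ) ^ s * ((n + n).choose s : ℝ) * ((κ : ℝ) / m) ^ s
      ≤ ∑ s ∈ Finset.Icc (l + 1) (2 * l), ((1 : ℝ) / 4) ^ l := by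
        apply Finset.sum_le_sum
        intro s hs
        rw [Finset.mem_Icc] at hs
        refine (par_term n l κ m γ hγ hm hl hκ s hs.1).trans ?_
        exact pow_le_pow_of_le_one (by norm_num) (by norm_num) (by omega)
    _ = l * ((1 : ℝ) / 4) ^ l := by
        rw [Finset.sum_const, Nat.card_Icc, nsmul_eq_mul]
        congr 2
        omega
    _ ≤ 2 ^ l * ((1 : ℝ) / 4) ^ l := by
        apply mul_le_mul_of_nonneg_right _ (by positivity)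
        exact_mod_cast (Nat.lt_two_pow_self (n := l)).le
    _ = (1 / 2) ^ l := by
        rw [← mul_pow]
        norm_num

theorem par_second (a l q κ : ℕ) (σ : ℝ) (hσ : 0 ≤ σ) (ha : 1 ≤ a) (hla : l ≤ a ^ 6)
    (hb : (a ^ 6 + a ^ 6 + 1) * κ * q ≤ a ^ 20)
    (hexp : 6 * (a : ℝ) ^ 40 ≤ 2 ^ a)
    (h : (2 : ℝ) ^ (a ^ 7) ≤ 2 * σ * ((((a ^ 6 + a ^ 6 + 1) * κ : ℕ) : ℝ) ^ l) ^ 2 * (q : ℝ) ^ (2 * l)) :
    Real.exp ((a : ℝ) ^ 6) ≤ σ := by
  have ha' : (1 : ℝ) ≤ a := by exact_mod_cast ha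
  have h1 : ((((a ^ 6 + a ^ 6 + 1) * κ : ℕ) : ℝ) ^ l) ^ 2 * (q : ℝ) ^ (2 * l) ≤
      ((a : ℝ) ^ 40) ^ (a ^ 6) := by
    calc ((((a ^ 6 + a ^ 6 + 1) * κ : ℕ) : ℝ) ^ l) ^ 2 * (q : ℝ) ^ (2 * l)
        = ((((a ^ 6 + a ^ 6 + 1) * κ * q : ℕ) : ℝ)) ^ (2 * l) := by
          rw [Nat.cast_mul _ q, mul_pow, ← pow_mul, mul_comm l 2]
      _ ≤ ((a : ℝ) ^ 20) ^ (2 * l) := by
          apply pow_le_pow_left₀ (by positivity)
          exact_mod_cast hb
      _ = ((a : ℝ) ^ 40) ^ l := by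
          rw [← pow_mul, ← pow_mul]
          congr 1
          ring
      _ ≤ ((a : ℝ) ^ 40) ^ (a ^ 6) :=
          pow_le_pow_right₀ (one_le_pow₀ ha') hla
  have h2 : (2 : ℝ) ^ (a ^ 7) ≤ 2 * σ * ((a : ℝ) ^ 40) ^ (a ^ 6) := by
    refine h.trans ?_
    rw [mul_assoc]
    exact mul_le_mul_of_nonneg_left h1 (by positivity)
  have h3 : (6 : ℝ) ^ (a ^ 6) * ((a : ℝ) ^ 40) ^ (a ^ 6) ≤ (2 : ℝ) ^ (a ^ 7) := by
    rw [← mul_pow]
    calc (6 * (a : ℝ) ^ 40) ^ (a ^ 6) ≤ ((2 : ℝ) ^ a) ^ (a ^ 6) :=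
          pow_le_pow_left₀ (by positivity) hexp _
      _ = (2 : ℝ) ^ (a ^ 7) := by
          rw [← pow_mul]
          congr 1
          ring
  have h4 : (0 : ℝ) < ((a : ℝ) ^ 40) ^ (a ^ 6) := by positivity
  have h5 : (6 : ℝ) ^ (a ^ 6) ≤ 2 * σ := by
    have := h3.trans h2
    exact le_of_mul_le_mul_right this h4
  have h6 : (2 : ℝ) * Real.exp ((a : ℝ) ^ 6) ≤ (6 : ℝ) ^ (a ^ 6) := by
    have e1 : Real.exp ((a : ℝ) ^ 6) = Real.exp 1 ^ (a ^ 6) := by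
      rw [← Real.exp_nat_mul, mul_one]
      push_cast
      rfl
    have e2 : Real.exp 1 ^ (a ^ 6) ≤ 3 ^ (a ^ 6) := by
      apply pow_le_pow_left₀ (Real.exp_pos 1).le
      have := Real.exp_one_lt_d9
      linarith
    have e3 : (2 : ℝ) ≤ 2 ^ (a ^ 6) := by
      calc (2 : ℝ) = 2 ^ 1 := by norm_num
        _ ≤ 2 ^ (a ^ 6) := pow_le_pow_right₀ (by norm_num) (Nat.one_le_pow _ _ ha)
    calc (2 : ℝ) * Real.exp ((a : ℝ) ^ 6) ≤ 2 ^ (a ^ 6) * 3 ^ (a ^ 6) := by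
          rw [e1]
          exact mul_le_mul e3 e2 (by positivity) (by positivity)
      _ = 6 ^ (a ^ 6) := by
          rw [← mul_pow]
          norm_num
  linarith

theorem parameters (q : ℕ) (hq : 2 ≤ q) (γ : ℝ) (hγ : 0 < γ) (hγ1 : γ ≤ 1) (n₀ : ℕ) :
    ∃ N₀ : ℕ, ∀ N ≥ N₀, ∃ n m l t κ : ℕ, n₀ ≤ n ∧ 0 < m ∧ 0 < t ∧ 2 ≤ l ∧ l ≤ ⌊γ * n⌋₊ ∧ 0 < κ ∧
      4 * l * q * t ≤ κ ∧ n * m ≤ N ∧
      ∀ σ : ℝ, 0 ≤ σ →
        (1 ≤ σ * ∑ s ∈ Finset.Icc (l + 1) (2 * l),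
          (3 : ℝ) ^ s * ((n + n).choose s : ℝ) * ((κ : ℝ) / m) ^ s ∨
        (2 : ℝ) ^ t ≤ 2 * σ * ((((n + n + 1) * κ : ℕ) : ℝ) ^ l) ^ 2 * (q : ℝ) ^ (2 * l)) →
        Real.exp ((N : ℝ) ^ (1 / 4 : ℝ)) ≤ σ := by
  obtain ⟨A, hA⟩ := par_ex 6
  set B : ℕ := A + n₀ + 292 * q + 12 * q ^ 2 + ⌈66 / γ⌉₊ + 100 with hB
  refine ⟨B ^ 20, fun N hN => ?_⟩
  set a : ℕ := ⌊(N : ℝ) ^ (1 / 20 : ℝ)⌋₊ with ha
  have hNr : (0 : ℝ) ≤ N := by positivity
  have hpow : ((N : ℝ) ^ (1 / 20 : ℝ)) ^ 20 = N := by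
    rw [← Real.rpow_natCast, ← Real.rpow_mul hNr]
    norm_num
  have hx0 : (0 : ℝ) ≤ (N : ℝ) ^ (1 / 20 : ℝ) := by positivity
  have haB : B ≤ a := by
    rw [ha]
    apply Nat.le_floor
    by_contra hcon
    push Not at hcon
    have h1 : ((N : ℝ) ^ (1 / 20 : ℝ)) ^ 20 < (B : ℝ) ^ 20 :=
      pow_lt_pow_left₀ hcon hx0 (by norm_num)
    rw [hpow] at h1
    have h2 : ((B ^ 20 : ℕ) : ℝ) ≤ N := by exact_mod_cast hN
    push_cast at h2
    linarith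
  have haN : a ^ 20 ≤ N := by
    have h1 : (a : ℝ) ≤ (N : ℝ) ^ (1 / 20 : ℝ) := Nat.floor_le hx0
    have h2 : (a : ℝ) ^ 20 ≤ N := by
      calc (a : ℝ) ^ 20 ≤ ((N : ℝ) ^ (1 / 20 : ℝ)) ^ 20 := pow_le_pow_left₀ (by positivity) h1 20
        _ = N := hpow
    exact_mod_cast h2
  have ha100 : 100 ≤ a := by omega
  have hquarter : (N : ℝ) ^ (1 / 4 : ℝ) ≤ 32 * (a : ℝ) ^ 5 := by
    have h1 : (N : ℝ) ^ (1 / 20 : ℝ) ≤ (a : ℝ) + 1 := (Nat.lt_floor_add_one _).le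
    have h2 : (N : ℝ) ^ (1 / 4 : ℝ) = ((N : ℝ) ^ (1 / 20 : ℝ)) ^ 5 := by
      rw [← Real.rpow_natCast, ← Real.rpow_mul hNr]
      norm_num
    have h3 : (1 : ℝ) ≤ a := by
      have : (1 : ℕ) ≤ a := by omega
      exact_mod_cast this
    rw [h2]
    calc ((N : ℝ) ^ (1 / 20 : ℝ)) ^ 5 ≤ (2 * (a : ℝ)) ^ 5 :=
          pow_le_pow_left₀ hx0 (by linarith) 5
      _ = 32 * (a : ℝ) ^ 5 := by ring
  have har : (100 : ℝ) ≤ a := by exact_mod_cast ha100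
  have haγ : 66 / γ ≤ a := by
    have h1 : ((⌈66 / γ⌉₊ : ℕ) : ℝ) ≤ a := by
      have : ⌈66 / γ⌉₊ ≤ a := by omega
      exact_mod_cast this
    exact (Nat.le_ceil _).trans h1
  have haγ' : 66 ≤ γ * a := by
    rw [div_le_iff₀ hγ] at haγ
    linarith
  have hapos5 : (0 : ℝ) < (a : ℝ) ^ 5 := by positivity
  have hkey : 66 * (a : ℝ) ^ 5 ≤ γ * (a : ℝ) ^ 6 := by
    calc 66 * (a : ℝ) ^ 5 ≤ (γ * a) * (a : ℝ) ^ 5 := mul_le_mul_of_nonneg_right haγ' hapos5.le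
      _ = γ * (a : ℝ) ^ 6 := by ring
  have ha5 : (1 : ℝ) ≤ (a : ℝ) ^ 5 := one_le_pow₀ (by linarith)
  set n : ℕ := a ^ 6 with hn
  set l : ℕ := ⌊γ * (n : ℝ)⌋₊ with hl
  set t : ℕ := a ^ 7 with ht
  set κ : ℕ := 4 * l * q * t with hκ
  set m : ℕ := ⌈72 * (κ : ℝ) / γ⌉₊ with hm
  have hnr : (n : ℝ) = (a : ℝ) ^ 6 := by rw [hn]; push_cast; rfl
  have hl1 : γ * (n : ℝ) < l + 1 := Nat.lt_floor_add_one _
  have hl2 : (l : ℝ) ≤ γ * n := Nat.floor_le (by positivity)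
  have hlbig : 32 * (a : ℝ) ^ 5 ≤ (l : ℝ) / 2 := by
    rw [hnr] at hl1
    linarith
  have hl64 : (64 : ℝ) ≤ l := by linarith
  have hl64' : 64 ≤ l := by exact_mod_cast hl64
  have htpos : 0 < t := by
    rw [ht]
    exact Nat.pow_pos (by omega)
  have hκpos : 0 < κ := by
    rw [hκ]
    have h1 : 0 < l := by omega
    have h2 : 0 < q := by omega
    positivity
  have hκr : (0 : ℝ) < κ := by exact_mod_cast hκpos
  have hκ1 : (1 : ℝ) ≤ κ := by exact_mod_cast hκpos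
  have hmpos : 0 < m := by
    rw [hm]
    apply Nat.ceil_pos.2
    positivity
  have hmr : (0 : ℝ) < m := by exact_mod_cast hmpos
  have hmge : 72 * (κ : ℝ) / γ ≤ m := Nat.le_ceil _
  have hmle : (m : ℝ) ≤ 73 * κ / γ := by
    have h1 : (m : ℝ) < 72 * (κ : ℝ) / γ + 1 := Nat.ceil_lt_add_one (by positivity)
    have h2 : (1 : ℝ) ≤ κ / γ := by
      rw [le_div_iff₀ hγ]
      linarith
    have h3 : 73 * (κ : ℝ) / γ = 72 * κ / γ + κ / γ := by ring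
    rw [h3]
    linarith
  have hratio : (κ : ℝ) / m ≤ γ / 72 := by
    rw [div_le_div_iff₀ hmr (by norm_num)]
    rw [div_le_iff₀ hγ] at hmge
    linarith
  have hla : l ≤ a ^ 6 := by
    have h1 : (l : ℝ) ≤ (n : ℝ) := by
      calc (l : ℝ) ≤ γ * n := hl2
        _ ≤ 1 * n := mul_le_mul_of_nonneg_right hγ1 (by positivity)
        _ = n := one_mul _
    have h2 : l ≤ n := by exact_mod_cast h1
    exact h2
  have ha1 : 1 ≤ a := by omega
  have hκle : κ ≤ 4 * q * a ^ 13 := by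
    calc κ = 4 * l * q * a ^ 7 := by rw [hκ]
      _ ≤ 4 * a ^ 6 * q * a ^ 7 := by gcongr
      _ = 4 * q * a ^ 13 := by ring
  refine ⟨n, m, l, t, κ, ?_, hmpos, htpos, by omega, le_refl _, hκpos, le_refl _, ?_, ?_⟩
  · calc n₀ ≤ a := by omega
      _ = a ^ 1 := (pow_one a).symm
      _ ≤ a ^ 6 := Nat.pow_le_pow_right ha1 (by norm_num)
  · have h1 : ((n * m : ℕ) : ℝ) ≤ N := by
      push_cast
      have h292 : (292 * (q : ℝ)) ≤ a := by
        have : 292 * q ≤ a := by omega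
        exact_mod_cast this
      calc (n : ℝ) * m ≤ n * (73 * κ / γ) := mul_le_mul_of_nonneg_left hmle (by positivity)
        _ = n * (73 * (4 * l * q * (a : ℝ) ^ 7) / γ) := by
            rw [hκ, ht]
            push_cast
            rfl
        _ = (a : ℝ) ^ 6 * (292 * q * (a : ℝ) ^ 7) * (l / γ) := by
            rw [hnr]
            ring
        _ ≤ (a : ℝ) ^ 6 * (292 * q * (a : ℝ) ^ 7) * (n : ℝ) := by
            apply mul_le_mul_of_nonneg_left _ (by positivity)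
            rw [div_le_iff₀ hγ]
            linarith
        _ = (292 * q) * (a : ℝ) ^ 19 := by
            rw [hnr]
            ring
        _ ≤ a * (a : ℝ) ^ 19 := mul_le_mul_of_nonneg_right h292 (by positivity)
        _ = ((a ^ 20 : ℕ) : ℝ) := by
            push_cast
            ring
        _ ≤ N := by exact_mod_cast haN
    exact_mod_cast h1
  · intro σ hσ h
    rcases h with h | h
    · have h1 := par_sum n l κ m γ hγ hmpos hl1 hratio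
      have h2 : 1 ≤ σ * (1 / 2) ^ l := h.trans (mul_le_mul_of_nonneg_left h1 hσ)
      have h3 : (2 : ℝ) ^ l ≤ σ := by
        have h4 : ((1 : ℝ) / 2) ^ l = 1 / 2 ^ l := by rw [div_pow, one_pow]
        have h5 : (0 : ℝ) < 2 ^ l := by positivity
        rw [h4, mul_one_div, le_div_iff₀ h5] at h2
        linarith
      refine le_trans ?_ h3
      have h6 : Real.exp ((l : ℝ) / 2) ≤ 2 ^ l := by
        have h7 : (2 : ℝ) ^ l = Real.exp (Real.log 2 * l) := by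
          rw [Real.exp_mul, Real.exp_log (by norm_num), Real.rpow_natCast]
        rw [h7]
        apply Real.exp_le_exp.2
        have h8 := Real.log_two_gt_d9
        have h9 : (0 : ℝ) ≤ l := by positivity
        nlinarith
      exact (Real.exp_le_exp.2 (hquarter.trans hlbig)).trans h6
    · have h1 : Real.exp ((a : ℝ) ^ 6) ≤ σ := by
        apply par_second a l q κ σ hσ ha1 hla _ (hA a (by omega)) h
        calc (a ^ 6 + a ^ 6 + 1) * κ * q ≤ (3 * a ^ 6) * (4 * q * a ^ 13) * q := by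
              have h0 : 1 ≤ a ^ 6 := Nat.one_le_pow _ _ ha1
              gcongr
              omega
          _ = (12 * q ^ 2) * a ^ 19 := by ring
          _ ≤ a * a ^ 19 := by
              gcongr
              omega
          _ = a ^ 20 := by ring
      refine le_trans (Real.exp_le_exp.2 (hquarter.trans ?_)) h1
      calc 32 * (a : ℝ) ^ 5 ≤ a * (a : ℝ) ^ 5 := by
            apply mul_le_mul_of_nonneg_right _ hapos5.le
            linarith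
        _ = (a : ℝ) ^ 6 := by ring

end Pool.H66.RZ
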