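import Pool.Agent.H66.RZ.Defs
import Pool.Agent.H90.MG.Base

/-!
Instances of value `O(log (d R) / R)` passing the consistency test of linear width: translation of
`Pool.H90.MG.base` to the definitions of this folder.
-/

namespace Pool.H66.RZ

open Finset
open scoped Classical

/-- Translation of an instance. -/
private noncomputable def trans {V W : Type} {d R : ℕ} (Φ : Pool.H90.MG.LabelCover V W d R) :
    LabelCover V W d R := ⟨Φ.E, Φ.π, Φ.dto1⟩

private lemma card_lt_of_value {V W : Type} [Fintype V] [Fintype W] {d R : ℕ}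
    (Φ : Pool.H90.MG.LabelCover V W d R) (hE : Φ.E.Nonempty) {ε : ℝ} (hv : Φ.value < ε)
    (f : V → Fin R) (g : W → Fin (d * R)) :
    ((Φ.E.filter (fun e => Φ.π e (g e.2) = f e.1)).card : ℝ) < ε * Φ.E.card := by
  have hb : BddAbove (Set.range (fun fg : (V → Fin R) × (W → Fin (d * R)) =>
      ((Φ.E.filter (fun e => Φ.π e (fg.2 e.2) = fg.1 e.1)).card : ℝ) / (Φ.E.card : ℝ))) :=
    (Set.finite_range _).bddAbove
  have h1 := le_ciSup hb (f, g)
  have hE0 : (0:ℝ) < Φ.E.card := by exact_mod_cast hE.card_pos
  have h2 : ((Φ.E.filter (fun e => Φ.π e (g e.2) = f e.1)).card : ℝ) / (Φ.E.card : ℝ) < ε :=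
    lt_of_le_of_lt h1 hv
  rwa [div_lt_iff₀ hE0] at h2

private lemma size_le_of_extends {V W : Type} [Fintype V] [Fintype W] {d R : ℕ}
    (p p' : Pebbling V W d R) (h : Extends p' p) : psize p' ≤ psize p := by
  unfold psize
  refine Nat.add_le_add (Finset.card_le_card ?_) (Finset.card_le_card ?_)
  · intro v hv
    simp only [Finset.mem_filter, Finset.mem_univ, true_and] at hv ⊢
    obtain ⟨a, ha⟩ := Option.isSome_iff_exists.1 hv
    rw [h.1 v a ha]; rfl
  · intro v hv
    simp only [Finset.mem_filter, Finset.mem_univ, true_and] at hv ⊢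
    obtain ⟨a, ha⟩ := Option.isSome_iff_exists.1 hv
    rw [h.2 v a ha]; rfl

/-- Adding one label on the left to a restriction. -/
private lemma local_mono {V W : Type} [Fintype V] [Fintype W] {d R : ℕ} (Φ : LabelCover V W d R)
    {k k' : ℕ} (hk : k' ≤ k) (h : Φ.LocallyConsistent k) : Φ.LocallyConsistent k' := by
  obtain ⟨F, hne, h1, h2, h3⟩ := h
  refine ⟨{p | p ∈ F ∧ psize p ≤ k'}, ?_, ?_, ?_, ?_⟩
  · obtain ⟨p, hp⟩ := hne
    refine ⟨(fun _ => none, fun _ => none), h2 p hp _ ⟨by intro v a h; simp at h,
      by intro v a h; simp at h⟩, ?_⟩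
    simp [psize]
  · intro p hp
    exact ⟨hp.2, (h1 p hp.1).2⟩
  · intro p hp p' hp'
    exact ⟨h2 p hp.1 p' hp', (size_le_of_extends p p' hp').trans hp.2⟩
  · intro p hp hs
    obtain ⟨ha, hb⟩ := h3 p hp.1 (lt_of_lt_of_le hs hk)
    refine ⟨fun v => ?_, fun w => ?_⟩
    · obtain ⟨p', hp', hext, hv⟩ := ha v
      obtain ⟨a, hav⟩ := Option.isSome_iff_exists.1 hv
      refine ⟨(Function.update p.1 v (some a), p.2), ⟨h2 p' hp' _ ⟨?_, ?_⟩, ?_⟩, ⟨?_, ?_⟩, ?_⟩
      · intro u b hu
        have hu1 : Function.update p.1 v (some a) u = some b := hu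
        by_cases huv : u = v
        · subst huv
          simp only [Function.update_self, Option.some.injEq] at hu1
          rw [hav, hu1]
        · rw [Function.update_of_ne huv] at hu1
          exact hext.1 u b hu1
      · exact hext.2
      · unfold psize at hs ⊢
        have : (Finset.univ.filter (fun u => (Function.update p.1 v (some a) u).isSome)) ⊆
            insert v (Finset.univ.filter (fun u => (p.1 u).isSome)) := by
          intro u hu
          simp only [Finset.mem_filter, Finset.mem_univ, true_and, Finset.mem_insert] at hu ⊢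
          by_cases huv : u = v
          · exact Or.inl huv
          · rw [Function.update_of_ne huv] at hu
            exact Or.inr hu
        have := (Finset.card_le_card this).trans (Finset.card_insert_le _ _)
        simp only at this ⊢
        omega
      · intro u b hu
        by_cases huv : u = v
        · subst huv
          have := hext.1 u b hu
          show Function.update p.1 u (some a) u = some b
          rw [Function.update_self, ← this, hav]
        · show Function.update p.1 v (some a) u = some b
          rw [Function.update_of_ne huv]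
          exact hu
      · intro w b hw; exact hw
      · simp
    · obtain ⟨p', hp', hext, hw⟩ := hb w
      obtain ⟨a, haw⟩ := Option.isSome_iff_exists.1 hw
      refine ⟨(p.1, Function.update p.2 w (some a)), ⟨h2 p' hp' _ ⟨?_, ?_⟩, ?_⟩, ⟨?_, ?_⟩, ?_⟩
      · exact hext.1
      · intro u b hu
        have hu1 : Function.update p.2 w (some a) u = some b := hu
        by_cases huv : u = w
        · subst huv
          simp only [Function.update_self, Option.some.injEq] at hu1
          rw [haw, hu1]
        · rw [Function.update_of_ne huv] at hu1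
          exact hext.2 u b hu1
      · unfold psize at hs ⊢
        have : (Finset.univ.filter (fun u => (Function.update p.2 w (some a) u).isSome)) ⊆
            insert w (Finset.univ.filter (fun u => (p.2 u).isSome)) := by
          intro u hu
          simp only [Finset.mem_filter, Finset.mem_univ, true_and, Finset.mem_insert] at hu ⊢
          by_cases huv : u = w
          · exact Or.inl huv
          · rw [Function.update_of_ne huv] at hu
            exact Or.inr hu
        have := (Finset.card_le_card this).trans (Finset.card_insert_le _ _)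
        simp only at this ⊢
        omega
      · intro v b hv; exact hv
      · intro u b hu
        by_cases huv : u = w
        · subst huv
          have := hext.2 u b hu
          show Function.update p.2 u (some a) u = some b
          rw [Function.update_self, ← this, haw]
        · show Function.update p.2 w (some a) u = some b
          rw [Function.update_of_ne huv]
          exact hu
      · simp

theorem linear_width : ∃ C : ℝ, 0 < C ∧ ∀ d R : ℕ, 2 ≤ d → 2 ≤ R → ∀ ε : ℝ,
    C * Real.log (d * R) / R ≤ ε → ε ≤ 1 → ∃ γ : ℝ, 0 < γ ∧ γ ≤ 1 ∧ ∃ n₀ : ℕ, ∀ n ≥ n₀,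
      ∃ Φ : LabelCover (Fin n) (Fin n) d R, Φ.E.Nonempty ∧
        (∀ (f : Fin n → Fin R) (g : Fin n → Fin (d * R)),
          ((Φ.E.filter (fun e => Φ.π e (g e.2) = f e.1)).card : ℝ) < ε * Φ.E.card) ∧
        Φ.LocallyConsistent ⌊γ * n⌋₊ := by
  refine ⟨1000, by norm_num, fun d R hd hR ε hε hε1 => ?_⟩
  have hd' : (2:ℝ) ≤ d := by exact_mod_cast hd
  have hR' : (2:ℝ) ≤ R := by exact_mod_cast hR
  have hR0 : (0:ℝ) < R := by linarith
  have hlog : 0 < Real.log (d * R) := Real.log_pos (by nlinarith)
  have hε0 : 0 < ε := lt_of_lt_of_le (by positivity) hε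
  obtain ⟨γ, hγ, n₀, h⟩ := Pool.H90.MG.base d hd ε hε0 hε1 R
    (by rwa [div_le_iff₀ hR0] at hε) hR
  refine ⟨min γ 1, lt_min hγ one_pos, min_le_right _ _, n₀, fun n hn => ?_⟩
  obtain ⟨Φ, hE, hv, hc⟩ := h n hn
  refine ⟨trans Φ, hE, fun f g => card_lt_of_value Φ hE hv f g, ?_⟩
  refine local_mono (trans Φ) (k := ⌊γ * n⌋₊) ?_ hc
  apply Nat.floor_le_floor
  exact mul_le_mul_of_nonneg_right (min_le_left _ _) (Nat.cast_nonneg _)

end Pool.H66.RZ
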