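import Pool.Agent.H66.RZ.Inst
import Pool.Agent.H66.RZ.WidthB
import Pool.Agent.H66.RZ.Par

/-!
Main theorem, from the modules.
-/

namespace Pool.H66.RZ

open Finset
open scoped Classical

theorem main : ∃ C : ℝ, 0 < C ∧ ∀ d R : ℕ, 2 ≤ d → 2 ≤ R → ∀ ε : ℝ,
    C * Real.log (d * R) / R ≤ ε → ε ≤ 1 → ∃ N₀ : ℕ, ∀ N ≥ N₀,
      ∀ K : MonotoneCircuit (Var N d R), Separates K ε →
        Real.exp ((N : ℝ) ^ (1 / 4 : ℝ)) ≤ K.size := by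
  obtain ⟨C, hC, h⟩ := linear_width
  refine ⟨C, hC, fun d R hd hR ε hε hε1 => ?_⟩
  obtain ⟨γ, hγ, hγ1, n₀, hn⟩ := h d R hd hR ε hε hε1
  have hq : 2 ≤ d * R := by nlinarith
  obtain ⟨N₀, hN⟩ := parameters (d * R) hq γ hγ hγ1 n₀
  refine ⟨N₀, fun N hNN K hK => ?_⟩
  obtain ⟨n, m, l, t, κ, h1, hm, ht, hl, hlk, hκ0, hκ, hnm, hfin⟩ := hN N hNN
  obtain ⟨Φ, hE, hval, hcons⟩ := hn n h1
  exact hfin K.size (Nat.cast_nonneg _)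
    (inst_low (by omega) (by omega) hm ht hl hlk hκ0 hκ Φ hE ε hval hcons hnm K hK)

end Pool.H66.RZ
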