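import Pool.Agent.H66.RZ.Defs

/-!
Module Mom (about 130 lines).  Second moment for a spread family of transversals.

`D` is a set of blocks, `L` a family of functions `a : B → Fin m` (choices of copies), spread:
for `T ⊆ D` and `a ∈ L` the number of `b ∈ L` agreeing with `a` on `T` is at most `|L| / κ^|T|`.
Random set `G ⊆ B × Fin m` of density `p`; `a` is hit if `(i, a i) ∈ G` for all `i ∈ D`.

PROOF.  (1) `pr_superset`: `pr p (fun G => T ⊆ G) = p^|T|` (sum over `G ⊇ T`, `G = T ∪ G'` with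
`G' ⊆ Tᶜ`; binomial theorem).  (2) Let `T_a = {(i, a i) : i ∈ D}`, `|T_a| = |D| = s`, and
`Z(G) = #{a ∈ L : T_a ⊆ G}`.  With weights `w(G) = p^|G| (1-p)^(|E|-|G|)` we have
`∑ w = 1`, `∑ w Z = |L| p^s`, `∑ w Z² = ∑_{a,b} p^|T_a ∪ T_b|` and
`|T_a ∪ T_b| = 2 s - |Agree(a,b)|`, `Agree(a,b) = {i ∈ D : a i = b i}`.
(3) `p^(2s - j) = p^(2s) (1/p)^j ≤ p^(2s) ∑_{T ⊆ Agree(a,b)} (1/p)^|T|` (the term `T = Agree` alone
is `(1/p)^j`, the others are nonnegative).  Summing over `b` and exchanging the sums: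
`∑_b p^|T_a ∪ T_b| ≤ p^(2s) ∑_{T ⊆ D} (1/p)^|T| #{b ∈ L : b = a on T}
 ≤ p^(2s) |L| ∑_{T ⊆ D} (1/(κ p))^|T| = p^(2s) |L| (1 + 1/(κ p))^s`.
(4) Chebyshev: `P(Z = 0) μ² ≤ ∑ w (Z - μ)² = ∑ w Z² - μ²` with `μ = |L| p^s > 0`, hence
`P(Z = 0) ≤ (1 + 1/(κ p))^s - 1`.  The event in the statement is `Z = 0`.
-/

namespace Pool.H66.RZ

open Finset
open scoped Classical

theorem pr_superset {E : Type} [Fintype E] [DecidableEq E] (p : ℝ) (T : Finset E) :
    pr p (fun G => T ⊆ G) = p ^ T.card := by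
  have h0 : pr p (fun G => T ⊆ G) = ∑ G : Finset E,
      if T ⊆ G then p ^ G.card * (1 - p) ^ (Fintype.card E - G.card) else 0 := by
    unfold pr
    refine Finset.sum_congr rfl fun G _ => ?_
    by_cases h : T ⊆ G
    · rw [if_pos h, if_pos h]
    · rw [if_neg h, if_neg h]
  rw [h0, ← Finset.sum_filter]
  have h1 : ∑ G ∈ (univ : Finset (Finset E)).filter (fun G => T ⊆ G),
      p ^ G.card * (1 - p) ^ (Fintype.card E - G.card) =
      ∑ G' ∈ (Tᶜ).powerset, p ^ T.card * (p ^ G'.card * (1 - p) ^ ((Tᶜ).card - G'.card)) := by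
    symm
    refine Finset.sum_bij' (fun G' _ => T ∪ G') (fun G _ => G \ T) ?_ ?_ ?_ ?_ ?_
    · intro G' _
      simp
    · intro G _
      rw [Finset.mem_powerset]
      intro x hx
      rw [Finset.mem_compl]
      exact (Finset.mem_sdiff.1 hx).2
    · intro G' hG'
      rw [Finset.mem_powerset] at hG'
      ext x
      rw [Finset.mem_sdiff, Finset.mem_union]
      constructor
      · rintro ⟨h | h, h2⟩
        · exact absurd h h2
        · exact h
      · intro h
        exact ⟨Or.inr h, Finset.mem_compl.1 (hG' h)⟩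
    · intro G hG
      rw [Finset.mem_filter] at hG
      ext x
      rw [Finset.mem_union, Finset.mem_sdiff]
      constructor
      · rintro (h | h)
        · exact hG.2 h
        · exact h.1
      · intro h
        by_cases hx : x ∈ T
        · exact Or.inl hx
        · exact Or.inr ⟨h, hx⟩
    · intro G' hG'
      rw [Finset.mem_powerset] at hG'
      have hd : Disjoint T G' := by
        rw [Finset.disjoint_right]
        intro x hx
        exact Finset.mem_compl.1 (hG' hx)
      have hc : (T ∪ G').card = T.card + G'.card := Finset.card_union_of_disjoint hd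
      have hc2 : (Tᶜ).card = Fintype.card E - T.card := Finset.card_compl T
      rw [hc, hc2, pow_add, mul_assoc, Nat.sub_sub]
  rw [h1, ← Finset.mul_sum, Finset.sum_pow_mul_eq_add_pow]
  simp

theorem second_moment {B : Type} [Fintype B] [DecidableEq B] {m : ℕ} (D : Finset B)
    (L : Finset (B → Fin m)) (hL : L.Nonempty) (κ p : ℝ) (hκ : 0 < κ) (hp : 0 < p) (hp1 : p ≤ 1)
    (hs : ∀ T ⊆ D, ∀ a ∈ L,
      ((L.filter (fun b => ∀ i ∈ T, b i = a i)).card : ℝ) * κ ^ T.card ≤ L.card) :
    pr p (fun G : Finset (B × Fin m) => ∀ a ∈ L, ∃ i ∈ D, (i, a i) ∉ G) ≤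
      (1 + 1 / (κ * p)) ^ D.card - 1 := by
  set s := D.card with hsdef
  let w : Finset (B × Fin m) → ℝ := fun G =>
    p ^ G.card * (1 - p) ^ (Fintype.card (B × Fin m) - G.card)
  have hw : ∀ G, 0 ≤ w G := fun G =>
    mul_nonneg (pow_nonneg hp.le _) (pow_nonneg (by linarith) _)
  let S : (B → Fin m) → Finset (B × Fin m) := fun a => D.image (fun i => (i, a i))
  have hinj : ∀ a : B → Fin m, Function.Injective (fun i : B => (i, a i)) := by
    intro a i j h
    exact congrArg Prod.fst h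
  have hScard : ∀ a, (S a).card = s := fun a => Finset.card_image_of_injective _ (hinj a)
  have hSsub : ∀ a (G : Finset (B × Fin m)), S a ⊆ G ↔ ∀ i ∈ D, (i, a i) ∈ G := by
    intro a G
    simp only [S, Finset.image_subset_iff]
  have hpr : ∀ T : Finset (B × Fin m), ∑ G, w G * (if T ⊆ G then (1 : ℝ) else 0) = p ^ T.card := by
    intro T
    rw [← pr_superset p T]
    unfold pr
    refine Finset.sum_congr rfl fun G _ => ?_
    by_cases h : T ⊆ G
    · rw [if_pos h, if_pos h, mul_one]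
    · rw [if_neg h, if_neg h, mul_zero]
  let Z : Finset (B × Fin m) → ℝ := fun G => ∑ a ∈ L, (if S a ⊆ G then (1 : ℝ) else 0)
  let A : (B → Fin m) → (B → Fin m) → Finset B := fun a b => D.filter (fun i => b i = a i)
  have hW : ∑ G, w G = 1 := by
    have := hpr ∅
    simpa using this
  have hWZ : ∑ G, w G * Z G = L.card * p ^ s := by
    have h1 : ∀ G, w G * Z G = ∑ a ∈ L, w G * (if S a ⊆ G then (1 : ℝ) else 0) := by
      intro G
      rw [Finset.mul_sum]
    simp_rw [h1]
    rw [Finset.sum_comm]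
    simp_rw [hpr, hScard]
    rw [Finset.sum_const, nsmul_eq_mul]
  have hWZ2 : ∑ G, w G * Z G ^ 2 = ∑ a ∈ L, ∑ b ∈ L, p ^ (S a ∪ S b).card := by
    have h1 : ∀ G, w G * Z G ^ 2 = ∑ a ∈ L, ∑ b ∈ L,
        w G * (if S a ∪ S b ⊆ G then (1 : ℝ) else 0) := by
      intro G
      rw [pow_two, Finset.sum_mul_sum, Finset.mul_sum]
      refine Finset.sum_congr rfl fun a _ => ?_
      rw [Finset.mul_sum]
      refine Finset.sum_congr rfl fun b _ => ?_
      congr 1
      by_cases ha : S a ⊆ G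
      · by_cases hb : S b ⊆ G
        · rw [if_pos ha, if_pos hb, if_pos (Finset.union_subset ha hb), mul_one]
        · rw [if_pos ha, if_neg hb, if_neg (fun h => hb (Finset.union_subset_right h)), mul_zero]
      · rw [if_neg ha, if_neg (fun h => ha (Finset.union_subset_left h)), zero_mul]
    simp_rw [h1]
    rw [Finset.sum_comm]
    refine Finset.sum_congr rfl fun a _ => ?_
    rw [Finset.sum_comm]
    refine Finset.sum_congr rfl fun b _ => ?_
    exact hpr _
  -- union of two
  have hU : ∀ a b, (S a ∪ S b).card + (A a b).card = 2 * s := by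
    intro a b
    have h1 := Finset.card_union_add_card_inter (S a) (S b)
    have h2 : S a ∩ S b = (A a b).image (fun i => (i, a i)) := by
      ext ⟨i, c⟩
      simp only [S, A, Finset.mem_inter, Finset.mem_image, Finset.mem_filter, Prod.mk.injEq]
      constructor
      · rintro ⟨⟨x, hx, rfl, rfl⟩, ⟨y, hy, h3, h4⟩⟩
        subst h3
        exact ⟨y, ⟨hy, h4⟩, rfl, rfl⟩
      · rintro ⟨x, ⟨hx, h3⟩, rfl, rfl⟩
        exact ⟨⟨x, hx, rfl, rfl⟩, ⟨x, hx, rfl, h3⟩⟩
    have h3 : (S a ∩ S b).card = (A a b).card := by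
      rw [h2]
      exact Finset.card_image_of_injective _ (hinj a)
    rw [h3, hScard, hScard] at h1
    omega
  have hq : 0 < 1 / p := by positivity
  have hpU : ∀ a b, p ^ (S a ∪ S b).card ≤
      p ^ (2 * s) * ∑ T ∈ (A a b).powerset, (1 / p) ^ T.card := by
    intro a b
    have h1 : p ^ (S a ∪ S b).card = p ^ (2 * s) * (1 / p) ^ (A a b).card := by
      rw [← hU a b, pow_add, mul_assoc, ← mul_pow, mul_one_div_cancel hp.ne', one_pow, mul_one]
    rw [h1]
    refine mul_le_mul_of_nonneg_left ?_ (pow_nonneg hp.le _)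
    exact Finset.single_le_sum (f := fun T : Finset B => (1 / p) ^ T.card)
      (fun T _ => pow_nonneg hq.le _) (Finset.mem_powerset_self _)
  have hsumb : ∀ a ∈ L, ∑ b ∈ L, p ^ (S a ∪ S b).card ≤
      p ^ (2 * s) * (L.card * (1 + 1 / (κ * p)) ^ s) := by
    intro a ha
    calc ∑ b ∈ L, p ^ (S a ∪ S b).card
        ≤ ∑ b ∈ L, p ^ (2 * s) * ∑ T ∈ (A a b).powerset, (1 / p) ^ T.card :=
          Finset.sum_le_sum fun b _ => hpU a b
      _ = p ^ (2 * s) * ∑ b ∈ L, ∑ T ∈ D.powerset,
            (if ∀ i ∈ T, b i = a i then (1 / p) ^ T.card else 0) := by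
          rw [← Finset.mul_sum]
          congr 1
          refine Finset.sum_congr rfl fun b _ => ?_
          rw [← Finset.sum_filter]
          refine Finset.sum_congr ?_ fun _ _ => rfl
          ext T
          simp only [A, Finset.mem_powerset, Finset.mem_filter]
          constructor
          · intro h
            exact ⟨h.trans (Finset.filter_subset _ _), fun i hi => (Finset.mem_filter.1 (h hi)).2⟩
          · rintro ⟨h1, h2⟩ i hi
            exact Finset.mem_filter.2 ⟨h1 hi, h2 i hi⟩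
      _ = p ^ (2 * s) * ∑ T ∈ D.powerset,
            ((L.filter (fun b => ∀ i ∈ T, b i = a i)).card : ℝ) * (1 / p) ^ T.card := by
          rw [Finset.sum_comm]
          congr 1
          refine Finset.sum_congr rfl fun T _ => ?_
          rw [← Finset.sum_filter, Finset.sum_const, nsmul_eq_mul]
      _ ≤ p ^ (2 * s) * ∑ T ∈ D.powerset, (L.card : ℝ) *
            ((1 / (κ * p)) ^ T.card * 1 ^ (D.card - T.card)) := by
          refine mul_le_mul_of_nonneg_left ?_ (pow_nonneg hp.le _)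
          refine Finset.sum_le_sum fun T hT => ?_
          rw [one_pow, mul_one]
          have h1 := hs T (Finset.mem_powerset.1 hT) a ha
          have hκT : 0 < κ ^ T.card := pow_pos hκ _
          have h2 : ((L.filter (fun b => ∀ i ∈ T, b i = a i)).card : ℝ) ≤
              L.card / κ ^ T.card := by
            rw [le_div_iff₀ hκT]
            exact h1
          calc ((L.filter (fun b => ∀ i ∈ T, b i = a i)).card : ℝ) * (1 / p) ^ T.card
              ≤ L.card / κ ^ T.card * (1 / p) ^ T.card :=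
                mul_le_mul_of_nonneg_right h2 (pow_nonneg hq.le _)
            _ = L.card * (1 / (κ * p)) ^ T.card := by
                rw [one_div, one_div, inv_pow, inv_pow, mul_pow, mul_inv, div_eq_mul_inv,
                  mul_assoc]
      _ = p ^ (2 * s) * (L.card * (1 + 1 / (κ * p)) ^ s) := by
          rw [← Finset.mul_sum, Finset.sum_pow_mul_eq_add_pow, add_comm]
  have hZ2 : ∑ G, w G * Z G ^ 2 ≤ (L.card * p ^ s) ^ 2 * (1 + 1 / (κ * p)) ^ s := by
    rw [hWZ2]
    calc ∑ a ∈ L, ∑ b ∈ L, p ^ (S a ∪ S b).card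
        ≤ ∑ a ∈ L, p ^ (2 * s) * (L.card * (1 + 1 / (κ * p)) ^ s) :=
          Finset.sum_le_sum hsumb
      _ = (L.card * p ^ s) ^ 2 * (1 + 1 / (κ * p)) ^ s := by
          rw [Finset.sum_const, nsmul_eq_mul]
          ring
  set μ : ℝ := L.card * p ^ s with hμ
  have hμpos : 0 < μ := by
    have : 0 < (L.card : ℝ) := by exact_mod_cast hL.card_pos
    positivity
  have hvar : ∑ G, w G * (Z G - μ) ^ 2 = ∑ G, w G * Z G ^ 2 - μ ^ 2 := by
    have h1 : ∀ G, w G * (Z G - μ) ^ 2 = w G * Z G ^ 2 - 2 * μ * (w G * Z G) + μ ^ 2 * w G := by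
      intro G
      ring
    simp_rw [h1]
    rw [Finset.sum_add_distrib, Finset.sum_sub_distrib, ← Finset.mul_sum, ← Finset.mul_sum, hW,
      hWZ]
    ring
  have hcheb : pr p (fun G : Finset (B × Fin m) => ∀ a ∈ L, ∃ i ∈ D, (i, a i) ∉ G) * μ ^ 2 ≤
      ∑ G, w G * (Z G - μ) ^ 2 := by
    unfold pr
    rw [Finset.sum_mul]
    refine Finset.sum_le_sum fun G _ => ?_
    by_cases h : ∀ a ∈ L, ∃ i ∈ D, (i, a i) ∉ G
    · rw [if_pos h]
      have hZ0 : Z G = 0 := by
        refine Finset.sum_eq_zero fun a ha => ?_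
        rw [if_neg]
        rw [hSsub]
        obtain ⟨i, hi, hn⟩ := h a ha
        intro h'
        exact hn (h' i hi)
      rw [hZ0]
      have : (0 - μ) ^ 2 = μ ^ 2 := by ring
      rw [this]
    · rw [if_neg h, zero_mul]
      exact mul_nonneg (hw G) (sq_nonneg _)
  have hfin : pr p (fun G : Finset (B × Fin m) => ∀ a ∈ L, ∃ i ∈ D, (i, a i) ∉ G) * μ ^ 2 ≤
      ((1 + 1 / (κ * p)) ^ s - 1) * μ ^ 2 := by
    calc _ ≤ ∑ G, w G * (Z G - μ) ^ 2 := hcheb
      _ = ∑ G, w G * Z G ^ 2 - μ ^ 2 := hvar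
      _ ≤ μ ^ 2 * (1 + 1 / (κ * p)) ^ s - μ ^ 2 := by linarith [hZ2]
      _ = ((1 + 1 / (κ * p)) ^ s - 1) * μ ^ 2 := by ring
  exact le_of_mul_le_mul_right hfin (by positivity)

end Pool.H66.RZ
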