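import Pool.Agent.H66.RZ.Prob
import Pool.Agent.H66.RZ.Cnt
import Pool.Agent.H66.RZ.Mom

/-!
Module Miss (about 60 lines).  A spread family is missed by exponentially few labellings.

PROOF.  Let `s = |D|`.  If `s = 0` the event is empty (`∃ i ∈ ∅` is false and `L` is nonempty), so
the left side is `0`.  Let `s ≥ 1`, `p' = 1/(q t)`, `A G := ∀ a ∈ L, ∃ i ∈ D, (i, a i) ∉ G`, which is
decreasing.  By `card_event` (labels `Fin q`, `u' (i, c) = u i`) the left side is
`pr (1/q) A * q^(card (B × Fin m))`, and `1/q = t p'`, so `sprinkle` gives `pr (1/q) A ≤ (pr p' A)^t`.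
By `second_moment`, `pr p' A ≤ (1 + 1/(κ p'))^s - 1` and `1/(κ p') = q t / κ ≤ 1/(4 s)`;
`(1 + 1/(4s))^s ≤ exp(1/4) ≤ 3/2` (or `(1+x)^s ≤ 1/(1 - s x)`), so `pr p' A ≤ 1/2`.
-/

namespace Pool.H66.RZ

open Finset
open scoped Classical

theorem miss_card {B : Type} [Fintype B] [DecidableEq B] {q m t : ℕ} (hq : 0 < q) (ht : 0 < t)
    (D : Finset B) (L : Finset (B → Fin m)) (hL : L.Nonempty) (κ : ℕ) (hκ0 : 0 < κ)
    (hκ : 4 * D.card * q * t ≤ κ)
    (hs : ∀ T ⊆ D, ∀ a ∈ L, (L.filter (fun b => ∀ i ∈ T, b i = a i)).card * κ ^ T.card ≤ L.card)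
    (u : B → Fin q) :
    ((univ.filter (fun y : B × Fin m → Fin q => ∀ a ∈ L, ∃ i ∈ D, y (i, a i) ≠ u i)).card : ℝ) ≤
      (1 / 2) ^ t * (q : ℝ) ^ Fintype.card (B × Fin m) := by
  by_cases hD : D.card = 0
  · have hD0 : D = ∅ := card_eq_zero.1 hD
    have h0 : univ.filter (fun y : B × Fin m → Fin q => ∀ a ∈ L, ∃ i ∈ D, y (i, a i) ≠ u i) = ∅ := by
      rw [filter_eq_empty_iff]
      intro y _ hy
      obtain ⟨a, ha⟩ := hL
      obtain ⟨i, hi, -⟩ := hy a ha
      rw [hD0] at hi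
      exact notMem_empty i hi
    rw [h0, card_empty, Nat.cast_zero]
    positivity
  · have : Nonempty (Fin q) := ⟨⟨0, hq⟩⟩
    have hs1 : 1 ≤ D.card := Nat.one_le_iff_ne_zero.2 hD
    have hqR : (0 : ℝ) < q := Nat.cast_pos.2 hq
    have htR : (0 : ℝ) < t := Nat.cast_pos.2 ht
    have hκR : (0 : ℝ) < κ := Nat.cast_pos.2 hκ0
    have hsR : (1 : ℝ) ≤ D.card := by exact_mod_cast hs1
    have hq1 : (1 : ℝ) ≤ q := by exact_mod_cast hq
    have ht1 : (1 : ℝ) ≤ t := by exact_mod_cast ht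
    have hev := card_event (E := B × Fin m) (Λ := Fin q) (fun e => u e.1)
      (fun G => ∀ a ∈ L, ∃ i ∈ D, (i, a i) ∉ G)
    rw [Fintype.card_fin] at hev
    have hset : ((univ.filter (fun y : B × Fin m → Fin q =>
        ∀ a ∈ L, ∃ i ∈ D, y (i, a i) ≠ u i)).card : ℝ) =
        pr (1 / (q : ℝ)) (fun G : Finset (B × Fin m) => ∀ a ∈ L, ∃ i ∈ D, (i, a i) ∉ G) *
          (q : ℝ) ^ Fintype.card (B × Fin m) := by
      refine Eq.trans ?_ hev
      refine congrArg (fun n : ℕ => (n : ℝ)) (congrArg Finset.card ?_)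
      ext y
      simp only [mem_filter, mem_univ, true_and, ne_eq]
    rw [hset]
    refine mul_le_mul_of_nonneg_right ?_ (by positivity)
    have hp0 : (0 : ℝ) < 1 / ((q : ℝ) * t) := by positivity
    have hqt : (1 : ℝ) ≤ (q : ℝ) * t := by nlinarith
    have hp1 : 1 / ((q : ℝ) * t) ≤ 1 := by
      rw [div_le_one (by positivity)]
      exact hqt
    have htp : (t : ℝ) * (1 / ((q : ℝ) * t)) = 1 / (q : ℝ) := by
      field_simp
    have hmono : ∀ G G' : Finset (B × Fin m), G ⊆ G' →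
        (∀ a ∈ L, ∃ i ∈ D, (i, a i) ∉ G') → (∀ a ∈ L, ∃ i ∈ D, (i, a i) ∉ G) := by
      intro G G' hG h a ha
      obtain ⟨i, hi, h1⟩ := h a ha
      exact ⟨i, hi, fun h2 => h1 (hG h2)⟩
    have hspr := sprinkle (E := B × Fin m) (p := 1 / ((q : ℝ) * t)) (t := t) hp0.le
      (by rw [htp, div_le_one hqR]; exact hq1) hp1
      (A := fun G => ∀ a ∈ L, ∃ i ∈ D, (i, a i) ∉ G) hmono
    rw [htp] at hspr
    refine hspr.trans ?_
    refine pow_le_pow_left₀ (pr_nonneg hp0.le hp1 _) ?_ t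
    have hsec := second_moment D L hL (κ : ℝ) (1 / ((q : ℝ) * t)) hκR hp0 hp1 (by
      intro T hT a ha
      exact_mod_cast hs T hT a ha)
    refine hsec.trans ?_
    set x : ℝ := 1 / ((κ : ℝ) * (1 / ((q : ℝ) * t))) with hx
    have hxv : x = (q : ℝ) * t / κ := by
      rw [hx]
      field_simp
    have hx0 : 0 ≤ x := by
      rw [hxv]
      positivity
    have hxs : (D.card : ℝ) * x ≤ 1 / 4 := by
      rw [hxv]
      have h1 : (4 : ℝ) * D.card * q * t ≤ κ := by exact_mod_cast hκ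
      rw [← mul_div_assoc, div_le_div_iff₀ hκR (by norm_num)]
      linarith
    have h1 : (1 + x) ^ D.card ≤ Real.exp ((D.card : ℝ) * x) := by
      calc (1 + x) ^ D.card ≤ (Real.exp x) ^ D.card := by
            refine pow_le_pow_left₀ (by linarith) ?_ _
            have := Real.add_one_le_exp x
            linarith
        _ = Real.exp ((D.card : ℝ) * x) := by
            rw [← Real.exp_nat_mul]
    have h2 : Real.exp ((D.card : ℝ) * x) ≤ 3 / 2 := by
      have h3 := Real.exp_bound_div_one_sub_of_interval (x := (D.card : ℝ) * x) (by positivity)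
        (by linarith)
      refine h3.trans ?_
      rw [div_le_iff₀ (by linarith)]
      linarith
    linarith

end Pool.H66.RZ
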