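import Pool.Agent.H66.RZ.Fam

/-!
Module Plant.  The planted instances, without circuits (see the header of `Inst.lean`): positive
inputs `px x` (encodings of instances of value less than `ε`), negative inputs `ny y` (below the
encoding of an instance of value `1`; if the negative instance of `y` has no edge take for `Ψ` the
instance with one edge, the image of an edge of `Φ`).
-/

namespace Pool.H66.RZ

open Finset
open scoped Classical

private lemma value_eq_one {N d R : ℕ} (Ψ : LabelCover (Fin N) (Fin N) d R) (hE : Ψ.E.Nonempty)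
    (f : Fin N → Fin R) (g : Fin N → Fin (d * R)) (h : ∀ e ∈ Ψ.E, Ψ.π e (g e.2) = f e.1) :
    Ψ.value = 1 := by
  have hE0 : (0:ℝ) < Ψ.E.card := by exact_mod_cast hE.card_pos
  have hle : ∀ fg : (Fin N → Fin R) × (Fin N → Fin (d * R)),
      ((Ψ.E.filter (fun e => Ψ.π e (fg.2 e.2) = fg.1 e.1)).card : ℝ) / (Ψ.E.card : ℝ) ≤ 1 := by
    intro fg
    rw [div_le_one hE0]
    exact_mod_cast Finset.card_filter_le _ _
  haveI : Nonempty ((Fin N → Fin R) × (Fin N → Fin (d * R))) := ⟨(f, g)⟩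
  apply le_antisymm
  · exact ciSup_le hle
  · have hb : BddAbove (Set.range (fun fg : (Fin N → Fin R) × (Fin N → Fin (d * R)) =>
        ((Ψ.E.filter (fun e => Ψ.π e (fg.2 e.2) = fg.1 e.1)).card : ℝ) / (Ψ.E.card : ℝ))) :=
      (Set.finite_range _).bddAbove
    refine le_trans (le_of_eq ?_) (le_ciSup hb (f, g))
    have : Ψ.E.filter (fun e => Ψ.π e (g e.2) = f e.1) = Ψ.E := Finset.filter_true_of_mem h
    show (1:ℝ) = ((Ψ.E.filter (fun e => Ψ.π e (g e.2) = f e.1)).card : ℝ) / (Ψ.E.card : ℝ)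
    rw [this, div_self hE0.ne']

private lemma value_lt {N d R : ℕ} (hd : 0 < d) (hR : 0 < R)
    (Ψ : LabelCover (Fin N) (Fin N) d R) (hE : Ψ.E.Nonempty) (ε : ℝ)
    (h : ∀ (f : Fin N → Fin R) (g : Fin N → Fin (d * R)),
      ((Ψ.E.filter (fun e => Ψ.π e (g e.2) = f e.1)).card : ℝ) < ε * Ψ.E.card) :
    Ψ.value < ε := by
  have hE0 : (0:ℝ) < Ψ.E.card := by exact_mod_cast hE.card_pos
  haveI : Nonempty (Fin R) := ⟨⟨0, hR⟩⟩
  haveI : Nonempty (Fin (d * R)) := ⟨⟨0, Nat.mul_pos hd hR⟩⟩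
  obtain ⟨fg, hfg⟩ := exists_eq_ciSup_of_finite (f := fun fg : (Fin N → Fin R) × (Fin N → Fin (d * R)) =>
        ((Ψ.E.filter (fun e => Ψ.π e (fg.2 e.2) = fg.1 e.1)).card : ℝ) / (Ψ.E.card : ℝ))
  have h1 := h fg.1 fg.2
  unfold LabelCover.value
  rw [← hfg, div_lt_iff₀ hE0]
  exact h1

theorem planted {n N d R k m : ℕ} (hd : 0 < d) (hR : 0 < R) (hm : 0 < m)
    (Φ : LabelCover (Fin n) (Fin n) d R) (hE : Φ.E.Nonempty) (ε : ℝ)
    (hval : ∀ (f : Fin n → Fin R) (g : Fin n → Fin (d * R)),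
      ((Φ.E.filter (fun e => Φ.π e (g e.2) = f e.1)).card : ℝ) < ε * Φ.E.card)
    (hk : 2 ≤ k) (hΦ : Φ.LocallyConsistent k) (hN : n * m ≤ N) :
    ∃ (H : Game (Fin n ⊕ Fin n) (d * R) k)
      (live : Var N d R → Option (((Fin n ⊕ Fin n) × Fin m) × ((Fin n ⊕ Fin n) × Fin m)))
      (ρ : Var N d R → Fin (d * R) → Fin (d * R) → Prop)
      (px : (Fin n ⊕ Fin n → Fin m) → Var N d R → Bool)
      (ny : ((Fin n ⊕ Fin n) × Fin m → Fin (d * R)) → Var N d R → Bool),
      (∀ x i, px x i = true → ∃ s u, live i = some (s, u) ∧ x s.1 = s.2 ∧ x u.1 = u.2) ∧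
      (∀ y i s u, live i = some (s, u) → ρ i (y s) (y u) → ny y i = true) ∧
      (∀ i s u f, live i = some (s, u) → H.ok {s.1, u.1} f → ρ i (f s.1) (f u.1)) ∧
      (∀ i s u, live i = some (s, u) → s.1 ≠ u.1) ∧
      (∀ x, ∃ Ψ : LabelCover (Fin N) (Fin N) d R, Ψ.E.Nonempty ∧ Ψ.value < ε ∧ px x = Ψ.enc) ∧
      (∀ y, ∃ Ψ : LabelCover (Fin N) (Fin N) d R, Ψ.E.Nonempty ∧ Ψ.value = 1 ∧
        ∀ i, ny y i = true → Ψ.enc i = true) := by
  obtain ⟨H, hH⟩ := exists_game hd hR Φ hΦ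
  -- the embedding of the copies
  obtain ⟨τ, hτ⟩ : ∃ τ : Fin n × Fin m → Fin N, Function.Injective τ :=
    ⟨fun s => Fin.castLE hN (finProdFinEquiv s), fun s s' h =>
      finProdFinEquiv.injective (Fin.castLE_injective hN h)⟩
  -- labels of the copies
  have hlab : ∀ {T : Type} (z : T) (y : Fin n × Fin m → T), ∃ g : Fin N → T, ∀ s, g (τ s) = y s := by
    intro T z y
    refine ⟨fun v => if h : ∃ s, τ s = v then y h.choose else z, fun s => ?_⟩
    have h : ∃ s', τ s' = τ s := ⟨s, rfl⟩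
    show (if h : ∃ s', τ s' = τ s then y h.choose else z) = y s
    rw [dif_pos h]
    exact congrArg y (hτ h.choose_spec)
  -- the map of a pair
  have hmap : ∃ M : Fin N × Fin N → Fin (d * R) → Fin R,
      ∀ s u : Fin n × Fin m, M (τ s, τ u) = Φ.π (s.1, u.1) := by
    refine ⟨fun e => if h : ∃ su : (Fin n × Fin m) × (Fin n × Fin m), (τ su.1, τ su.2) = e then
      Φ.π (h.choose.1.1, h.choose.2.1) else fold hR, fun s u => ?_⟩
    have h : ∃ su : (Fin n × Fin m) × (Fin n × Fin m), (τ su.1, τ su.2) = (τ s, τ u) :=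
      ⟨(s, u), rfl⟩
    show (if h : ∃ su : (Fin n × Fin m) × (Fin n × Fin m), (τ su.1, τ su.2) = (τ s, τ u) then
      Φ.π (h.choose.1.1, h.choose.2.1) else fold hR) = Φ.π (s.1, u.1)
    rw [dif_pos h]
    have h1 := h.choose_spec
    rw [Prod.mk.injEq] at h1
    rw [hτ h1.1, hτ h1.2]
  obtain ⟨M, hM⟩ := hmap
  -- the instance of a set of pairs of copies
  have hinst : ∀ P : Finset ((Fin n × Fin m) × (Fin n × Fin m)),
      (∀ su ∈ P, (su.1.1, su.2.1) ∈ Φ.E) →
      ∃ Ψ : LabelCover (Fin N) (Fin N) d R, Ψ.E = P.image (fun su => (τ su.1, τ su.2)) ∧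
        Ψ.π = M := by
    intro P hP
    refine ⟨⟨P.image (fun su => (τ su.1, τ su.2)), M, ?_⟩, rfl, rfl⟩
    intro e he a
    obtain ⟨su, hsu, rfl⟩ := Finset.mem_image.1 he
    rw [hM]
    exact Φ.dto1 _ (hP su hsu) a
  -- live variables
  obtain ⟨live, hlive⟩ : ∃ live : Var N d R →
      Option (((Fin n ⊕ Fin n) × Fin m) × ((Fin n ⊕ Fin n) × Fin m)),
      (∀ su : (Fin n × Fin m) × (Fin n × Fin m), (su.1.1, su.2.1) ∈ Φ.E →
        live (τ su.1, τ su.2, Φ.π (su.1.1, su.2.1)) =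
          some ((Sum.inl su.1.1, su.1.2), (Sum.inr su.2.1, su.2.2))) ∧
      (∀ i s u, live i = some (s, u) → ∃ su : (Fin n × Fin m) × (Fin n × Fin m),
        (su.1.1, su.2.1) ∈ Φ.E ∧ i = (τ su.1, τ su.2, Φ.π (su.1.1, su.2.1)) ∧
        s = (Sum.inl su.1.1, su.1.2) ∧ u = (Sum.inr su.2.1, su.2.2)) := by
    refine ⟨fun i => if h : ∃ su : (Fin n × Fin m) × (Fin n × Fin m), (su.1.1, su.2.1) ∈ Φ.E ∧
        i = (τ su.1, τ su.2, Φ.π (su.1.1, su.2.1)) then
        some ((Sum.inl h.choose.1.1, h.choose.1.2), (Sum.inr h.choose.2.1, h.choose.2.2))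
        else none, ?_, ?_⟩
    · intro su hsu
      have h : ∃ su' : (Fin n × Fin m) × (Fin n × Fin m), (su'.1.1, su'.2.1) ∈ Φ.E ∧
          (τ su.1, τ su.2, Φ.π (su.1.1, su.2.1)) =
            (τ su'.1, τ su'.2, Φ.π (su'.1.1, su'.2.1)) := ⟨su, hsu, rfl⟩
      show (if h : ∃ su' : (Fin n × Fin m) × (Fin n × Fin m), (su'.1.1, su'.2.1) ∈ Φ.E ∧
          (τ su.1, τ su.2, Φ.π (su.1.1, su.2.1)) =
            (τ su'.1, τ su'.2, Φ.π (su'.1.1, su'.2.1)) then
        some ((Sum.inl h.choose.1.1, h.choose.1.2), (Sum.inr h.choose.2.1, h.choose.2.2))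
        else none) = _
      rw [dif_pos h]
      have h1 := h.choose_spec.2
      rw [Prod.mk.injEq, Prod.mk.injEq] at h1
      have h2 := hτ h1.1
      have h3 := hτ h1.2.1
      rw [← h2, ← h3]
    · intro i s u hi
      beta_reduce at hi
      by_cases h : ∃ su : (Fin n × Fin m) × (Fin n × Fin m), (su.1.1, su.2.1) ∈ Φ.E ∧
        i = (τ su.1, τ su.2, Φ.π (su.1.1, su.2.1))
      · rw [dif_pos h] at hi
        rw [Option.some.injEq, Prod.mk.injEq] at hi
        exact ⟨h.choose, h.choose_spec.1, h.choose_spec.2, hi.1.symm, hi.2.symm⟩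
      · rw [dif_neg h] at hi
        exact absurd hi (by simp)
  -- the instances
  have hpos : ∀ x : Fin n ⊕ Fin n → Fin m, ∃ Ψ : LabelCover (Fin N) (Fin N) d R,
      Ψ.E = Φ.E.image (fun e => (τ (e.1, x (Sum.inl e.1)), τ (e.2, x (Sum.inr e.2)))) ∧
        Ψ.π = M := by
    intro x
    obtain ⟨Ψ, h1, h2⟩ := hinst (Φ.E.image (fun e => ((e.1, x (Sum.inl e.1)),
      (e.2, x (Sum.inr e.2))))) (by
        intro su hsu
        obtain ⟨e, he, rfl⟩ := Finset.mem_image.1 hsu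
        exact he)
    refine ⟨Ψ, ?_, h2⟩
    rw [h1, Finset.image_image]
    rfl
  have hneg : ∀ y : (Fin n ⊕ Fin n) × Fin m → Fin (d * R),
      ∃ Ψ : LabelCover (Fin N) (Fin N) d R,
      Ψ.E = (Finset.univ.filter (fun su : (Fin n × Fin m) × (Fin n × Fin m) =>
        (su.1.1, su.2.1) ∈ Φ.E ∧ Φ.π (su.1.1, su.2.1) (y (Sum.inr su.2.1, su.2.2)) =
          fold hR (y (Sum.inl su.1.1, su.1.2)))).image (fun su => (τ su.1, τ su.2)) ∧
        Ψ.π = M := by
    intro y
    exact hinst _ (fun su hsu => (Finset.mem_filter.1 hsu).2.1)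
  choose Pos hPosE hPosM using hpos
  choose Neg hNegE hNegM using hneg
  refine ⟨H, live, fun i b b' => i.2.2 b' = fold hR b, fun x => (Pos x).enc,
    fun y => (Neg y).enc, ?_, ?_, ?_, ?_, ?_, ?_⟩
  · -- positive inputs
    intro x i hi
    obtain ⟨v, w, σ⟩ := i
    simp only [LabelCover.enc, decide_eq_true_eq] at hi
    obtain ⟨h1, h2⟩ := hi
    rw [hPosE] at h1
    rw [hPosM] at h2
    obtain ⟨e, he, hvw⟩ := Finset.mem_image.1 h1
    rw [Prod.mk.injEq] at hvw
    obtain ⟨rfl, rfl⟩ := hvw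
    rw [hM] at h2
    have h3 := hlive.1 ((e.1, x (Sum.inl e.1)), (e.2, x (Sum.inr e.2))) he
    simp only at h3 h2
    refine ⟨(Sum.inl e.1, x (Sum.inl e.1)), (Sum.inr e.2, x (Sum.inr e.2)), ?_, rfl, rfl⟩
    rw [← h2]
    exact h3
  · -- negative inputs
    intro y i s u hi hρ
    obtain ⟨su, hsu, rfl, rfl, rfl⟩ := hlive.2 i s u hi
    simp only [LabelCover.enc, decide_eq_true_eq]
    refine ⟨?_, ?_⟩
    · rw [hNegE]
      refine Finset.mem_image.2 ⟨su, ?_, rfl⟩
      rw [Finset.mem_filter]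
      exact ⟨Finset.mem_univ _, hsu, hρ⟩
    · rw [hNegM, hM]
  · intro i s u f hi hok
    obtain ⟨su, hsu, rfl, rfl, rfl⟩ := hlive.2 i s u hi
    exact hH su.1.1 su.2.1 f hsu hok
  · intro i s u hi
    obtain ⟨su, hsu, rfl, rfl, rfl⟩ := hlive.2 i s u hi
    exact Sum.inl_ne_inr
  · intro x
    have hinj : Function.Injective (fun e : Fin n × Fin n =>
        (τ (e.1, x (Sum.inl e.1)), τ (e.2, x (Sum.inr e.2)))) := by
      intro e e' h
      simp only [Prod.mk.injEq] at h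
      have h1 := hτ h.1
      have h2 := hτ h.2
      rw [Prod.mk.injEq] at h1 h2
      exact Prod.ext h1.1 h2.1
    have hne : (Pos x).E.Nonempty := by
      rw [hPosE]
      exact hE.image _
    refine ⟨Pos x, hne, value_lt hd hR _ hne ε ?_, rfl⟩
    intro f g
    have h1 := hval (fun i => f (τ (i, x (Sum.inl i)))) (fun j => g (τ (j, x (Sum.inr j))))
    have h2 : ((Pos x).E.filter (fun e => (Pos x).π e (g e.2) = f e.1)).card =
        (Φ.E.filter (fun e => Φ.π e (g (τ (e.2, x (Sum.inr e.2)))) =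
          f (τ (e.1, x (Sum.inl e.1))))).card := by
      rw [hPosE, hPosM, Finset.filter_image, Finset.card_image_of_injective _ hinj]
      congr 1
      apply Finset.filter_congr
      intro e _
      simp only [hM]
    have h3 : (Pos x).E.card = Φ.E.card := by
      rw [hPosE, Finset.card_image_of_injective _ hinj]
    rw [h2, h3]
    exact h1
  · intro y
    by_cases hne : (Neg y).E.Nonempty
    · obtain ⟨f, hf⟩ := hlab (⟨0, hR⟩ : Fin R) (fun s : Fin n × Fin m => fold hR (y (Sum.inl s.1, s.2)))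
      obtain ⟨g, hg⟩ := hlab (⟨0, Nat.mul_pos hd hR⟩ : Fin (d * R))
        (fun s : Fin n × Fin m => y (Sum.inr s.1, s.2))
      refine ⟨Neg y, hne, value_eq_one _ hne f g ?_, fun i hi => hi⟩
      intro e he
      rw [hNegE] at he
      obtain ⟨su, hsu, rfl⟩ := Finset.mem_image.1 he
      rw [Finset.mem_filter] at hsu
      rw [hNegM, hM, hf, hg]
      exact hsu.2.2
    · obtain ⟨e, he⟩ := hE
      obtain ⟨Ψ, h1, h2⟩ := hinst {((e.1, ⟨0, hm⟩), (e.2, ⟨0, hm⟩))} (by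
        intro su hsu
        rw [Finset.mem_singleton.1 hsu]
        exact he)
      have hΨ : Ψ.E.Nonempty := by
        rw [h1]
        exact (Finset.singleton_nonempty _).image _
      refine ⟨Ψ, hΨ, value_eq_one _ hΨ (fun _ => Φ.π e ⟨0, Nat.mul_pos hd hR⟩)
        (fun _ => ⟨0, Nat.mul_pos hd hR⟩) ?_, ?_⟩
      · intro e' he'
        rw [h1, Finset.image_singleton, Finset.mem_singleton] at he'
        rw [he', h2, hM]
      · intro i hi
        exfalso
        obtain ⟨v, w, σ⟩ := i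
        simp only [LabelCover.enc, decide_eq_true_eq] at hi
        exact hne ⟨_, hi.1⟩

end Pool.H66.RZ
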