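import Pool.Agent.H66.RZ.PluckOne

/-!
Module Pluck (about 90 lines).  Repeated plucking.

PROOF of `pluck`.  Strong induction on `|𝒳|`.  If `𝒳` is reduced take `𝒳' = 𝒳` (error `0`).  Otherwise
`pluck_one` gives `𝒳₁` with `|𝒳₁| < |𝒳|`, and the induction hypothesis for `𝒳₁` gives `𝒳'`.  The
errors add up: `{𝒳' accepts, 𝒳 does not} ⊆ {𝒳' accepts, 𝒳₁ does not} ∪ {𝒳₁ accepts, 𝒳 does not}`,
so the error is at most `(|𝒳₁| + 1) δ ≤ |𝒳| δ`, `δ = q^l 2^-t q^(card (B × Fin m))`.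

PROOF of `card_reduced`.  The number of subsets of `B` of size at most `l` is at most `(b+1)^l`
(every such subset is obtained from a function `Fin l → Option B` as the set of its values different
from `none`), and by `Reduced` with `T = ∅` at most `κ^|S| ≤ κ^l` terms of the family have the block
set `S` (`Finset.card_le_mul_card_image` or `card_eq_sum_card_fiberwise`).
-/

namespace Pool.H66.RZ

open Finset
open scoped Classical

theorem card_reduced {B : Type} [Fintype B] [DecidableEq B] {m l κ : ℕ} (hκ0 : 0 < κ)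
    (a₀ : Fin m) (𝒳 : Finset (Term B m)) (hV : Valid a₀ l 𝒳) (hR : Reduced κ 𝒳) :
    𝒳.card ≤ ((Fintype.card B + 1) * κ) ^ l := by
  sorry

theorem pluck {B : Type} [Fintype B] [DecidableEq B] {q k m l t κ : ℕ} (hq : 0 < q)
    (ht : 0 < t) (hlk : l ≤ k) (hκ0 : 0 < κ) (hκ : 4 * l * q * t ≤ κ) (H : Game B q k)
    (a₀ : Fin m) (𝒳 : Finset (Term B m)) (hV : Valid a₀ l 𝒳) :
    ∃ 𝒳' : Finset (Term B m), Valid a₀ l 𝒳' ∧ Reduced κ 𝒳' ∧
      (∀ x, (∃ X ∈ 𝒳, accP X x) → ∃ X ∈ 𝒳', accP X x) ∧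
      ((univ.filter (fun y : B × Fin m → Fin q =>
        (∃ X ∈ 𝒳', accN H X y) ∧ ¬ ∃ X ∈ 𝒳, accN H X y)).card : ℝ) ≤
          𝒳.card * ((q : ℝ) ^ l * ((1 / 2) ^ t * (q : ℝ) ^ Fintype.card (B × Fin m))) := by
  sorry

end Pool.H66.RZ
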