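import Pool.Agent.H66.RZ.Miss
import Pool.Agent.H66.RZ.Core

/-!
Module PluckOne (about 130 lines).  One plucking step.

PROOF.  (1) `𝒳` is not `Reduced`, so there are `T ⊆ S` and `z` such that more than
`κ^(|S| - |T|)` terms of `𝒳` have the block set `S` and agree with `z` on `T`; in particular some
term has the block set `S`, so `|S| ≤ l`.  Let `𝒜 = {a : (S, a) ∈ 𝒳}` (for example
`(𝒳.filter (·.1 = S)).image Prod.snd`, the second projection is injective there); by `Valid` it is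
normalised.  `exists_core` gives `Z ⊂ S`, `z`, and `L = {a ∈ 𝒜 : a = z on Z}` with `2 ≤ |L|` and the
spread condition on `S \ Z`.
(2) Let `X₀ = (Z, z')`, `z' = z` on `Z` and `a₀` outside, and
`𝒳' = (𝒳 \ {(S, a) : a ∈ L}) ∪ {X₀}`.  Then `|𝒳'| ≤ |𝒳| - 2 + 1 < |𝒳|`, `𝒳'` is valid.
(3) Positives: if `x` contains `(S, a)`, `a ∈ L`, then `x = a = z` on `Z`, so `x` contains `X₀`.
(4) Negatives: if `𝒳'` accepts `y` and `𝒳` does not, then `accN H X₀ y` and `¬ accN H (S, a) y` for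
all `a ∈ L`.  For every `w : B → Fin q` with `H.ok Z w` choose `u_w` with `u_w = w` on `Z` and
`H.ok S u_w` (`H.ext`, `|S| ≤ l ≤ k`).  Put `w i = y (i, z' i)`: then `H.ok Z w`, and for every
`a ∈ L` the labelling `i ↦ y (i, a i)` is not `ok` on `S`, so by `congr` it differs from `u_w`
somewhere on `S`; on `Z` we have `y (i, a i) = y (i, z i) = w i = u_w i`, so it differs on `S \ Z`.
Let `w'` be `w` on `Z` and a fixed label outside of `Z` (so there are at most `q^|Z| ≤ q^l`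
possibilities for `w'`); the event is contained in the union over these `w'` (with `H.ok Z w'`) of
`{y : ∀ a ∈ L, ∃ i ∈ S \ Z, y (i, a i) ≠ u_{w'} i}`, each of which has at most
`2^-t q^(card (B × Fin m))` elements by `miss_card` (`|S \ Z| ≤ l`, hence `hκ`).
-/

namespace Pool.H66.RZ

open Finset
open scoped Classical

theorem pluck_one {B : Type} [Fintype B] [DecidableEq B] {q k m l t κ : ℕ} (hq : 0 < q)
    (ht : 0 < t) (hlk : l ≤ k) (hκ0 : 0 < κ) (hκ : 4 * l * q * t ≤ κ) (H : Game B q k)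
    (a₀ : Fin m) (𝒳 : Finset (Term B m)) (hV : Valid a₀ l 𝒳)
    (hM : ¬ Reduced κ 𝒳) :
    ∃ 𝒳' : Finset (Term B m), Valid a₀ l 𝒳' ∧ 𝒳'.card < 𝒳.card ∧
      (∀ x, (∃ X ∈ 𝒳, accP X x) → ∃ X ∈ 𝒳', accP X x) ∧
      ((univ.filter (fun y : B × Fin m → Fin q =>
        (∃ X ∈ 𝒳', accN H X y) ∧ ¬ ∃ X ∈ 𝒳, accN H X y)).card : ℝ) ≤
          (q : ℝ) ^ l * ((1 / 2) ^ t * (q : ℝ) ^ Fintype.card (B × Fin m)) := by
  unfold Reduced at hM
  push Not at hM
  obtain ⟨S, T, hTS, z₀, hz₁⟩ := hM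
  have hz₀ : κ ^ (S.card - T.card) <
      (𝒳.filter (fun X => X.1 = S ∧ ∀ i ∈ T, X.2 i = z₀ i)).card := by
    refine lt_of_lt_of_le hz₁ (le_of_eq ?_)
    congr
  obtain ⟨X₁, hX₁⟩ := card_pos.1 (lt_of_le_of_lt (Nat.zero_le _) hz₀)
  rw [mem_filter] at hX₁
  have hSl : S.card ≤ l := by
    rw [← hX₁.2.1]
    exact (hV X₁ hX₁.1).1
  have hmem : ∀ a, a ∈ (𝒳.filter (fun X => X.1 = S)).image Prod.snd ↔ (S, a) ∈ 𝒳 := by
    intro a
    rw [mem_image]
    constructor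
    · rintro ⟨X, hX, rfl⟩
      rw [mem_filter] at hX
      rw [← hX.2]
      exact hX.1
    · intro h
      exact ⟨(S, a), mem_filter.2 ⟨h, rfl⟩, rfl⟩
  obtain ⟨𝒜, h𝒜⟩ : ∃ 𝒜 : Finset (B → Fin m), ∀ a, a ∈ 𝒜 ↔ (S, a) ∈ 𝒳 := ⟨_, hmem⟩
  have hnorm : ∀ a ∈ 𝒜, ∀ i, i ∉ S → a i = a₀ := fun a ha i hi =>
    (hV (S, a) ((h𝒜 a).1 ha)).2 i hi
  have hA : ∃ T ⊆ S, ∃ z : B → Fin m,
      κ ^ (S.card - T.card) < (𝒜.filter (fun a => ∀ i ∈ T, a i = z i)).card := by
    refine ⟨T, hTS, z₀, hz₀.trans_le ?_⟩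
    refine card_le_card_of_injOn Prod.snd ?_ ?_
    · intro X hX
      have h1 := mem_filter.1 (mem_coe.1 hX)
      refine mem_coe.2 (mem_filter.2 ⟨(h𝒜 _).2 ?_, h1.2.2⟩)
      rw [← h1.2.1]
      exact h1.1
    · intro X hX Y hY hXY
      have h1 := mem_filter.1 (mem_coe.1 hX)
      have h2 := mem_filter.1 (mem_coe.1 hY)
      exact Prod.ext (h1.2.1.trans h2.2.1.symm) hXY
  obtain ⟨Z, hZS, hZne, z, hL2, hspread⟩ := exists_core κ hκ0 a₀ S 𝒜 hnorm hA
  obtain ⟨L, hL⟩ : ∃ L : Finset (B → Fin m), L = 𝒜.filter (fun a => ∀ i ∈ Z, a i = z i) := ⟨_, rfl⟩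
  rw [← hL] at hL2 hspread
  have hLm : ∀ a, a ∈ L ↔ (S, a) ∈ 𝒳 ∧ ∀ i ∈ Z, a i = z i := by
    intro a
    rw [hL, mem_filter, h𝒜]
  let z' : B → Fin m := fun i => if i ∈ Z then z i else a₀
  have hz' : ∀ i ∈ Z, z' i = z i := fun i hi => if_pos hi
  let X₀ : Term B m := (Z, z')
  refine ⟨insert X₀ (𝒳.filter (fun X => ¬ (X.1 = S ∧ X.2 ∈ L))), ?_, ?_, ?_, ?_⟩
  · -- valid
    intro X hX
    rw [mem_insert] at hX
    rcases hX with rfl | hX
    · exact ⟨(card_le_card hZS).trans hSl, fun i hi => if_neg hi⟩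
    · exact hV X (mem_filter.1 hX).1
  · -- cardinality
    have h1 : L.card ≤ (𝒳.filter (fun X => X.1 = S ∧ X.2 ∈ L)).card := by
      refine card_le_card_of_injOn (fun a => (S, a)) ?_ ?_
      · intro a ha
        exact mem_coe.2 (mem_filter.2 ⟨((hLm a).1 (mem_coe.1 ha)).1, rfl, mem_coe.1 ha⟩)
      · intro a _ b _ hab
        exact congrArg Prod.snd hab
    have h2 := card_filter_add_card_filter_not (s := 𝒳) (fun X => X.1 = S ∧ X.2 ∈ L)
    have h3 := card_insert_le X₀ (𝒳.filter (fun X => ¬ (X.1 = S ∧ X.2 ∈ L)))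
    omega
  · -- positives
    rintro x ⟨X, hX, hx⟩
    by_cases h : X.1 = S ∧ X.2 ∈ L
    · refine ⟨X₀, mem_insert_self _ _, ?_⟩
      intro i hi
      have h1 : x i = X.2 i := hx i (by rw [h.1]; exact hZS hi)
      have h2 : X.2 i = z i := ((hLm _).1 h.2).2 i hi
      rw [h1, h2]
      exact (hz' i hi).symm
    · exact ⟨X, mem_insert_of_mem (mem_filter.2 ⟨hX, h⟩), hx⟩
  · -- negatives
    let w : (Z → Fin q) → B → Fin q := fun g i => if h : i ∈ Z then g ⟨i, h⟩ else ⟨0, hq⟩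
    have hu : ∀ g : Z → Fin q, ∃ u : B → Fin q, H.ok Z (w g) →
        ((∀ i ∈ Z, u i = w g i) ∧ H.ok S u) := by
      intro g
      by_cases h : H.ok Z (w g)
      · obtain ⟨u, hu1, hu2⟩ := H.ext Z S (w g) hZS (hSl.trans hlk) h
        exact ⟨u, fun _ => ⟨hu1, hu2⟩⟩
      · exact ⟨w g, fun h' => absurd h' h⟩
    choose u hu using hu
    let F : (Z → Fin q) → Finset (B × Fin m → Fin q) := fun g =>
      univ.filter (fun y : B × Fin m → Fin q => ∀ a ∈ L, ∃ i ∈ S \ Z, y (i, a i) ≠ u g i)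
    have hsub : (univ.filter (fun y : B × Fin m → Fin q =>
        (∃ X ∈ insert X₀ (𝒳.filter (fun X => ¬ (X.1 = S ∧ X.2 ∈ L))), accN H X y) ∧
          ¬ ∃ X ∈ 𝒳, accN H X y)) ⊆ univ.biUnion F := by
      intro y hy
      rw [mem_filter] at hy
      obtain ⟨-, ⟨X, hX, hXy⟩, hno⟩ := hy
      have hX0 : X = X₀ := by
        rcases mem_insert.1 hX with h | h
        · exact h
        · exact absurd ⟨X, (mem_filter.1 h).1, hXy⟩ hno
      subst hX0
      have hok : H.ok Z (fun i => y (i, z' i)) := hXy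
      let g : Z → Fin q := fun i => y (i.1, z' i.1)
      have hwg : ∀ i ∈ Z, w g i = y (i, z' i) := by
        intro i hi
        show (if h : i ∈ Z then g ⟨i, h⟩ else ⟨0, hq⟩) = _
        rw [dif_pos hi]
      have hok' : H.ok Z (w g) := H.congr Z _ _ (fun i hi => (hwg i hi).symm) hok
      obtain ⟨hu1, hu2⟩ := hu g hok'
      refine mem_biUnion.2 ⟨g, mem_univ _, mem_filter.2 ⟨mem_univ _, ?_⟩⟩
      intro a ha
      by_contra hcon
      push Not at hcon
      refine hno ⟨(S, a), ((hLm a).1 ha).1, ?_⟩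
      refine H.congr S (u g) _ ?_ hu2
      intro i hi
      by_cases hiZ : i ∈ Z
      · rw [hu1 i hiZ, hwg i hiZ, hz' i hiZ]
        show y (i, z i) = y (i, a i)
        rw [((hLm a).1 ha).2 i hiZ]
      · exact (hcon i (mem_sdiff.2 ⟨hi, hiZ⟩)).symm
    have hLne : L.Nonempty := card_pos.1 (by omega)
    have hκ' : 4 * (S \ Z).card * q * t ≤ κ := by
      refine le_trans ?_ hκ
      have h1 : (S \ Z).card ≤ l := (card_le_card sdiff_subset).trans hSl
      exact Nat.mul_le_mul_right _ (Nat.mul_le_mul_right _ (Nat.mul_le_mul_left _ h1))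
    have hF : ∀ g : Z → Fin q, ((F g).card : ℝ) ≤
        (1 / 2) ^ t * (q : ℝ) ^ Fintype.card (B × Fin m) := fun g =>
      miss_card hq ht (S \ Z) L hLne κ hκ0 hκ' (fun T hT a _ => hspread T hT a) (u g)
    have hc1 : ((univ.filter (fun y : B × Fin m → Fin q =>
        (∃ X ∈ insert X₀ (𝒳.filter (fun X => ¬ (X.1 = S ∧ X.2 ∈ L))), accN H X y) ∧
          ¬ ∃ X ∈ 𝒳, accN H X y)).card : ℝ) ≤ ∑ g : Z → Fin q, ((F g).card : ℝ) := by
      have h1 := (card_le_card hsub).trans (card_biUnion_le (s := univ) (t := F))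
      exact_mod_cast h1
    refine hc1.trans ?_
    have hc2 : ∑ g : Z → Fin q, ((F g).card : ℝ) ≤
        (q : ℝ) ^ Z.card * ((1 / 2) ^ t * (q : ℝ) ^ Fintype.card (B × Fin m)) := by
      refine (sum_le_sum fun g _ => hF g).trans ?_
      rw [sum_const, nsmul_eq_mul, card_univ, Fintype.card_fun, Fintype.card_coe,
        Fintype.card_fin, Nat.cast_pow]
    refine hc2.trans ?_
    refine mul_le_mul_of_nonneg_right ?_ (by positivity)
    have hq1 : (1 : ℝ) ≤ q := by exact_mod_cast hq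
    exact pow_le_pow_right₀ hq1 ((card_le_card hZS).trans hSl)

end Pool.H66.RZ
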