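import Pool.Agent.H66.RZ.Defs

/-!
Module Prob.  Random subsets: basic facts and sprinkling.

`pr p A = ∑_G [A G] p^|G| (1-p)^(|E|-|G|)` for `E` finite.
-/

namespace Pool.H66.RZ

open Finset
open scoped Classical

variable {E : Type} [Fintype E] [DecidableEq E]

private noncomputable def wt (p : ℝ) (G : Finset E) : ℝ :=
  p ^ G.card * (1 - p) ^ (Fintype.card E - G.card)

private theorem pr_eq (p : ℝ) (A : Finset E → Prop) :
    pr p A = ∑ G : Finset E, if A G then wt p G else 0 := rfl

omit [DecidableEq E] in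
private theorem wt_nonneg {p : ℝ} (h0 : 0 ≤ p) (h1 : p ≤ 1) (G : Finset E) : 0 ≤ wt p G :=
  mul_nonneg (pow_nonneg h0 _) (pow_nonneg (sub_nonneg.2 h1) _)

private theorem wt_eq_prod (p : ℝ) (G : Finset E) :
    wt p G = ∏ e : E, if e ∈ G then p else 1 - p := by
  rw [Finset.prod_ite, Finset.prod_const, Finset.prod_const, wt]
  have h1 : (Finset.univ.filter (fun e => e ∈ G)) = G := by
    ext e
    simp
  have h2 : (Finset.univ.filter (fun e => e ∉ G)).card = Fintype.card E - G.card := by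
    have h3 : (Finset.univ.filter (fun e => e ∉ G)) = Gᶜ := by
      ext e
      simp
    rw [h3, Finset.card_compl]
  rw [h1, h2]

private def pairEquiv : (E → Bool × Bool) ≃ Finset E × Finset E where
  toFun f := (Finset.univ.filter (fun e => (f e).1 = true),
    Finset.univ.filter (fun e => (f e).2 = true))
  invFun x := fun e => (decide (e ∈ x.1), decide (e ∈ x.2))
  left_inv f := by
    funext e
    simp
  right_inv x := by
    refine Prod.ext ?_ ?_
    · ext e
      simp
    · ext e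
      simp

private def pick (p : ℝ) : Bool → ℝ
  | true => p
  | false => 1 - p

private theorem wt_pair (p r : ℝ) (f : E → Bool × Bool) :
    wt p (pairEquiv f).1 * wt r (pairEquiv f).2 =
      ∏ e : E, pick p (f e).1 * pick r (f e).2 := by
  rw [wt_eq_prod, wt_eq_prod, ← Finset.prod_mul_distrib]
  refine Finset.prod_congr rfl fun e _ => ?_
  have h1 : e ∈ (pairEquiv f).1 ↔ (f e).1 = true := by simp [pairEquiv]
  have h2 : e ∈ (pairEquiv f).2 ↔ (f e).2 = true := by simp [pairEquiv]
  rcases hf : f e with ⟨a, b⟩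
  rw [hf] at h1 h2
  cases a <;> cases b <;> simp [h1, h2, pick]

private theorem conv (p r : ℝ) (G : Finset E) :
    (∑ x : Finset E × Finset E, if x.1 ∪ x.2 = G then wt p x.1 * wt r x.2 else 0) =
      wt (p + r - p * r) G := by
  have h1 : (∑ x : Finset E × Finset E, if x.1 ∪ x.2 = G then wt p x.1 * wt r x.2 else 0) =
      ∑ f : E → Bool × Bool, ∏ e : E,
        if ((f e).1 || (f e).2) = decide (e ∈ G) then pick p (f e).1 * pick r (f e).2 else 0 := by
    rw [← Equiv.sum_comp pairEquiv]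
    refine Finset.sum_congr rfl fun f _ => ?_
    have h2 : (pairEquiv f).1 ∪ (pairEquiv f).2 = G ↔
        ∀ e, ((f e).1 || (f e).2) = decide (e ∈ G) := by
      rw [Finset.ext_iff]
      refine forall_congr' fun e => ?_
      rw [Finset.mem_union]
      have h3 : e ∈ (pairEquiv f).1 ↔ (f e).1 = true := by simp [pairEquiv]
      have h4 : e ∈ (pairEquiv f).2 ↔ (f e).2 = true := by simp [pairEquiv]
      rw [h3, h4]
      by_cases he : e ∈ G
      · simp [he]
      · simp [he]
    by_cases h : (pairEquiv f).1 ∪ (pairEquiv f).2 = G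
    · rw [if_pos h, wt_pair]
      refine Finset.prod_congr rfl fun e _ => ?_
      rw [if_pos (h2.1 h e)]
    · rw [if_neg h]
      have h3 : ∃ e, ¬ ((f e).1 || (f e).2) = decide (e ∈ G) := by
        by_contra hcon
        exact h (h2.2 fun e => by
          by_contra hne
          exact hcon ⟨e, hne⟩)
      obtain ⟨e, he⟩ := h3
      exact (Finset.prod_eq_zero (Finset.mem_univ e) (if_neg he)).symm
  rw [h1, wt_eq_prod]
  have h2 := Finset.prod_univ_sum (fun _ : E => (Finset.univ : Finset (Bool × Bool)))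
    (fun e ab => if (ab.1 || ab.2) = decide (e ∈ G) then pick p ab.1 * pick r ab.2 else 0)
  rw [Fintype.piFinset_univ] at h2
  rw [← h2]
  refine Finset.prod_congr rfl fun e _ => ?_
  rw [Fintype.sum_prod_type]
  by_cases he : e ∈ G
  · simp [he, pick]
    ring
  · simp [he, pick]
    ring

theorem pr_nonneg {p : ℝ} (h0 : 0 ≤ p) (h1 : p ≤ 1) (A : Finset E → Prop) : 0 ≤ pr p A := by
  rw [pr_eq]
  refine Finset.sum_nonneg fun G _ => ?_
  split_ifs
  · exact wt_nonneg h0 h1 G
  · exact le_refl _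

theorem pr_mono {p : ℝ} (h0 : 0 ≤ p) (h1 : p ≤ 1) {A A' : Finset E → Prop}
    (h : ∀ G, A G → A' G) : pr p A ≤ pr p A' := by
  rw [pr_eq, pr_eq]
  refine Finset.sum_le_sum fun G _ => ?_
  by_cases hG : A G
  · rw [if_pos hG, if_pos (h G hG)]
  · rw [if_neg hG]
    split_ifs
    · exact wt_nonneg h0 h1 G
    · exact le_refl _

theorem pr_true (p : ℝ) : pr p (fun _ : Finset E => True) = 1 := by
  rw [pr_eq]
  have h1 := Fintype.sum_pow_mul_eq_add_pow E p (1 - p)
  rw [add_sub_cancel, one_pow] at h1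
  rw [← h1]
  refine Finset.sum_congr rfl fun G _ => ?_
  rw [if_pos trivial]
  rfl

theorem pr_le_one {p : ℝ} (h0 : 0 ≤ p) (h1 : p ≤ 1) (A : Finset E → Prop) : pr p A ≤ 1 :=
  (pr_mono h0 h1 fun _ _ => trivial).trans (pr_true p).le

theorem pr_union {p r : ℝ} (hp0 : 0 ≤ p) (hp1 : p ≤ 1) (hr0 : 0 ≤ r) (hr1 : r ≤ 1)
    {A : Finset E → Prop} (hA : ∀ G G', G ⊆ G' → A G' → A G) :
    pr (p + r - p * r) A ≤ pr p A * pr r A := by
  have h1 : pr (p + r - p * r) A =
      ∑ x : Finset E × Finset E, if A (x.1 ∪ x.2) then wt p x.1 * wt r x.2 else 0 := by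
    rw [pr_eq]
    have h2 : ∀ G : Finset E, (if A G then wt (p + r - p * r) G else 0) =
        ∑ x : Finset E × Finset E,
          if x.1 ∪ x.2 = G then (if A (x.1 ∪ x.2) then wt p x.1 * wt r x.2 else 0) else 0 := by
      intro G
      by_cases hG : A G
      · rw [if_pos hG, ← conv]
        refine Finset.sum_congr rfl fun x _ => ?_
        by_cases hx : x.1 ∪ x.2 = G
        · rw [if_pos hx, if_pos hx, hx, if_pos hG]
        · rw [if_neg hx, if_neg hx]
      · rw [if_neg hG]
        refine (Finset.sum_eq_zero fun x _ => ?_).symm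
        by_cases hx : x.1 ∪ x.2 = G
        · rw [if_pos hx, hx, if_neg hG]
        · rw [if_neg hx]
    rw [Finset.sum_congr rfl fun G _ => h2 G, Finset.sum_comm]
    refine Finset.sum_congr rfl fun x _ => ?_
    rw [Finset.sum_ite_eq]
    simp
  rw [h1, pr_eq, pr_eq, Finset.sum_mul_sum, ← Finset.sum_product']
  refine Finset.sum_le_sum fun x _ => ?_
  by_cases hx : A (x.1 ∪ x.2)
  · rw [if_pos hx, if_pos (hA _ _ Finset.subset_union_left hx),
      if_pos (hA _ _ Finset.subset_union_right hx)]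
  · rw [if_neg hx]
    refine mul_nonneg ?_ ?_
    · split_ifs
      · exact wt_nonneg hp0 hp1 _
      · exact le_refl _
    · split_ifs
      · exact wt_nonneg hr0 hr1 _
      · exact le_refl _

theorem pr_antitone {p p' : ℝ} (hp0 : 0 ≤ p) (hpp : p ≤ p') (hp1 : p' ≤ 1)
    {A : Finset E → Prop} (hA : ∀ G G', G ⊆ G' → A G' → A G) : pr p' A ≤ pr p A := by
  rcases eq_or_lt_of_le (hpp.trans hp1) with h | h
  · have h2 : p' = p := le_antisymm (hp1.trans h.ge) hpp
    rw [h2]
  · have h3 : 0 < 1 - p := sub_pos.2 h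
    set r : ℝ := (p' - p) / (1 - p) with hr
    have hr0 : 0 ≤ r := div_nonneg (sub_nonneg.2 hpp) h3.le
    have hr1 : r ≤ 1 := by
      rw [hr, div_le_one h3]
      linarith
    have h4 : p' = p + r - p * r := by
      have h5 : r * (1 - p) = p' - p := div_mul_cancel₀ _ h3.ne'
      linarith
    have h6 : pr p' A ≤ pr p A * pr r A := by
      rw [h4]
      exact pr_union hp0 h.le hr0 hr1 hA
    exact h6.trans (mul_le_of_le_one_right (pr_nonneg hp0 h.le A) (pr_le_one hr0 hr1 A))

private theorem union_pow {p : ℝ} (hp0 : 0 ≤ p) (hp1 : p ≤ 1) {A : Finset E → Prop}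
    (hA : ∀ G G', G ⊆ G' → A G' → A G) (t : ℕ) : pr (1 - (1 - p) ^ t) A ≤ (pr p A) ^ t := by
  induction t with
  | zero =>
    rw [pow_zero, pow_zero, sub_self]
    exact pr_le_one (le_refl 0) zero_le_one A
  | succ t ih =>
    have h0 : 0 ≤ (1 - p) ^ t := pow_nonneg (sub_nonneg.2 hp1) t
    have h1 : (1 - p) ^ t ≤ 1 := pow_le_one₀ (sub_nonneg.2 hp1) (by linarith)
    have h2 : 1 - (1 - p) ^ (t + 1) =
        (1 - (1 - p) ^ t) + p - (1 - (1 - p) ^ t) * p := by
      rw [pow_succ]
      ring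
    rw [h2, pow_succ]
    refine (pr_union (by linarith) (by linarith) hp0 hp1 hA).trans ?_
    exact mul_le_mul_of_nonneg_right ih (pr_nonneg hp0 hp1 A)

theorem sprinkle {p : ℝ} {t : ℕ} (hp0 : 0 ≤ p) (ht : (t : ℝ) * p ≤ 1) (hp1 : p ≤ 1)
    {A : Finset E → Prop} (hA : ∀ G G', G ⊆ G' → A G' → A G) :
    pr (t * p) A ≤ (pr p A) ^ t := by
  have h0 : 0 ≤ (1 - p) ^ t := pow_nonneg (sub_nonneg.2 hp1) t
  have h1 : (1 - p) ^ t ≤ 1 := pow_le_one₀ (sub_nonneg.2 hp1) (by linarith)
  have h2 : 1 - (t : ℝ) * p ≤ (1 - p) ^ t := by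
    have h3 := one_add_mul_le_pow (a := -p) (by linarith) t
    have h4 : 1 + -p = 1 - p := by ring
    rw [h4] at h3
    linarith
  exact (pr_antitone (by linarith) (by linarith) ht hA).trans (union_pow hp0 hp1 hA t)

end Pool.H66.RZ
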